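import Pool.Agent.Lib.MP_b9430d_co.NT.Defs
import Pool.Agent.Lib.MP_bc6037_nt.DivBound

/-!
# TauL: elementary facts on the number of divisors

`tau_mul_le`: the map `(u, v) ↦ u v` from `a.divisors × b.divisors` onto `(a b).divisors` is surjective
(`Nat.divisors_mul`, `Finset.card_image_le`, or `Nat.Coprime`-free: every divisor of `a b` is a product,
`exists_dvd_and_dvd_of_dvd_mul`). `tau_prime_pow`: `Nat.divisors_prime_pow`. `tau_two_pow`: `τ(n) ≤ 2^Ω(n)`, induction
with `tau_mul_le` (`ArithmeticFunction.cardFactors`, or `Nat.primeFactorsList.length`). `tau_rpow`: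
`Pool.Agent.Lib.MP_bc6037_nt.card_divisors_le_rpow` with `η = ε / (K + 1)`.
-/

set_option autoImplicit false

open MeasureTheory Complex Set Real Filter Topology
open scoped ENNReal Pointwise

namespace Pool.MPb9430d.NT

open Pool.MPb9430d Pool.MPb9430d.Rough Pool.MPb9430d.Frac Pool.MPb9430d.Mom
open Pool.Agent.Lib.DG (rp nq)

theorem tau_mul_le (a b : ℕ) : tau (a * b) ≤ tau a * tau b := by
  unfold tau
  rw [Nat.divisors_mul]
  exact_mod_cast Finset.card_mul_le

theorem tau_prime_pow {p : ℕ} (hp : p.Prime) (a : ℕ) : tau (p ^ a) = a + 1 := by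
  unfold tau
  rw [Nat.divisors_prime_pow hp a, Finset.card_map, Finset.card_range]
  push_cast
  ring

theorem tau_le_two_pow {n : ℕ} (hn : 1 ≤ n) : tau n ≤ 2 ^ n.primeFactorsList.length := by
  revert hn
  refine induction_on_primes (motive := fun n => 1 ≤ n → tau n ≤ 2 ^ n.primeFactorsList.length)
    (fun h => by omega) (fun _ => by simp [tau]) (fun p a hp ih h => ?_) n
  have ha : 1 ≤ a := by
    rcases Nat.eq_zero_or_pos a with h0 | h0
    · simp [h0] at h
    · exact h0
  have h1 := (Nat.perm_primeFactorsList_mul hp.ne_zero (by omega : a ≠ 0)).length_eq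
  rw [Nat.primeFactorsList_prime hp, List.length_append, List.length_singleton] at h1
  rw [h1]
  have h2 : tau p = 2 := by
    have := tau_prime_pow hp 1
    rw [pow_one] at this
    rw [this]; norm_num
  calc tau (p * a) ≤ tau p * tau a := tau_mul_le p a
    _ ≤ 2 * 2 ^ a.primeFactorsList.length := by
        rw [h2]; exact mul_le_mul_of_nonneg_left (ih ha) (by norm_num)
    _ = 2 ^ (1 + a.primeFactorsList.length) := by rw [pow_add, pow_one]

theorem tau_rpow (K : ℕ) {ε : ℝ} (hε : 0 < ε) : ∃ C : ℝ, 1 ≤ C ∧ ∀ n : ℕ, 1 ≤ n →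
    tau n ^ K ≤ C * (n : ℝ) ^ ε := by
  have hη : 0 < ε / (K + 1) := by positivity
  obtain ⟨C, hC1, hC⟩ := Pool.Agent.Lib.MP_bc6037_nt.card_divisors_le_rpow hη
  refine ⟨C ^ K, one_le_pow₀ hC1, fun n hn => ?_⟩
  have h1 : tau n ≤ C * (n : ℝ) ^ (ε / (K + 1)) := hC n (by omega)
  have hn1 : (1 : ℝ) ≤ n := by exact_mod_cast hn
  calc tau n ^ K ≤ (C * (n : ℝ) ^ (ε / (K + 1))) ^ K := pow_le_pow_left₀ (tau_nonneg n) h1 K
    _ = C ^ K * (n : ℝ) ^ (ε / (K + 1) * K) := by
        rw [mul_pow, ← Real.rpow_natCast ((n : ℝ) ^ (ε / (K + 1))) K, ← Real.rpow_mul (by positivity)]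
    _ ≤ C ^ K * (n : ℝ) ^ ε := by
        apply mul_le_mul_of_nonneg_left _ (by positivity)
        apply Real.rpow_le_rpow_of_exponent_le hn1
        rw [div_mul_eq_mul_div, div_le_iff₀ (by positivity)]
        nlinarith

end Pool.MPb9430d.NT
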