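import Pool.Agent.Lib.MP_b9430d_co.NT.Defs
import Pool.Agent.Lib.MP_b9430d_co.NT.TauL

/-!
# SmP: the smooth part

`m = ∏ p^{v_p(m)}` (`Nat.factorization_prod_pow_eq_self`), split the primes `≤ y` and `> y`: `smp y m ∣ m`, the cofactor is `∏_{p > y} p^{v_p}`; the two are coprime;
every prime of the cofactor is `> y`. `log_smp`: `Real.log_prod`. `tau_rough`: `b = m / smp`, `b = 1`: `tau 1 = 1`. Otherwise `m ≥ 2`, all prime factors of `b` are
`≥ m^d`, so `m^(d n) ≤ b ≤ m` with `n = Ω(b)` (`b.primeFactorsList.length`), `d n ≤ 1`, `tau b ≤ 2^n ≤ 2^(1/d)` (`tau_le_two_pow`).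
-/

set_option autoImplicit false

open MeasureTheory Complex Set Real Filter Topology
open scoped ENNReal

namespace Pool.MPb9430d.NT

open Pool.MPb9430d Pool.MPb9430d.Rough Pool.MPb9430d.Frac Pool.MPb9430d.Mom
open Pool.Agent.Lib.DG (rp nq)

/-- the cofactor of the smooth part -/
private noncomputable def smq (y : ℝ) (m : ℕ) : ℕ :=
  ∏ p ∈ m.primeFactors.filter (fun p : ℕ => ¬ (p : ℝ) ≤ y), p ^ m.factorization p

private theorem smp_mul (y : ℝ) {m : ℕ} (hm : 1 ≤ m) : smp y m * smq y m = m := by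
  unfold smp smq
  rw [Finset.prod_filter_mul_prod_filter_not]
  exact Nat.factorization_prod_pow_eq_self (by omega)

theorem smp_dvd (y : ℝ) {m : ℕ} (hm : 1 ≤ m) : smp y m ∣ m :=
  Dvd.intro _ (smp_mul y hm)

theorem smp_pos (y : ℝ) (m : ℕ) : 1 ≤ smp y m := by
  unfold smp
  exact Finset.prod_pos fun p hp => pow_pos (Nat.prime_of_mem_primeFactors (Finset.mem_filter.1 hp).1).pos _

private theorem smp_div (y : ℝ) {m : ℕ} (hm : 1 ≤ m) : m / smp y m = smq y m :=
  Nat.div_eq_of_eq_mul_right (smp_pos y m) (smp_mul y hm).symm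

theorem smp_coprime (y : ℝ) {m : ℕ} (hm : 1 ≤ m) : Nat.Coprime (smp y m) (m / smp y m) := by
  rw [smp_div y hm]
  unfold smp smq
  refine Nat.Coprime.prod_left fun p hp => Nat.Coprime.prod_right fun q hq => Nat.Coprime.pow _ _ ?_
  rw [Finset.mem_filter] at hp hq
  rw [Nat.coprime_primes (Nat.prime_of_mem_primeFactors hp.1) (Nat.prime_of_mem_primeFactors hq.1)]
  rintro rfl
  exact hq.2 hp.2

theorem rough_of_dvd (y : ℝ) {m p : ℕ} (hm : 1 ≤ m) (hp : p.Prime) (h : p ∣ m / smp y m) :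
    y < p := by
  rw [smp_div y hm] at h
  unfold smq at h
  obtain ⟨q, hq, hd⟩ := (Prime.dvd_finset_prod_iff hp.prime _).1 h
  rw [Finset.mem_filter] at hq
  have h1 := (Nat.prime_dvd_prime_iff_eq hp (Nat.prime_of_mem_primeFactors hq.1)).1 (hp.dvd_of_dvd_pow hd)
  rw [h1]
  exact not_le.1 hq.2

theorem log_smp (y : ℝ) (m : ℕ) : Real.log (smp y m) =
    ∑ p ∈ m.primeFactors.filter (fun p : ℕ => (p : ℝ) ≤ y), (m.factorization p : ℝ) * Real.log p := by
  unfold smp
  rw [Nat.cast_prod, Real.log_prod]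
  · refine Finset.sum_congr rfl fun p _ => ?_
    rw [Nat.cast_pow, Real.log_pow]
  · intro p hp
    rw [Nat.cast_pow]
    have := (Nat.prime_of_mem_primeFactors (Finset.mem_filter.1 hp).1).pos
    positivity

private theorem prod_list_ge {Y : ℝ} (hY : 0 ≤ Y) : ∀ l : List ℕ, (∀ p ∈ l, Y ≤ (p : ℝ)) → Y ^ l.length ≤ (l.prod : ℝ)
  | [], _ => by simp
  | p :: l, h => by
    have h1 := prod_list_ge hY l fun q hq => h q (List.mem_cons_of_mem p hq)
    have h2 := h p List.mem_cons_self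
    rw [List.length_cons, List.prod_cons, pow_succ, Nat.cast_mul, mul_comm]
    exact mul_le_mul h2 h1 (pow_nonneg hY _) (Nat.cast_nonneg _)

theorem tau_rough {d : ℝ} (hd : 0 < d) {m : ℕ} (hm : 1 ≤ m) :
    tau (m / smp ((m : ℝ) ^ d) m) ≤ 2 ^ (1 / d) := by
  set b := m / smp ((m : ℝ) ^ d) m with hb
  have hbpos : 1 ≤ b := Nat.div_pos (Nat.le_of_dvd (by omega) (smp_dvd _ hm)) (smp_pos _ _)
  have hbm : b ≤ m := Nat.div_le_self _ _
  have hm1 : (1 : ℝ) ≤ m := by exact_mod_cast hm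
  have hY : (0 : ℝ) ≤ (m : ℝ) ^ d := by positivity
  have h1 : ((m : ℝ) ^ d) ^ b.primeFactorsList.length ≤ (b : ℝ) := by
    have h2 := prod_list_ge hY b.primeFactorsList fun p hp => by
      have h3 := Nat.prime_of_mem_primeFactorsList hp
      exact (rough_of_dvd ((m : ℝ) ^ d) hm h3 (Nat.dvd_of_mem_primeFactorsList hp)).le
    rwa [Nat.prod_primeFactorsList (by omega)] at h2
  rcases Nat.lt_or_ge 1 m with h2 | h2
  · have h3 : (1 : ℝ) < m := by exact_mod_cast h2
    have h4 : (m : ℝ) ^ (d * b.primeFactorsList.length) ≤ (m : ℝ) ^ (1 : ℝ) := by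
      rw [Real.rpow_mul (by linarith), Real.rpow_natCast, Real.rpow_one]
      exact h1.trans (by exact_mod_cast hbm)
    have h5 : d * b.primeFactorsList.length ≤ 1 := (Real.rpow_le_rpow_left_iff h3).1 h4
    have h6 : (b.primeFactorsList.length : ℝ) ≤ 1 / d := by
      rw [le_div_iff₀ hd]
      linarith
    refine (tau_le_two_pow hbpos).trans ?_
    rw [← Real.rpow_natCast]
    exact Real.rpow_le_rpow_of_exponent_le (by norm_num) h6
  · have h3 : b = 1 := by omega
    rw [h3]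
    have h4 : tau 1 = 1 := by
      unfold tau
      simp
    rw [h4]
    exact Real.one_le_rpow (by norm_num) (by positivity)

end Pool.MPb9430d.NT
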