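import Pool.Agent.Lib.MP_b9430d_co.NT.Defs
import Pool.Agent.Lib.MP_b9430d_co.NT.SmP

/-!
# Atp: the two kinds of atypical numbers

`m ∉ Typ d`, `1 ≤ m ≤ (2X)²`, so `smp (m^d) m > m^(2/10^6)` and the primes `l ≤ m^d` satisfy `l ≤ (2X)^(2d)`, `l ≤ z = ⌊(2X)^(2d)⌋₊`. If some such prime has
`l^{v_l(m)} > Q₁`: take the least `a` with `l^a > Q₁` (`a ≤ v_l(m)`, `a ≥ 1` as `Q₁ ≥ 1`): `l^a ∣ m`, `Q₁ < l^a = l · l^(a-1) ≤ z Q₁`: first alternative. Otherwise for all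
primes `l ≤ m^d`, `l ∣ m`, the exponents `a = 1..v_l(m)` satisfy `l^a ∣ m`, `l^a ≤ Q₁`, hence `a ≤ M` (`2^a ≤ l^a ≤ Q₁ < 2^(M+1)`), so
`v_l(m) log l = Σ_{a ≤ M, l^a ∣ m, l^a ≤ Q₁} log l` and by `log_smp` the sum over the primes is `log (smp (m^d) m) > (2/10^6) log m` (extend to all primes `l ≤ z`: terms `≥ 0`).
-/

set_option autoImplicit false

open MeasureTheory Complex Set Real Filter Topology
open scoped ENNReal

namespace Pool.MPb9430d.NT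

open Pool.MPb9430d Pool.MPb9430d.Rough Pool.MPb9430d.Frac Pool.MPb9430d.Mom
open Pool.Agent.Lib.DG (rp nq)

theorem atyp {d X Q₁ : ℝ} (hd : 0 < d) (hX : 1 ≤ X) (hQ : 1 ≤ Q₁) {M : ℕ} (hM : Q₁ < 2 ^ (M + 1))
    {m : ℕ} (hm : 1 ≤ m) (hmX : (m : ℝ) ≤ (2 * X) ^ 2) (hT : m ∉ Typ d) :
    (∃ l ∈ (Finset.Icc 1 ⌊(2 * X) ^ (2 * d)⌋₊).filter Nat.Prime, ∃ a : ℕ,
      Q₁ < (l : ℝ) ^ a ∧ (l : ℝ) ^ a ≤ (2 * X) ^ (2 * d) * Q₁ ∧ l ^ a ∣ m) ∨
    2 / 10 ^ 6 * Real.log m < ∑ l ∈ (Finset.Icc 1 ⌊(2 * X) ^ (2 * d)⌋₊).filter Nat.Prime,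
      ∑ a ∈ (Finset.Icc 1 M).filter (fun a => l ^ a ∣ m ∧ (l : ℝ) ^ a ≤ Q₁), Real.log l := by
  classical
  have hm0 : (0 : ℝ) < m := by exact_mod_cast hm
  have hmd : (m : ℝ) ^ d ≤ (2 * X) ^ (2 * d) := by
    have h1 : ((2 * X) ^ 2 : ℝ) ^ d = (2 * X) ^ (2 * d) := by
      rw [← Real.rpow_natCast, ← Real.rpow_mul (by linarith)]
      norm_num
    rw [← h1]
    exact Real.rpow_le_rpow hm0.le hmX hd.le
  have hsm : (m : ℝ) ^ (2 / 10 ^ 6 : ℝ) < (smp ((m : ℝ) ^ d) m : ℝ) := by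
    by_contra h
    exact hT ⟨hm, not_lt.1 h⟩
  -- the primes below `m ^ d` are in the range
  have hmem : ∀ p ∈ m.primeFactors.filter (fun p : ℕ => (p : ℝ) ≤ (m : ℝ) ^ d),
      p ∈ (Finset.Icc 1 ⌊(2 * X) ^ (2 * d)⌋₊).filter Nat.Prime := by
    intro p hp
    obtain ⟨h1, h2⟩ := Finset.mem_filter.1 hp
    have hpp := Nat.prime_of_mem_primeFactors h1
    refine Finset.mem_filter.2 ⟨Finset.mem_Icc.2 ⟨hpp.one_lt.le, ?_⟩, hpp⟩
    exact Nat.le_floor (h2.trans hmd)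
  by_cases hcase : ∃ p ∈ m.primeFactors.filter (fun p : ℕ => (p : ℝ) ≤ (m : ℝ) ^ d),
      Q₁ < (p : ℝ) ^ m.factorization p
  · left
    obtain ⟨p, hp, hpQ⟩ := hcase
    have hpp := Nat.prime_of_mem_primeFactors (Finset.mem_filter.1 hp).1
    refine ⟨p, hmem p hp, ?_⟩
    have hex : ∃ a : ℕ, Q₁ < (p : ℝ) ^ a := ⟨_, hpQ⟩
    refine ⟨Nat.find hex, Nat.find_spec hex, ?_, ?_⟩
    · have h0 : Nat.find hex ≠ 0 := by
        intro h0
        have h1 := Nat.find_spec hex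
        rw [h0, pow_zero] at h1
        linarith
      obtain ⟨b, hb⟩ := Nat.exists_eq_succ_of_ne_zero h0
      have h1 : ¬ Q₁ < (p : ℝ) ^ b := Nat.find_min hex (by omega)
      rw [hb, Nat.succ_eq_add_one, pow_succ, mul_comm]
      have h2 : (p : ℝ) ≤ (2 * X) ^ (2 * d) := (Finset.mem_filter.1 hp).2.trans hmd
      have h3 : (0 : ℝ) ≤ (p : ℝ) := Nat.cast_nonneg p
      exact mul_le_mul h2 (not_lt.1 h1) (by positivity) (h3.trans h2)
    · exact (pow_dvd_pow p (Nat.find_min' hex hpQ)).trans (Nat.ordProj_dvd m p)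
  · right
    push Not at hcase
    have hlog : 2 / 10 ^ 6 * Real.log m < Real.log (smp ((m : ℝ) ^ d) m : ℝ) := by
      rw [← Real.log_rpow hm0]
      exact Real.log_lt_log (Real.rpow_pos_of_pos hm0 _) hsm
    refine hlog.trans_le ?_
    rw [log_smp]
    have hle : ∑ p ∈ m.primeFactors.filter (fun p : ℕ => (p : ℝ) ≤ (m : ℝ) ^ d),
        (m.factorization p : ℝ) * Real.log p ≤
        ∑ p ∈ m.primeFactors.filter (fun p : ℕ => (p : ℝ) ≤ (m : ℝ) ^ d),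
        ∑ a ∈ (Finset.Icc 1 M).filter (fun a => p ^ a ∣ m ∧ (p : ℝ) ^ a ≤ Q₁), Real.log p := by
      refine Finset.sum_le_sum (fun p hp => ?_)
      have hpp := Nat.prime_of_mem_primeFactors (Finset.mem_filter.1 hp).1
      have hv := hcase p hp
      have hlp : 0 ≤ Real.log p := Real.log_natCast_nonneg p
      have hp1 : (1 : ℝ) ≤ (p : ℝ) := by exact_mod_cast hpp.one_lt.le
      have hp2 : (2 : ℝ) ≤ (p : ℝ) := by exact_mod_cast hpp.two_le
      have hvM : m.factorization p ≤ M := by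
        by_contra hlt
        have h1 : (2 : ℝ) ^ (M + 1) ≤ (p : ℝ) ^ m.factorization p :=
          calc (2 : ℝ) ^ (M + 1) ≤ (2 : ℝ) ^ m.factorization p :=
                pow_le_pow_right₀ (by norm_num) (by omega)
            _ ≤ (p : ℝ) ^ m.factorization p := pow_le_pow_left₀ (by norm_num) hp2 _
        linarith
      have hsub : Finset.Icc 1 (m.factorization p) ⊆
          (Finset.Icc 1 M).filter (fun a => p ^ a ∣ m ∧ (p : ℝ) ^ a ≤ Q₁) := by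
        intro a ha
        obtain ⟨h1, h2⟩ := Finset.mem_Icc.1 ha
        refine Finset.mem_filter.2 ⟨Finset.mem_Icc.2 ⟨h1, h2.trans hvM⟩, ?_, ?_⟩
        · exact (pow_dvd_pow p h2).trans (Nat.ordProj_dvd m p)
        · exact (pow_le_pow_right₀ hp1 h2).trans hv
      calc (m.factorization p : ℝ) * Real.log p
          = ∑ a ∈ Finset.Icc 1 (m.factorization p), Real.log p := by
            rw [Finset.sum_const, Nat.card_Icc, nsmul_eq_mul, Nat.add_sub_cancel]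
        _ ≤ _ := Finset.sum_le_sum_of_subset_of_nonneg hsub (fun _ _ _ => hlp)
    refine hle.trans (Finset.sum_le_sum_of_subset_of_nonneg hmem ?_)
    intro l _ _
    exact Finset.sum_nonneg (fun _ _ => Real.log_natCast_nonneg l)

end Pool.MPb9430d.NT
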