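import Pool.Agent.Lib.MP_b9430d_co.NT.Defs

/-!
# SelG: the sieve weights

`G(z) Σ_{j ≤ z} 1/j² ≥ Σ_{n ≤ z} 1/n` because every `n` is `j² k` with `k` squarefree (`Nat.sq_mul_squarefree`), and
`Σ_{j ≤ z} 1/j² ≤ 2`, `Σ_{n ≤ z} 1/n ≥ log (z + 1)` (`Real.log_add_one_le_harmonic` or `log_add_one_le_harmonic`).
`lam_one`: the two sums are equal. `lam_big`: no `k ≤ z` is a multiple of `e > z`.
-/

set_option autoImplicit false

open MeasureTheory Complex Set Real Filter Topology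
open scoped ENNReal

namespace Pool.MPb9430d.NT

open Pool.MPb9430d Pool.MPb9430d.Rough Pool.MPb9430d.Frac Pool.MPb9430d.Mom
open Pool.Agent.Lib.DG (rp nq)

theorem gg_pos {z : ℕ} (hz : 1 ≤ z) : 0 < GG z := by
  unfold GG
  apply Finset.sum_pos
  · intro k hk
    have : 1 ≤ k := (Finset.mem_Icc.mp (Finset.mem_filter.mp hk).1).1
    positivity
  · exact ⟨1, Finset.mem_filter.mpr ⟨Finset.mem_Icc.mpr ⟨le_rfl, hz⟩, squarefree_one⟩⟩

private theorem SelG_sq (z : ℕ) (hz : 1 ≤ z) :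
    ∑ j ∈ Finset.Icc 1 z, 1 / (j : ℝ) ^ 2 ≤ 2 - 1 / (z : ℝ) := by
  induction z, hz using Nat.le_induction with
  | base => norm_num
  | succ z hz ih =>
    rw [Finset.sum_Icc_succ_top (by omega)]
    have h1 : (1 : ℝ) ≤ z := by exact_mod_cast hz
    have h2 : 1 / (((z + 1 : ℕ) : ℝ)) ^ 2 ≤ 1 / (z : ℝ) - 1 / (((z + 1 : ℕ) : ℝ)) := by
      push_cast
      rw [div_sub_div _ _ (by positivity) (by positivity),
        div_le_div_iff₀ (by positivity) (by positivity)]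
      nlinarith
    linarith

private theorem SelG_mul (z : ℕ) : ∑ n ∈ Finset.Icc 1 z, 1 / (n : ℝ) ≤
    (∑ j ∈ Finset.Icc 1 z, 1 / (j : ℝ) ^ 2) * GG z := by
  classical
  have hex : ∀ n : ℕ, ∃ p : ℕ × ℕ, p.1 ^ 2 * p.2 = n ∧ Squarefree p.2 := by
    intro n
    obtain ⟨a, b, h1, h2⟩ := Nat.sq_mul_squarefree n
    exact ⟨(b, a), h1, h2⟩
  choose φ h1 h2 using hex
  have hinj : ∀ a ∈ Finset.Icc 1 z, ∀ b ∈ Finset.Icc 1 z, φ a = φ b → a = b := by
    intro a _ b _ hab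
    rw [← h1 a, ← h1 b, hab]
  have h3 : ∑ n ∈ Finset.Icc 1 z, 1 / (n : ℝ) =
      ∑ p ∈ (Finset.Icc 1 z).image φ, 1 / (p.1 : ℝ) ^ 2 * (1 / (p.2 : ℝ)) := by
    rw [Finset.sum_image hinj]
    apply Finset.sum_congr rfl
    intro n _
    have h4 : (n : ℝ) = ((φ n).1 : ℝ) ^ 2 * ((φ n).2 : ℝ) := by
      exact_mod_cast (h1 n).symm
    rw [h4, one_div_mul_one_div]
  rw [h3]
  unfold GG
  rw [Finset.sum_mul_sum, ← Finset.sum_product']
  apply Finset.sum_le_sum_of_subset_of_nonneg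
  · intro p hp
    obtain ⟨n, hn, rfl⟩ := Finset.mem_image.mp hp
    have hn' := Finset.mem_Icc.mp hn
    have h4 := h1 n
    have h5 : (φ n).1 ≠ 0 := by
      intro h
      rw [h] at h4
      simp at h4
      omega
    have h6 : (φ n).2 ≠ 0 := by
      intro h
      rw [h] at h4
      simp at h4
      omega
    have h7 : (φ n).1 ≤ n := by
      calc (φ n).1 ≤ (φ n).1 ^ 2 := Nat.le_self_pow (by norm_num) _
        _ ≤ (φ n).1 ^ 2 * (φ n).2 := Nat.le_mul_of_pos_right _ (Nat.pos_of_ne_zero h6)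
        _ = n := h4
    have h8 : (φ n).2 ≤ n := by
      calc (φ n).2 ≤ (φ n).1 ^ 2 * (φ n).2 := Nat.le_mul_of_pos_left _ (by positivity)
        _ = n := h4
    rw [Finset.mem_product, Finset.mem_filter, Finset.mem_Icc, Finset.mem_Icc]
    exact ⟨⟨Nat.one_le_iff_ne_zero.mpr h5, h7.trans hn'.2⟩,
      ⟨Nat.one_le_iff_ne_zero.mpr h6, h8.trans hn'.2⟩, h2 n⟩
  · intro p _ _
    positivity

theorem gg_ge {z : ℕ} (hz : 1 ≤ z) : Real.log z / 2 ≤ GG z := by
  have h1 := SelG_mul z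
  have h2 := SelG_sq z hz
  have h3 := gg_pos hz
  have hz' : (1 : ℝ) ≤ z := by exact_mod_cast hz
  have h4 : Real.log z ≤ ∑ n ∈ Finset.Icc 1 z, 1 / (n : ℝ) := by
    have h5 := log_add_one_le_harmonic z
    rw [harmonic_eq_sum_Icc] at h5
    push_cast at h5
    have h6 : Real.log z ≤ Real.log ((z : ℝ) + 1) := Real.log_le_log (by linarith) (by linarith)
    simp only [one_div]
    linarith
  have h5 : 0 < 1 / (z : ℝ) := by positivity
  nlinarith

theorem lam_one {z : ℕ} (hz : 1 ≤ z) : lam z 1 = 1 := by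
  unfold lam
  have h := gg_pos hz
  have h1 : ∑ k ∈ (Finset.Icc 1 z).filter (fun k => Squarefree k ∧ 1 ∣ k), 1 / (k : ℝ) = GG z := by
    unfold GG
    apply Finset.sum_congr _ (fun _ _ => rfl)
    ext k
    simp
  rw [h1, ArithmeticFunction.moebius_apply_one]
  field_simp
  simp

theorem lam_big {z e : ℕ} (he : z < e) : lam z e = 0 := by
  unfold lam
  have h1 : (Finset.Icc 1 z).filter (fun k => Squarefree k ∧ e ∣ k) = ∅ := by
    rw [Finset.filter_eq_empty_iff]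
    rintro k hk ⟨-, h2⟩
    have h3 := Finset.mem_Icc.mp hk
    have := Nat.le_of_dvd (by omega) h2
    omega
  rw [h1]
  simp

end Pool.MPb9430d.NT
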