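import Pool.Agent.Lib.MP_b9430d_co.NT.Defs
import Pool.Agent.Lib.MP_b9430d_co.NT.SelG

/-!
# NuS: the sieve majorant and its Fourier coefficients

All triples `(a, e, f)` have `1 ≤ a [e,f] ≤ A z² ≤ Q`, so the sum over `q` of the indicator `a [e,f] = q` with a condition on `q` is the condition for
`q = a [e,f]`. (1) `a [e,f] ∣ m ↔ a ∣ m ∧ [e,f] ∣ m / a ↔ a ∣ m ∧ e ∣ m/a ∧ f ∣ m/a` (`Int`; `lcm` divides iff both divide), and the double sum over `e, f`
is a square. (2) `q ∣ a L ↔ q / gcd q a ∣ L` (`Nat.Coprime.dvd_of_dvd_mul_left`), `1 / (a L) = (1/a)(1/L)`.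
-/

set_option autoImplicit false

open MeasureTheory Complex Set Real Filter Topology
open scoped ENNReal

namespace Pool.MPb9430d.NT

open Pool.MPb9430d Pool.MPb9430d.Rough Pool.MPb9430d.Frac Pool.MPb9430d.Mom
open Pool.Agent.Lib.DG (rp nq)

theorem nus_gen (C : ℝ) {A z Q : ℕ} (hQ : A * z ^ 2 ≤ Q) (P : ℕ → Prop) [DecidablePred P]
    (w : ℕ → ℝ) :
    ∑ q ∈ (Finset.Icc 1 Q).filter P, gS C A z q * w q =
      C * ∑ a ∈ Finset.Icc 1 A, ∑ e ∈ Finset.Icc 1 z, ∑ f ∈ Finset.Icc 1 z,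
        if P (a * Nat.lcm e f) then
          (rp a : ℝ) * (lam z e * lam z f) * w (a * Nat.lcm e f) else 0 := by
  have h1 : ∀ q : ℕ, gS C A z q * w q = C * ∑ a ∈ Finset.Icc 1 A, ∑ e ∈ Finset.Icc 1 z,
      ∑ f ∈ Finset.Icc 1 z, (if a * Nat.lcm e f = q then
        (rp a : ℝ) * (lam z e * lam z f) * w (a * Nat.lcm e f) else 0) := by
    intro q
    unfold gS
    rw [mul_assoc, Finset.sum_mul]
    congr 1
    refine Finset.sum_congr rfl fun a _ => ?_
    rw [Finset.sum_mul]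
    refine Finset.sum_congr rfl fun e _ => ?_
    rw [Finset.sum_mul]
    refine Finset.sum_congr rfl fun f _ => ?_
    rw [ite_mul, zero_mul]
    split_ifs with h
    · rw [h]
    · rfl
  rw [Finset.sum_congr rfl fun q _ => h1 q, ← Finset.mul_sum]
  congr 1
  rw [Finset.sum_comm]
  refine Finset.sum_congr rfl fun a ha => ?_
  rw [Finset.sum_comm]
  refine Finset.sum_congr rfl fun e he => ?_
  rw [Finset.sum_comm]
  refine Finset.sum_congr rfl fun f hf => ?_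
  rw [Finset.sum_ite_eq]
  rw [Finset.mem_Icc] at ha he hf
  have hl : 1 ≤ Nat.lcm e f := Nat.lcm_pos (by omega) (by omega)
  have hl2 : Nat.lcm e f ≤ z ^ 2 := by
    calc Nat.lcm e f ≤ e * f := Nat.le_of_dvd (Nat.mul_pos (by omega) (by omega))
          (Nat.lcm_dvd_mul e f)
      _ ≤ z * z := Nat.mul_le_mul he.2 hf.2
      _ = z ^ 2 := by ring
  have h2 : 1 ≤ a * Nat.lcm e f := Nat.mul_pos ha.1 hl
  have h3 : a * Nat.lcm e f ≤ Q := (Nat.mul_le_mul ha.2 hl2).trans hQ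
  have h4 : a * Nat.lcm e f ∈ (Finset.Icc 1 Q).filter P ↔ P (a * Nat.lcm e f) := by
    rw [Finset.mem_filter, Finset.mem_Icc]
    exact ⟨fun h => h.2, fun h => ⟨⟨h2, h3⟩, h⟩⟩
  simp only [h4]

theorem nu_gS (C : ℝ) {A z Q : ℕ} (hQ : A * z ^ 2 ≤ Q) (m : ℤ) :
    nu (gS C A z) Q m = C * ∑ a ∈ (Finset.Icc 1 A).filter (fun a : ℕ => (a : ℤ) ∣ m),
      (rp a : ℝ) * (∑ e ∈ (Finset.Icc 1 z).filter (fun e : ℕ => (e : ℤ) ∣ m / a), lam z e) ^ 2 := by
  have h := nus_gen C hQ (fun q : ℕ => (q : ℤ) ∣ m) (fun _ => 1)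
  simp only [mul_one] at h
  unfold nu
  rw [h]
  congr 1
  rw [Finset.sum_filter]
  refine Finset.sum_congr rfl fun a ha => ?_
  rw [Finset.mem_Icc] at ha
  have ha0 : (a : ℤ) ≠ 0 := by exact_mod_cast (by omega : a ≠ 0)
  by_cases hm : (a : ℤ) ∣ m
  · rw [if_pos hm]
    obtain ⟨k, rfl⟩ := hm
    rw [Int.mul_ediv_cancel_left _ ha0]
    have hd : ∀ e f : ℕ, (((a * Nat.lcm e f : ℕ) : ℤ) ∣ (a : ℤ) * k) ↔
        ((e : ℤ) ∣ k ∧ (f : ℤ) ∣ k) := by
      intro e f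
      rw [Nat.cast_mul, Int.mul_dvd_mul_iff_left ha0, Int.natCast_dvd, Int.natCast_dvd,
        Int.natCast_dvd, Nat.lcm_dvd_iff]
    simp only [hd]
    rw [sq, Finset.sum_filter, Finset.sum_mul_sum, Finset.mul_sum]
    refine Finset.sum_congr rfl fun e _ => ?_
    rw [Finset.mul_sum]
    refine Finset.sum_congr rfl fun f _ => ?_
    by_cases h1 : (e : ℤ) ∣ k <;> by_cases h2 : (f : ℤ) ∣ k <;> simp [h1, h2]
  · rw [if_neg hm]
    refine Finset.sum_eq_zero fun e _ => Finset.sum_eq_zero fun f _ => ?_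
    rw [if_neg]
    intro h2
    apply hm
    rw [Nat.cast_mul] at h2
    exact dvd_of_mul_right_dvd h2

theorem nus_dvd {q a L : ℕ} (hq : 1 ≤ q) : q ∣ a * L ↔ q / Nat.gcd q a ∣ L := by
  have hg : 0 < Nat.gcd q a := Nat.gcd_pos_of_pos_left _ hq
  obtain ⟨q', a', h1, hq', ha'⟩ : ∃ q' a' : ℕ, Nat.Coprime q' a' ∧ q = Nat.gcd q a * q' ∧
      a = Nat.gcd q a * a' := by
    obtain ⟨q', a', h1, h2, h3⟩ := Nat.exists_coprime q a
    exact ⟨q', a', h1, by rw [mul_comm]; exact h2, by rw [mul_comm]; exact h3⟩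
  have e1 : q / Nat.gcd q a = q' := by
    conv_lhs => rw [hq']
    have : Nat.gcd (Nat.gcd q a * q') a = Nat.gcd q a := by rw [← hq']
    rw [this, Nat.mul_div_cancel_left _ hg]
  rw [e1]
  constructor
  · intro h
    rw [hq', ha', mul_assoc] at h
    have h2 : Nat.gcd q a * q' ∣ Nat.gcd q a * (a' * L) := by
      have h3 := h
      rw [← ha'] at h3
      rw [← hq'] at h3
      rw [← hq', ← mul_assoc, ← ha']
      exact (by
        rw [hq', ha', mul_assoc]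
        exact h)
    have h3 := Nat.dvd_of_mul_dvd_mul_left hg h2
    exact h1.dvd_of_dvd_mul_left h3
  · intro h
    have h2 : Nat.gcd q a * q' ∣ Nat.gcd q a * (a' * L) :=
      Nat.mul_dvd_mul_left _ (h.mul_left a')
    rw [← hq', ← mul_assoc, ← ha'] at h2
    exact h2

theorem cf_gS (C : ℝ) {A z Q q : ℕ} (hQ : A * z ^ 2 ≤ Q) (hq : 1 ≤ q) :
    cf (gS C A z) Q q = C * ∑ a ∈ Finset.Icc 1 A, (rp a : ℝ) / a * WW z (q / Nat.gcd q a) := by
  have h := nus_gen C hQ (fun q' : ℕ => q ∣ q') (fun q' => (q' : ℝ)⁻¹)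
  unfold cf
  simp only [div_eq_mul_inv]
  rw [h]
  congr 1
  refine Finset.sum_congr rfl fun a ha => ?_
  unfold WW
  rw [Finset.mul_sum]
  refine Finset.sum_congr rfl fun e _ => ?_
  rw [Finset.mul_sum]
  refine Finset.sum_congr rfl fun f _ => ?_
  simp only [nus_dvd hq]
  split_ifs
  · push_cast
    rw [mul_inv, div_eq_mul_inv]
    ring
  · simp

end Pool.MPb9430d.NT
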