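import Pool.Agent.Lib.MP_b9430d_co.NT.Defs
import Pool.Agent.Lib.MP_b9430d_co.NT.TauL

/-!
# GauD: the Gaussian integers whose norm is divisible by `g`

`D` = the pairs `δ` with `g ∣ nq δ` and `nq δ ∣ g²` (in the box `|δ.i| ≤ g²`). `card D = Σ_{k ∣ g², g ∣ k} rp k ≤ Σ_{k ∣ g²} 4 τ(k) ≤ 4 τ(g²)² ≤ 4 τ(g)⁴`
(`rep_le`, `Nat.card_divisors`: `rp k ≤ 4 τ(k)`, as in Frac/RepB.lean; `tau_dvd`, `tau_mul_le`). Covering: work in `GaussianInt` (Euclidean domain,
`repG`/`repP` of REP.lean). `P = repG p`, `δ = gcd P g` (`EuclideanDomain.gcd` or `GCDMonoid`), `P = δ P'`, `g = δ g'`, `IsCoprime P' g'`. `g ∣ P P̄` (norm), so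
`δ g' ∣ δ P' P̄`, `g' ∣ P' P̄`, `g' ∣ P̄`; with `g' ∣ g`: conjugate: `ḡ' ∣ P` and `ḡ' ∣ g` (`g` is real), so `ḡ' ∣ δ`. Norms: `N(g') ∣ N(δ)`, and
`g² = N(δ) N(g')` divides `N(δ)²`, so `g ∣ N(δ)`; `N(δ) ∣ g²`. (`g ≥ 1`, `δ ≠ 0` since `δ ∣ g`.) For `p = 0` this works too (`δ = g`, `w = 0`).
`g ≤ nq δ ≤ g²` from the divisibilities and `nq δ ≠ 0`.
-/

set_option autoImplicit false

open MeasureTheory Complex Set Real Filter Topology
open scoped ENNReal

namespace Pool.MPb9430d.NT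

open Pool.MPb9430d Pool.MPb9430d.Rough Pool.MPb9430d.Frac Pool.MPb9430d.Mom
open Pool.Agent.Lib.DG (rp nq)

/-- the gcd with `g` of a Gaussian integer whose norm is divisible by `g` -/
private theorem GauD_gcd {g : ℕ} (hg : 1 ≤ g) (P : GaussianInt) (hP : (g : ℤ) ∣ P.norm) :
    ∃ d w : GaussianInt, P = d * w ∧ (g : ℤ) ∣ d.norm ∧ d.norm ∣ (g : ℤ) ^ 2 := by
  set G : GaussianInt := ((g : ℤ) : GaussianInt) with hG
  have hG0 : G ≠ 0 := by
    rw [hG]
    have h1 : (g : ℤ) ≠ 0 := by omega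
    exact_mod_cast h1
  have hGs : star G = G := by
    rw [hG]
    ext
    · simp
    · simp
  have hGn : G.norm = (g : ℤ) ^ 2 := by
    rw [hG, Zsqrtd.norm_intCast, pow_two]
  obtain ⟨P', hP'⟩ := EuclideanDomain.gcd_dvd_left P G
  obtain ⟨G', hG'⟩ := EuclideanDomain.gcd_dvd_right P G
  have hab := EuclideanDomain.gcd_eq_gcd_ab P G
  set d := EuclideanDomain.gcd P G with hd
  have hd0 : d ≠ 0 := by
    intro h
    rw [h, zero_mul] at hG'
    exact hG0 hG'
  have hcop : IsCoprime P' G' := by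
    refine ⟨EuclideanDomain.gcdA P G, EuclideanDomain.gcdB P G, ?_⟩
    apply mul_left_cancel₀ hd0
    rw [mul_one]
    calc d * (EuclideanDomain.gcdA P G * P' + EuclideanDomain.gcdB P G * G')
        = (d * P') * EuclideanDomain.gcdA P G + (d * G') * EuclideanDomain.gcdB P G := by ring
      _ = P * EuclideanDomain.gcdA P G + G * EuclideanDomain.gcdB P G := by rw [← hP', ← hG']
      _ = d := hab.symm
  -- `g ∣ P star P`
  have h1 : G ∣ P * star P := by
    obtain ⟨k, hk⟩ := hP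
    refine ⟨((k : ℤ) : GaussianInt), ?_⟩
    rw [← Zsqrtd.norm_eq_mul_conj, hk, hG]
    push_cast
    rfl
  have h2 : G' ∣ P' * star P := by
    obtain ⟨k, hk⟩ := h1
    refine ⟨k, mul_left_cancel₀ hd0 ?_⟩
    calc d * (P' * star P) = (d * P') * star P := by ring
      _ = P * star P := by rw [← hP']
      _ = G * k := hk
      _ = (d * G') * k := by rw [← hG']
      _ = d * (G' * k) := by ring
  have h3 : G' ∣ star P := hcop.symm.dvd_of_dvd_mul_left h2
  have h4 : star G' ∣ P := by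
    obtain ⟨k, hk⟩ := h3
    refine ⟨star k, ?_⟩
    have := congrArg star hk
    rwa [star_star, star_mul'] at this
  have h5 : star G' ∣ G := by
    refine ⟨star d, ?_⟩
    have := congrArg star hG'
    rw [hGs, star_mul'] at this
    rw [this, mul_comm]
  have h6 : star G' ∣ d := EuclideanDomain.dvd_gcd h4 h5
  have h7 : G'.norm ∣ d.norm := by
    obtain ⟨k, hk⟩ := h6
    refine ⟨k.norm, ?_⟩
    rw [hk, Zsqrtd.norm_mul, Zsqrtd.norm_conj]
  have h8 : (g : ℤ) ^ 2 = d.norm * G'.norm := by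
    rw [← hGn, ← Zsqrtd.norm_mul, ← hG']
  refine ⟨d, P', hP', ?_, ?_⟩
  · have h9 : (g : ℤ) ^ 2 ∣ d.norm ^ 2 := by
      rw [h8, pow_two]
      exact mul_dvd_mul_left _ h7
    exact (Int.pow_dvd_pow_iff (by norm_num)).1 h9
  · rw [h8]
    exact dvd_mul_right _ _

private theorem GauD_lat (z : GaussianInt) : lat (Pool.Agent.Lib.DG.repP z) = GaussianInt.toComplex z := by
  rw [GaussianInt.toComplex_def]
  rfl

theorem rp_le_tau {m : ℕ} (hm : 1 ≤ m) : (rp m : ℝ) ≤ 4 * tau m := by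
  have hm0 : m ≠ 0 := by omega
  have h2 := Pool.Agent.Lib.DG.rep_le m hm
  have h3 : ∏ p ∈ m.primeFactors.filter (fun p => p % 4 = 1), (m.factorization p + 1) ≤ m.divisors.card := by
    rw [Nat.card_divisors hm0]
    exact Finset.prod_le_prod_of_subset_of_one_le' (Finset.filter_subset _ _) (fun _ _ _ => Nat.le_add_left _ _)
  have h5 : rp m ≤ 4 * m.divisors.card := h2.trans (Nat.mul_le_mul_left _ h3)
  unfold tau
  exact_mod_cast h5

theorem gau_div {g : ℕ} (hg : 1 ≤ g) : ∃ D : Finset (ℤ × ℤ), (D.card : ℝ) ≤ 4 * tau g ^ 4 ∧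
    (∀ δ ∈ D, g ≤ nq δ ∧ nq δ ≤ g ^ 2) ∧
    ∀ p : ℤ × ℤ, g ∣ nq p → ∃ δ ∈ D, ∃ w : ℤ × ℤ, lat p = lat δ * lat w := by
  classical
  have hg2 : 1 ≤ g ^ 2 := Nat.one_le_pow _ _ hg
  refine ⟨((g ^ 2).divisors.filter (fun k => g ∣ k)).biUnion (fun k =>
    (Finset.Icc (-(k : ℤ)) k ×ˢ Finset.Icc (-(k : ℤ)) k).filter (fun z => nq z = k)), ?_, ?_, ?_⟩
  · have h1 : ∀ k ∈ (g ^ 2).divisors.filter (fun k => g ∣ k), (rp k : ℝ) ≤ 4 * tau (g ^ 2) := by
      intro k hk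
      rw [Finset.mem_filter, Nat.mem_divisors] at hk
      have hk1 : 1 ≤ k := Nat.pos_of_ne_zero (by
        rintro rfl
        have := zero_dvd_iff.1 hk.1.1
        omega)
      exact (rp_le_tau hk1).trans (mul_le_mul_of_nonneg_left (tau_dvd hg2 hk.1.1) (by norm_num))
    have h2 : ((((g ^ 2).divisors.filter (fun k => g ∣ k)).biUnion (fun k =>
        (Finset.Icc (-(k : ℤ)) k ×ˢ Finset.Icc (-(k : ℤ)) k).filter (fun z => nq z = k))).card : ℝ) ≤
        ∑ k ∈ (g ^ 2).divisors.filter (fun k => g ∣ k), (rp k : ℝ) := by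
      have := Finset.card_biUnion_le (s := (g ^ 2).divisors.filter (fun k => g ∣ k)) (t := fun k =>
        (Finset.Icc (-(k : ℤ)) k ×ˢ Finset.Icc (-(k : ℤ)) k).filter (fun z => nq z = k))
      exact_mod_cast this
    have h3 : ∑ k ∈ (g ^ 2).divisors.filter (fun k => g ∣ k), (rp k : ℝ) ≤
        tau (g ^ 2) * (4 * tau (g ^ 2)) := by
      refine (Finset.sum_le_card_nsmul _ _ _ h1).trans ?_
      rw [nsmul_eq_mul]
      apply mul_le_mul_of_nonneg_right _ (mul_nonneg (by norm_num) (tau_nonneg _))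
      unfold tau
      exact_mod_cast Finset.card_le_card (Finset.filter_subset _ _)
    have h4 : tau (g ^ 2) ≤ tau g ^ 2 := by
      rw [pow_two, pow_two]
      exact tau_mul_le g g
    have h5 := tau_nonneg (g ^ 2)
    calc ((((g ^ 2).divisors.filter (fun k => g ∣ k)).biUnion (fun k =>
        (Finset.Icc (-(k : ℤ)) k ×ˢ Finset.Icc (-(k : ℤ)) k).filter (fun z => nq z = k))).card : ℝ)
        ≤ tau (g ^ 2) * (4 * tau (g ^ 2)) := h2.trans h3
      _ ≤ tau g ^ 2 * (4 * tau g ^ 2) := by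
          apply mul_le_mul h4 (mul_le_mul_of_nonneg_left h4 (by norm_num)) _ (by positivity)
          positivity
      _ = 4 * tau g ^ 4 := by ring
  · intro δ hδ
    rw [Finset.mem_biUnion] at hδ
    obtain ⟨k, hk, hz⟩ := hδ
    rw [Pool.Agent.Lib.DG.rep_mem] at hz
    rw [Finset.mem_filter, Nat.mem_divisors] at hk
    rw [hz]
    have hk1 : 0 < k := Nat.pos_of_ne_zero (by
      rintro rfl
      have := zero_dvd_iff.1 hk.1.1
      omega)
    exact ⟨Nat.le_of_dvd hk1 hk.2, Nat.le_of_dvd hg2 hk.1.1⟩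
  · intro p hp
    obtain ⟨d, w, h1, h2, h3⟩ := GauD_gcd hg (Pool.Agent.Lib.DG.repG p) (by
      rw [Pool.Agent.Lib.DG.rep_norm]
      exact_mod_cast hp)
    refine ⟨Pool.Agent.Lib.DG.repP d, ?_, Pool.Agent.Lib.DG.repP w, ?_⟩
    · rw [← Pool.Agent.Lib.DG.rep_norm'] at h2 h3
      rw [Finset.mem_biUnion]
      refine ⟨nq (Pool.Agent.Lib.DG.repP d), ?_, ?_⟩
      · rw [Finset.mem_filter, Nat.mem_divisors]
        refine ⟨⟨?_, by omega⟩, ?_⟩
        · exact_mod_cast h3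
        · exact_mod_cast h2
      · rw [Pool.Agent.Lib.DG.rep_mem]
    · rw [GauD_lat, GauD_lat, ← map_mul, ← h1, ← GauD_lat]
      rfl

end Pool.MPb9430d.NT
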