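import Pool.Agent.Lib.MP_b9430d_co.NT.Defs
import Pool.Agent.Lib.MP_b9430d_co.NT.GauD

/-!
# RpS: sums of `rp a / a`

`Σ_{a ≤ A} rp a / a = Σ 1 / nq p` over the `p` with `1 ≤ nq p ≤ A`. Group by `m = max |p.1| |p.2|`, `1 ≤ m ≤ √A`: at most `8 m` points, each
`≤ 1/m²`; `8 Σ_{m ≤ √A} 1/m ≤ 8 (1 + log A)`. With `g`: every `p` with `g ∣ nq p`, `1 ≤ nq p ≤ A`, is `lat p = lat δ lat w`, `δ ∈ D` (`gau_div`),
`nq p = nq δ nq w`, `1 ≤ nq w ≤ A`, `nq δ ≥ g`: the sum is at most `card D · (1/g) Σ_w 1 / nq w`.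
-/

set_option autoImplicit false

open MeasureTheory Complex Set Real Filter Topology
open scoped ENNReal

namespace Pool.MPb9430d.NT

open Pool.MPb9430d Pool.MPb9430d.Rough Pool.MPb9430d.Frac Pool.MPb9430d.Mom
open Pool.Agent.Lib.DG (rp nq)

/-- The points with squared modulus between 1 and `A`. -/
private noncomputable def RpS_S (A : ℕ) : Finset (ℤ × ℤ) :=
  (Finset.Icc (-(A : ℤ)) A ×ˢ Finset.Icc (-(A : ℤ)) A).filter (fun p => 1 ≤ nq p ∧ nq p ≤ A)

private theorem RpS_mem {A : ℕ} {p : ℤ × ℤ} : p ∈ RpS_S A ↔ 1 ≤ nq p ∧ nq p ≤ A := by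
  unfold RpS_S
  rw [Finset.mem_filter]
  refine ⟨fun h => h.2, fun h => ⟨?_, h⟩⟩
  have h' := h.2
  rw [Finset.mem_product, Finset.mem_Icc, Finset.mem_Icc]
  unfold nq at h'
  have h1 : p.1.natAbs ≤ p.1.natAbs ^ 2 := Nat.le_self_pow (by norm_num) _
  have h2 : p.2.natAbs ≤ p.2.natAbs ^ 2 := Nat.le_self_pow (by norm_num) _
  have h3 : p.1.natAbs ≤ A := by omega
  have h4 : p.2.natAbs ≤ A := by omega
  omega

private theorem RpS_rp {A a : ℕ} (ha : 1 ≤ a) (haA : a ≤ A) :
    rp a = ((RpS_S A).filter (fun p => nq p = a)).card := by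
  unfold rp
  congr 1
  ext p
  rw [Finset.mem_filter (s := RpS_S A), RpS_mem]
  rw [Pool.Agent.Lib.DG.rep_mem]
  refine ⟨fun h => ⟨by omega, h⟩, fun h => h.2⟩

private theorem RpS_eq {A : ℕ} (P : ℕ → Prop) [DecidablePred P] :
    ∑ a ∈ (Finset.Icc 1 A).filter P, (rp a : ℝ) / a =
      ∑ p ∈ (RpS_S A).filter (fun p => P (nq p)), 1 / (nq p : ℝ) := by
  rw [← Finset.sum_fiberwise_of_maps_to (s := (RpS_S A).filter (fun p => P (nq p)))
    (t := (Finset.Icc 1 A).filter P) (g := nq)]
  · apply Finset.sum_congr rfl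
    intro a ha
    rw [Finset.mem_filter, Finset.mem_Icc] at ha
    rw [Finset.sum_congr rfl (g := fun _ => 1 / (a : ℝ))]
    · rw [Finset.sum_const, nsmul_eq_mul, RpS_rp ha.1.1 ha.1.2, mul_one_div]
      congr 3
      ext p
      simp only [Finset.mem_filter]
      refine ⟨fun h => ⟨⟨h.1, by rw [h.2]; exact ha.2⟩, h.2⟩, fun h => ⟨h.1.1, h.2⟩⟩
    · intro p hp
      rw [Finset.mem_filter] at hp
      rw [hp.2]
  · intro p hp
    rw [Finset.mem_filter, RpS_mem] at hp
    rw [Finset.mem_filter, Finset.mem_Icc]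
    exact hp

private theorem RpS_bd {A : ℕ} :
    ∑ p ∈ RpS_S A, 1 / (nq p : ℝ) ≤ 8 + 8 * Real.log A := by
  have hmaps : ∀ p ∈ RpS_S A, max p.1.natAbs p.2.natAbs ∈ Finset.Icc 1 A := by
    intro p hp
    rw [RpS_mem] at hp
    unfold nq at hp
    have h1 : p.1.natAbs ≤ p.1.natAbs ^ 2 := Nat.le_self_pow (by norm_num) _
    have h2 : p.2.natAbs ≤ p.2.natAbs ^ 2 := Nat.le_self_pow (by norm_num) _
    rw [Finset.mem_Icc]
    constructor
    · by_contra hcon
      have h3 : p.1.natAbs = 0 := by omega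
      have h4 : p.2.natAbs = 0 := by omega
      rw [h3, h4] at hp
      norm_num at hp
    · omega
  rw [← Finset.sum_fiberwise_of_maps_to (s := RpS_S A) (t := Finset.Icc 1 A)
    (g := fun p => max p.1.natAbs p.2.natAbs) hmaps]
  have hb : ∀ m ∈ Finset.Icc 1 A,
      ∑ p ∈ (RpS_S A).filter (fun p => max p.1.natAbs p.2.natAbs = m), 1 / (nq p : ℝ) ≤
        8 * (m : ℝ)⁻¹ := by
    intro m hm
    rw [Finset.mem_Icc] at hm
    have hm0 : (0 : ℝ) < m := by exact_mod_cast (show 0 < m by omega)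
    calc ∑ p ∈ (RpS_S A).filter (fun p => max p.1.natAbs p.2.natAbs = m), 1 / (nq p : ℝ)
        ≤ ∑ p ∈ (Finset.box m : Finset (ℤ × ℤ)), 1 / (nq p : ℝ) := by
          apply Finset.sum_le_sum_of_subset_of_nonneg
          · intro p hp
            rw [Finset.mem_filter] at hp
            rw [Int.mem_box]
            exact hp.2
          · intro p _ _
            positivity
      _ ≤ ∑ p ∈ (Finset.box m : Finset (ℤ × ℤ)), 1 / (m : ℝ) ^ 2 := by
          apply Finset.sum_le_sum
          intro p hp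
          rw [Int.mem_box] at hp
          apply one_div_le_one_div_of_le (by positivity)
          have h1 : m ^ 2 ≤ nq p := by
            unfold nq
            rcases max_choice p.1.natAbs p.2.natAbs with h | h
            · rw [← hp, h]
              exact Nat.le_add_right _ _
            · rw [← hp, h]
              exact Nat.le_add_left _ _
          exact_mod_cast h1
      _ = 8 * (m : ℝ)⁻¹ := by
          rw [Finset.sum_const, Int.card_box (by omega), nsmul_eq_mul]
          push_cast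
          field_simp
  refine (Finset.sum_le_sum hb).trans ?_
  rw [← Finset.mul_sum]
  have h1 : ∑ m ∈ Finset.Icc 1 A, (m : ℝ)⁻¹ = ((harmonic A : ℚ) : ℝ) := by
    rw [harmonic_eq_sum_Icc]
    push_cast
    rfl
  rw [h1]
  have h2 := harmonic_le_one_add_log A
  linarith

theorem rp_sum {A : ℕ} (hA : 1 ≤ A) :
    ∑ a ∈ Finset.Icc 1 A, (rp a : ℝ) / a ≤ 8 + 8 * Real.log A := by
  have h := RpS_eq (A := A) (fun _ => True)
  rw [Finset.filter_true_of_mem (fun _ _ => trivial)] at h
  rw [Finset.filter_true_of_mem (fun _ _ => trivial)] at h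
  rw [h]
  exact RpS_bd

private theorem RpS_nq {p d w : ℤ × ℤ} (h : lat p = lat d * lat w) : nq p = nq d * nq w := by
  have hn : ∀ q : ℤ × ℤ, (nq q : ℝ) = Complex.normSq (lat q) := by
    intro q
    rw [Complex.normSq_apply, lat_re, lat_im]
    have h1 : ((nq q : ℕ) : ℤ) = q.1 * q.1 + q.2 * q.2 := by
      unfold nq
      push_cast
      rw [sq_abs, sq_abs]
      ring
    have h2 : ((nq q : ℕ) : ℝ) = (((nq q : ℕ) : ℤ) : ℝ) := by push_cast; rfl
    rw [h2, h1]
    push_cast
    ring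
  have h1 : (nq p : ℝ) = (nq d : ℝ) * (nq w : ℝ) := by
    rw [hn, hn, hn, h, Complex.normSq_mul]
  exact_mod_cast h1

theorem rp_sum_dvd {A g : ℕ} (hA : 1 ≤ A) (hg : 1 ≤ g) :
    ∑ a ∈ (Finset.Icc 1 A).filter (fun a => g ∣ a), (rp a : ℝ) / a ≤
      4 * tau g ^ 4 / g * (8 + 8 * Real.log A) := by
  obtain ⟨D, hD, hDn, hc⟩ := gau_div hg
  rw [RpS_eq (A := A) (fun a => g ∣ a)]
  have hg0 : (0 : ℝ) < g := by exact_mod_cast (show 0 < g by omega)
  choose! dl hdl w hw using hc
  have hinj : Set.InjOn (fun p => (dl p, w p))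
      (((RpS_S A).filter (fun p => g ∣ nq p) : Finset (ℤ × ℤ)) : Set (ℤ × ℤ)) := by
    intro p hp q hq hpq
    rw [Finset.mem_coe, Finset.mem_filter] at hp hq
    apply lat_injective
    rw [hw p hp.2, hw q hq.2]
    have h1 : dl p = dl q := congrArg Prod.fst hpq
    have h2 : w p = w q := congrArg Prod.snd hpq
    rw [h1, h2]
  calc ∑ p ∈ (RpS_S A).filter (fun p => g ∣ nq p), 1 / (nq p : ℝ)
      ≤ ∑ p ∈ (RpS_S A).filter (fun p => g ∣ nq p),
          (fun x : (ℤ × ℤ) × (ℤ × ℤ) => 1 / (g : ℝ) * (1 / (nq x.2 : ℝ))) (dl p, w p) := by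
        apply Finset.sum_le_sum
        intro p hp
        rw [Finset.mem_filter, RpS_mem] at hp
        have h1 := RpS_nq (hw p hp.2)
        have h2 := (hDn _ (hdl p hp.2)).1
        rw [h1]
        push_cast
        rw [one_div_mul_one_div]
        have h3 : 0 < nq (w p) := by
          rcases Nat.eq_zero_or_pos (nq (w p)) with h | h
          · rw [h] at h1
            omega
          · exact h
        have h4 : (0 : ℝ) < nq (w p) := by exact_mod_cast h3
        apply one_div_le_one_div_of_le (by positivity)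
        apply mul_le_mul_of_nonneg_right _ h4.le
        exact_mod_cast h2
    _ = ∑ x ∈ ((RpS_S A).filter (fun p => g ∣ nq p)).image (fun p => (dl p, w p)),
          1 / (g : ℝ) * (1 / (nq x.2 : ℝ)) := by
        rw [Finset.sum_image hinj]
    _ ≤ ∑ x ∈ D ×ˢ RpS_S A, 1 / (g : ℝ) * (1 / (nq x.2 : ℝ)) := by
        apply Finset.sum_le_sum_of_subset_of_nonneg
        · intro x hx
          rw [Finset.mem_image] at hx
          obtain ⟨p, hp, rfl⟩ := hx
          rw [Finset.mem_filter, RpS_mem] at hp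
          have h1 := RpS_nq (hw p hp.2)
          have h2 := (hDn _ (hdl p hp.2)).1
          rw [Finset.mem_product, RpS_mem]
          refine ⟨hdl p hp.2, ?_, ?_⟩
          · change 1 ≤ nq (w p)
            rcases Nat.eq_zero_or_pos (nq (w p)) with h | h
            · rw [h] at h1
              omega
            · exact h
          · change nq (w p) ≤ A
            refine le_trans ?_ hp.1.2
            rw [h1]
            exact Nat.le_mul_of_pos_left _ (by omega)
        · intro x _ _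
          positivity
    _ = (D.card : ℝ) * (1 / (g : ℝ) * ∑ p ∈ RpS_S A, 1 / (nq p : ℝ)) := by
        rw [Finset.sum_product]
        simp only
        rw [Finset.sum_const, nsmul_eq_mul, ← Finset.mul_sum]
    _ ≤ (4 * tau g ^ 4) * (1 / (g : ℝ) * (8 + 8 * Real.log A)) := by
        have h1 : 0 ≤ ∑ p ∈ RpS_S A, 1 / (nq p : ℝ) :=
          Finset.sum_nonneg (fun _ _ => by positivity)
        have h2 := RpS_bd (A := A)
        apply mul_le_mul hD _ (by positivity) (by have := tau_nonneg g; positivity)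
        exact mul_le_mul_of_nonneg_left h2 (by positivity)
    _ = 4 * tau g ^ 4 / g * (8 + 8 * Real.log A) := by
        rw [← mul_assoc, mul_one_div]

end Pool.MPb9430d.NT
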