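import Pool.Agent.Lib.MP_b9430d_co.NT.Defs
import Pool.Agent.Lib.MP_b9430d_co.NT.RpS

/-!
# RpG: the sum with the gcd

`gcd q a ≤ Σ_{g ∣ q, g ∣ a} g` (the gcd is one of the terms), exchange the sums, `rp_sum_dvd`, `tau g ≤ tau q` for `g ∣ q` (`tau_dvd`), `τ(q)` values of `g`.
-/

set_option autoImplicit false

open MeasureTheory Complex Set Real Filter Topology
open scoped ENNReal

namespace Pool.MPb9430d.NT

open Pool.MPb9430d Pool.MPb9430d.Rough Pool.MPb9430d.Frac Pool.MPb9430d.Mom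
open Pool.Agent.Lib.DG (rp nq)

private theorem RpG_gcd_le {q a : ℕ} (hq : 1 ≤ q) :
    (Nat.gcd q a : ℝ) ≤ ∑ g ∈ q.divisors, if g ∣ a then (g : ℝ) else 0 := by
  have hmem : Nat.gcd q a ∈ q.divisors :=
    Nat.mem_divisors.2 ⟨Nat.gcd_dvd_left q a, by omega⟩
  have h := Finset.single_le_sum (s := q.divisors)
    (f := fun g : ℕ => if g ∣ a then (g : ℝ) else 0)
    (fun g _ => by
      show (0 : ℝ) ≤ if g ∣ a then (g : ℝ) else 0
      split_ifs
      · positivity
      · exact le_rfl) hmem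
  have h2 : (if Nat.gcd q a ∣ a then ((Nat.gcd q a : ℕ) : ℝ) else 0) = (Nat.gcd q a : ℝ) :=
    if_pos (Nat.gcd_dvd_right q a)
  simpa [h2] using h

theorem rp_gcd {A q : ℕ} (hA : 1 ≤ A) (hq : 1 ≤ q) :
    ∑ a ∈ Finset.Icc 1 A, (rp a : ℝ) / a * (Nat.gcd q a : ℝ) ≤
      4 * tau q ^ 5 * (8 + 8 * Real.log A) := by
  have hlog : 0 ≤ Real.log A := Real.log_nonneg (by exact_mod_cast hA)
  have hL : 0 ≤ 8 + 8 * Real.log A := by positivity
  calc ∑ a ∈ Finset.Icc 1 A, (rp a : ℝ) / a * (Nat.gcd q a : ℝ)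
      ≤ ∑ a ∈ Finset.Icc 1 A, (rp a : ℝ) / a *
          ∑ g ∈ q.divisors, (if g ∣ a then (g : ℝ) else 0) := by
        refine Finset.sum_le_sum fun a _ => ?_
        exact mul_le_mul_of_nonneg_left (RpG_gcd_le hq) (by positivity)
    _ = ∑ g ∈ q.divisors, ∑ a ∈ Finset.Icc 1 A,
          (rp a : ℝ) / a * (if g ∣ a then (g : ℝ) else 0) := by
        rw [Finset.sum_comm]
        refine Finset.sum_congr rfl fun a _ => ?_
        rw [Finset.mul_sum]
    _ = ∑ g ∈ q.divisors, (g : ℝ) *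
          ∑ a ∈ (Finset.Icc 1 A).filter (fun a => g ∣ a), (rp a : ℝ) / a := by
        refine Finset.sum_congr rfl fun g _ => ?_
        rw [Finset.mul_sum, Finset.sum_filter]
        refine Finset.sum_congr rfl fun a _ => ?_
        split_ifs
        · ring
        · ring
    _ ≤ ∑ g ∈ q.divisors, 4 * tau q ^ 4 * (8 + 8 * Real.log A) := by
        refine Finset.sum_le_sum fun g hg => ?_
        have hgd : g ∣ q := (Nat.mem_divisors.1 hg).1
        have hg1 : 1 ≤ g := Nat.pos_of_dvd_of_pos hgd (by omega)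
        have hgR : (0 : ℝ) < g := by exact_mod_cast hg1
        have h1 := rp_sum_dvd hA hg1
        have h2 : tau g ^ 4 ≤ tau q ^ 4 :=
          pow_le_pow_left₀ (tau_nonneg g) (tau_dvd hq hgd) 4
        calc (g : ℝ) * ∑ a ∈ (Finset.Icc 1 A).filter (fun a => g ∣ a), (rp a : ℝ) / a
            ≤ (g : ℝ) * (4 * tau g ^ 4 / g * (8 + 8 * Real.log A)) :=
              mul_le_mul_of_nonneg_left h1 hgR.le
          _ = 4 * tau g ^ 4 * (8 + 8 * Real.log A) := by
              field_simp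
          _ ≤ 4 * tau q ^ 4 * (8 + 8 * Real.log A) := by
              refine mul_le_mul_of_nonneg_right ?_ hL
              linarith
    _ = 4 * tau q ^ 5 * (8 + 8 * Real.log A) := by
        rw [Finset.sum_const, nsmul_eq_mul]
        have : ((q.divisors.card : ℕ) : ℝ) = tau q := rfl
        rw [this]
        ring

end Pool.MPb9430d.NT
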