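import Pool.Agent.Lib.MP_b9430d_co.NT.Defs

/-!
# MuT: the sum of the Moebius function over the divisors of `k` that are multiples of `t`

If `t ∤ k` the sum is empty and `t ≠ k`. If `k = t r`: the divisors are `e = t f`, `f ∣ r`, `μ(t f) = μ(t) μ(f)` (`t`, `f` coprime since
`k` is squarefree), and `Σ_{f ∣ r} μ(f) = [r = 1]` (`ArithmeticFunction.sum_moebius...`/`moebius_mul_coe_zeta`).
-/

set_option autoImplicit false

open MeasureTheory Complex Set Real Filter Topology
open scoped ENNReal

namespace Pool.MPb9430d.NT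

open Pool.MPb9430d Pool.MPb9430d.Rough Pool.MPb9430d.Frac Pool.MPb9430d.Mom
open Pool.Agent.Lib.DG (rp nq)

private theorem MuT_sum (r : ℕ) : ∑ f ∈ r.divisors, ArithmeticFunction.moebius f =
    if r = 1 then 1 else 0 := by
  have h := congrArg (fun F : ArithmeticFunction ℤ => F r) ArithmeticFunction.moebius_mul_coe_zeta
  simp only [ArithmeticFunction.mul_zeta_apply, ArithmeticFunction.one_apply] at h
  rw [← h]
  first
  | rfl
  | (rw [ArithmeticFunction.coe_mul_zeta_apply])

theorem mu_sum {k : ℕ} (hk : Squarefree k) (t : ℕ) :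
    ∑ e ∈ k.divisors.filter (fun e => t ∣ e), ArithmeticFunction.moebius e =
      if t = k then ArithmeticFunction.moebius k else 0 := by
  have hk0 : k ≠ 0 := hk.ne_zero
  by_cases ht : t ∣ k
  · obtain ⟨r, rfl⟩ := ht
    have ht0 : 0 < t := Nat.pos_of_ne_zero (left_ne_zero_of_mul hk0)
    have hr0 : r ≠ 0 := right_ne_zero_of_mul hk0
    have h1 : (t * r).divisors.filter (fun e => t ∣ e) =
        r.divisors.image (fun f => t * f) := by
      ext e
      simp only [Finset.mem_filter, Nat.mem_divisors, Finset.mem_image]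
      constructor
      · rintro ⟨⟨h2, h3⟩, f, rfl⟩
        exact ⟨f, ⟨Nat.dvd_of_mul_dvd_mul_left ht0 h2, hr0⟩, rfl⟩
      · rintro ⟨f, ⟨h2, h3⟩, rfl⟩
        exact ⟨⟨Nat.mul_dvd_mul_left t h2, hk0⟩, Dvd.intro f rfl⟩
    rw [h1, Finset.sum_image (fun a _ b _ hab => Nat.eq_of_mul_eq_mul_left ht0 hab)]
    have h2 : ∀ f ∈ r.divisors, ArithmeticFunction.moebius (t * f) =
        ArithmeticFunction.moebius t * ArithmeticFunction.moebius f := by
      intro f hf
      have h3 : f ∣ r := (Nat.mem_divisors.mp hf).1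
      have h4 : Squarefree (t * f) := hk.squarefree_of_dvd (Nat.mul_dvd_mul_left t h3)
      have h5 : Nat.Coprime t f := Nat.coprime_of_squarefree_mul h4
      exact ArithmeticFunction.isMultiplicative_moebius.map_mul_of_coprime h5
    rw [Finset.sum_congr rfl h2, ← Finset.mul_sum, MuT_sum]
    by_cases hr : r = 1
    · subst hr
      simp
    · rw [if_neg hr, if_neg, mul_zero]
      intro h
      apply hr
      have : t * 1 = t * r := by rw [mul_one]; exact h
      exact (Nat.eq_of_mul_eq_mul_left ht0 this).symm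
  · have hne : ¬ t = k := by
      rintro rfl
      exact ht dvd_rfl
    rw [if_neg hne, Finset.sum_eq_zero]
    intro e he
    rw [Finset.mem_filter, Nat.mem_divisors] at he
    exact absurd (he.2.trans he.1.1) ht

end Pool.MPb9430d.NT
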