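import Pool.Agent.Lib.MP_b9430d_co.NT.Defs
import Pool.Agent.Lib.MP_b9430d_co.NT.MuT

/-!
# SelK: the inner sum of the sieve

`k` squarefree, `kd = gcd k d`, `k' = k / kd`: `k'` is coprime to `d` and to `kd`. For `e ∣ k` with `gcd e d = d₁`: `e = d₁ e'` with `e' = e / d₁`
coprime to `d`, `d₁ ∣ kd`, `e' ∣ k'`; conversely `d₁ ∣ k` (so `d₁ ∣ kd`, `d₁ ∣ d`) and `e' ∣ k'` give `e = d₁ e' ∣ k`,
`gcd e d = d₁`. Write `td = gcd t d`, `t' = t / td`. If `t ∣ k` then `t` is squarefree, `t'` coprime to `d`, and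
`t ∣ d₁ e' ↔ td ∣ d₁ ∧ t' ∣ e'`. So the sum is `μ(d₁) Σ_{e' ∣ k', t' ∣ e'} μ(e') = μ(d₁) μ(k') [t' = k']` (`mu_sum`) if
`d₁ ∣ k`, `td ∣ d₁`, and `0` otherwise (also if `t ∤ k`: the sum is empty). Absolute value at most `1`.
-/

set_option autoImplicit false

open MeasureTheory Complex Set Real Filter Topology
open scoped ENNReal

namespace Pool.MPb9430d.NT

open Pool.MPb9430d Pool.MPb9430d.Rough Pool.MPb9430d.Frac Pool.MPb9430d.Mom
open Pool.Agent.Lib.DG (rp nq)

private theorem SelK_cop {a d : ℕ} (ha : Squarefree a) : Nat.Coprime (a / Nat.gcd a d) d := by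
  have ha0 : a ≠ 0 := ha.ne_zero
  have h1 : Nat.gcd a d * (a / Nat.gcd a d) = a := Nat.mul_div_cancel' (Nat.gcd_dvd_left a d)
  rw [Nat.coprime_iff_gcd_eq_one] 
  by_contra hne
  obtain ⟨p, hp, hpd⟩ := Nat.exists_prime_and_dvd hne
  have h2 : p ∣ a / Nat.gcd a d := hpd.trans (Nat.gcd_dvd_left _ _)
  have h3 : p ∣ d := hpd.trans (Nat.gcd_dvd_right _ _)
  have h4 : p ∣ a := h2.trans (Nat.div_dvd_of_dvd (Nat.gcd_dvd_left a d))
  have h5 : p ∣ Nat.gcd a d := Nat.dvd_gcd h4 h3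
  have h6 : p * p ∣ a := by
    rw [← h1]
    exact mul_dvd_mul h5 h2
  have h7 := ha p h6
  exact hp.one_lt.ne' (Nat.isUnit_iff.1 h7)

theorem sel_k {k d d₁ t : ℕ} (hk : Squarefree k) (hd : 1 ≤ d) (h1 : d₁ ∣ d) (ht : 1 ≤ t) :
    |∑ e ∈ k.divisors.filter (fun e => t ∣ e ∧ Nat.gcd e d = d₁), (ArithmeticFunction.moebius e : ℝ)| ≤
      if d₁ ∣ k ∧ Nat.gcd t d ∣ d₁ ∧ k / Nat.gcd k d = t / Nat.gcd t d then 1 else 0 := by
  have hk0 : k ≠ 0 := hk.ne_zero
  have hd1 : 0 < d₁ := Nat.pos_of_dvd_of_pos h1 hd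
  by_cases hc : d₁ ∣ k ∧ Nat.gcd t d ∣ d₁
  swap
  · have hemp : k.divisors.filter (fun e => t ∣ e ∧ Nat.gcd e d = d₁) = ∅ := by
      rw [Finset.filter_eq_empty_iff]
      rintro e he ⟨h2, h3⟩
      apply hc
      rw [Nat.mem_divisors] at he
      refine ⟨?_, ?_⟩
      · rw [← h3]
        exact (Nat.gcd_dvd_left _ _).trans he.1
      · rw [← h3]
        exact Nat.gcd_dvd_gcd_of_dvd_left d h2
    rw [hemp, Finset.sum_empty, abs_zero]
    split_ifs <;> norm_num
  obtain ⟨hc1, hc2⟩ := hc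
  set kd := Nat.gcd k d with hkd
  set k' := k / kd with hk'
  set td := Nat.gcd t d with htd
  set t' := t / td with ht'
  have hkk : kd * k' = k := Nat.mul_div_cancel' (Nat.gcd_dvd_left k d)
  have htt : td * t' = t := Nat.mul_div_cancel' (Nat.gcd_dvd_left t d)
  have hk'd : Nat.Coprime k' d := SelK_cop hk
  have hk's : Squarefree k' := hk.squarefree_of_dvd ⟨kd, by rw [mul_comm]; exact hkk.symm⟩
  have hk'0 : k' ≠ 0 := hk's.ne_zero
  have hsum : ∑ e ∈ k.divisors.filter (fun e => t ∣ e ∧ Nat.gcd e d = d₁),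
      (ArithmeticFunction.moebius e : ℝ) =
      ∑ e ∈ k'.divisors.filter (fun e => t' ∣ e),
        (ArithmeticFunction.moebius d₁ : ℝ) * (ArithmeticFunction.moebius e : ℝ) := by
    symm
    refine Finset.sum_bij (fun e _ => d₁ * e) ?_ ?_ ?_ ?_
    · intro e he
      rw [Finset.mem_filter, Nat.mem_divisors] at he ⊢
      obtain ⟨⟨h2, _⟩, h3⟩ := he
      have hed : Nat.Coprime e d := Nat.Coprime.coprime_dvd_left h2 hk'd
      refine ⟨⟨?_, hk0⟩, ?_, ?_⟩
      · rw [← hkk]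
        exact mul_dvd_mul (Nat.dvd_gcd hc1 h1) h2
      · rw [← htt]
        exact mul_dvd_mul hc2 h3
      · have h4 : Nat.gcd (d₁ * e) d = Nat.gcd d₁ d := by
          rw [mul_comm]
          exact Nat.Coprime.gcd_mul_left_cancel d₁ hed
        rw [h4]
        exact Nat.gcd_eq_left h1
    · intro a _ b _ hab
      exact Nat.eq_of_mul_eq_mul_left hd1 hab
    · intro e he
      rw [Finset.mem_filter, Nat.mem_divisors] at he
      obtain ⟨⟨h2, _⟩, h3, h4⟩ := he
      have hes : Squarefree e := hk.squarefree_of_dvd h2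
      have hcop : Nat.Coprime (e / Nat.gcd e d) d := SelK_cop hes
      rw [h4] at hcop
      have hd1e : d₁ ∣ e := by
        rw [← h4]
        exact Nat.gcd_dvd_left _ _
      have hee : d₁ * (e / d₁) = e := Nat.mul_div_cancel' hd1e
      have hts : Squarefree t := hes.squarefree_of_dvd h3
      have htcop : Nat.Coprime t' d := SelK_cop hts
      refine ⟨e / d₁, ?_, hee⟩
      rw [Finset.mem_filter, Nat.mem_divisors]
      refine ⟨⟨?_, hk'0⟩, ?_⟩
      · have h5 : e / d₁ ∣ kd * k' := by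
          rw [hkk]
          exact (Nat.div_dvd_of_dvd hd1e).trans h2
        exact Nat.Coprime.dvd_of_dvd_mul_left (Nat.Coprime.coprime_dvd_right (Nat.gcd_dvd_right k d) hcop) h5
      · have h5 : t' ∣ d₁ * (e / d₁) := by
          rw [hee]
          exact (Nat.div_dvd_of_dvd (Nat.gcd_dvd_left t d)).trans h3
        exact Nat.Coprime.dvd_of_dvd_mul_left (Nat.Coprime.coprime_dvd_right h1 htcop) h5
    · intro e he
      rw [Finset.mem_filter, Nat.mem_divisors] at he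
      obtain ⟨⟨h2, _⟩, _⟩ := he
      have hed : Nat.Coprime d₁ e :=
        (Nat.Coprime.coprime_dvd_right h1 (Nat.Coprime.coprime_dvd_left h2 hk'd)).symm
      rw [ArithmeticFunction.isMultiplicative_moebius.map_mul_of_coprime hed]
      push_cast
      rfl
  rw [hsum, ← Finset.mul_sum]
  have hms := mu_sum hk's t'
  have hms' : ∑ e ∈ k'.divisors.filter (fun e => t' ∣ e), (ArithmeticFunction.moebius e : ℝ) =
      if t' = k' then (ArithmeticFunction.moebius k' : ℝ) else 0 := by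
    rw [← Int.cast_sum, hms]
    split_ifs <;> simp
  rw [hms', abs_mul]
  have hmu : ∀ n : ℕ, |(ArithmeticFunction.moebius n : ℝ)| ≤ 1 := by
    intro n
    have h := ArithmeticFunction.abs_moebius_le_one (n := n)
    exact_mod_cast h
  by_cases hkt : t' = k'
  · rw [if_pos hkt, if_pos ⟨hc1, hc2, hkt.symm⟩]
    calc |(ArithmeticFunction.moebius d₁ : ℝ)| * |(ArithmeticFunction.moebius k' : ℝ)| ≤ 1 * 1 :=
          mul_le_mul (hmu _) (hmu _) (abs_nonneg _) zero_le_one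
      _ = 1 := one_mul 1
  · rw [if_neg hkt, abs_zero, mul_zero]
    split_ifs <;> norm_num

end Pool.MPb9430d.NT
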