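import Pool.Agent.Lib.MP_b9430d_co.NT.Defs
import Pool.Agent.Lib.MP_b9430d_co.NT.SelK
import Pool.Agent.Lib.MP_b9430d_co.NT.SelG

/-!
# SelY: the bound of `Y(d₁, t)`

`λ_e / e = μ(e) / G Σ_{k ≤ z sqfree, e ∣ k} 1/k`, so (exchange the sums; `e ∣ k` implies `e ≤ z`)
`Y(d₁, t) = (1/G) Σ_{k ≤ z sqfree} (1/k) Σ_{e ∣ k, t ∣ e, gcd e d = d₁} μ(e)`. By `sel_k`
`|Y| ≤ (1/G) Σ 1/k` over the squarefree `k ≤ z` with `d₁ ∣ k`, `td ∣ d₁`, `k / gcd k d = t' := t / td`, `td = gcd t d`. If there is such a `k` then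
`t = td t'` divides `k` (`td ∣ d₁ ∣ k`, `t' = k' ∣ k`, and they are coprime since `k' = k / gcd k d` is coprime to `d`), so `t` is squarefree and
`t' = k' ≤ k ≤ z`. The map `k ↦ gcd k d` is injective on these `k` (`k = gcd k d · t'`), its values `δ` are divisors of `d` and multiples of `d₁`
(`≥ d₁`), so `Σ 1/k ≤ (1/t') Σ_{δ ∣ d, d₁ ∣ δ} 1/δ ≤ τ(d) / (t' d₁)`.
-/

set_option autoImplicit false

open MeasureTheory Complex Set Real Filter Topology
open scoped ENNReal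

namespace Pool.MPb9430d.NT

open Pool.MPb9430d Pool.MPb9430d.Rough Pool.MPb9430d.Frac Pool.MPb9430d.Mom
open Pool.Agent.Lib.DG (rp nq)

private theorem sy_cop {k d : ℕ} (hk : Squarefree k) (hk0 : 0 < k) : (k / Nat.gcd k d).Coprime d := by
  have hg : 0 < Nat.gcd k d := Nat.gcd_pos_of_pos_left _ hk0
  refine Nat.Coprime.symm (Nat.coprime_of_dvd fun p hp hpd hpk => ?_)
  have h1 : p ∣ k := hpk.trans (Nat.div_dvd_of_dvd (Nat.gcd_dvd_left k d))
  have h2 : p ∣ Nat.gcd k d := Nat.dvd_gcd h1 hpd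
  have h3 : p * p ∣ k := by
    have h4 : k / Nat.gcd k d * Nat.gcd k d = k := Nat.div_mul_cancel (Nat.gcd_dvd_left k d)
    rw [← h4]
    exact Nat.mul_dvd_mul hpk h2
  exact hp.one_lt.ne' (Nat.isUnit_iff.1 (hk p h3))

theorem sel_y {z d d₁ t : ℕ} (hz : 1 ≤ z) (hd : 1 ≤ d) (h1 : d₁ ∣ d) (ht : 1 ≤ t) :
    |YY z d d₁ t| ≤ if Nat.gcd t d ∣ d₁ ∧ Squarefree t ∧ t / Nat.gcd t d ≤ z then
      tau d / (GG z * ((t / Nat.gcd t d : ℕ) : ℝ) * d₁) else 0 := by
  classical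
  have hG := gg_pos hz
  have hd1 : 0 < d₁ := Nat.pos_of_dvd_of_pos h1 hd
  have htd : 0 < Nat.gcd t d := Nat.gcd_pos_of_pos_left _ ht
  obtain ⟨t', ht'⟩ : ∃ t', t' = t / Nat.gcd t d := ⟨_, rfl⟩
  have ht'0 : 0 < t' := by
    rw [ht']
    exact Nat.div_pos (Nat.le_of_dvd ht (Nat.gcd_dvd_left t d)) htd
  have hY : YY z d d₁ t = (1 / GG z) * ∑ k ∈ (Finset.Icc 1 z).filter Squarefree, 1 / (k : ℝ) *
      ∑ e ∈ k.divisors.filter (fun e => t ∣ e ∧ Nat.gcd e d = d₁), (ArithmeticFunction.moebius e : ℝ) := by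
    unfold YY
    have e1 : ∀ e ∈ (Finset.Icc 1 z).filter (fun e => t ∣ e ∧ Nat.gcd e d = d₁), lam z e / (e : ℝ) =
        (1 / GG z) * ∑ k ∈ (Finset.Icc 1 z).filter Squarefree, if e ∣ k then (ArithmeticFunction.moebius e : ℝ) * (1 / (k : ℝ)) else 0 := by
      intro e he
      rw [Finset.mem_filter, Finset.mem_Icc] at he
      have he0 : (e : ℝ) ≠ 0 := by
        have : 0 < e := he.1.1
        exact_mod_cast this.ne'
      unfold lam
      rw [← Finset.sum_filter, Finset.filter_filter, ← Finset.mul_sum]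
      field_simp
    rw [Finset.sum_congr rfl e1, ← Finset.mul_sum, Finset.sum_comm]
    congr 1
    refine Finset.sum_congr rfl fun k hk => ?_
    rw [Finset.mem_filter, Finset.mem_Icc] at hk
    rw [← Finset.sum_filter, Finset.mul_sum, Finset.filter_filter]
    refine Finset.sum_congr ?_ fun e _ => mul_comm _ _
    ext e
    rw [Finset.mem_filter, Finset.mem_filter, Finset.mem_Icc, Nat.mem_divisors]
    constructor
    · rintro ⟨-, h2, h3⟩
      exact ⟨⟨h3, by omega⟩, h2⟩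
    · rintro ⟨⟨h3, h4⟩, h2⟩
      refine ⟨⟨Nat.pos_of_dvd_of_pos h3 (by omega), (Nat.le_of_dvd (by omega) h3).trans hk.1.2⟩, h2, h3⟩
  obtain ⟨S, hS⟩ : ∃ S : Finset ℕ, S = ((Finset.Icc 1 z).filter Squarefree).filter
    (fun k => d₁ ∣ k ∧ Nat.gcd t d ∣ d₁ ∧ k / Nat.gcd k d = t / Nat.gcd t d) := ⟨_, rfl⟩
  have hb : |YY z d d₁ t| ≤ (1 / GG z) * ∑ k ∈ S, 1 / (k : ℝ) := by
    rw [hY, abs_mul, abs_of_pos (by positivity : (0 : ℝ) < 1 / GG z)]
    refine mul_le_mul_of_nonneg_left ?_ (by positivity)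
    refine (Finset.abs_sum_le_sum_abs _ _).trans ?_
    rw [hS, Finset.sum_filter (s := (Finset.Icc 1 z).filter Squarefree)]
    refine Finset.sum_le_sum fun k hk => ?_
    rw [Finset.mem_filter, Finset.mem_Icc] at hk
    rw [abs_mul, abs_of_nonneg (by positivity : (0 : ℝ) ≤ 1 / (k : ℝ))]
    have h2 := sel_k hk.2 hd h1 ht
    refine (mul_le_mul_of_nonneg_left h2 (by positivity)).trans ?_
    split_ifs
    · rw [mul_one]
    · rw [mul_zero]
  have hmem : ∀ k ∈ S, (1 ≤ k ∧ k ≤ z) ∧ Squarefree k ∧ d₁ ∣ k ∧ Nat.gcd t d ∣ d₁ ∧ k / Nat.gcd k d = t' ∧ k = Nat.gcd k d * t' := by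
    intro k hk
    rw [hS, Finset.mem_filter, Finset.mem_filter, Finset.mem_Icc] at hk
    obtain ⟨⟨h2, h3⟩, h4, h5, h6⟩ := hk
    rw [← ht'] at h6
    refine ⟨h2, h3, h4, h5, h6, ?_⟩
    rw [← h6, Nat.mul_div_cancel' (Nat.gcd_dvd_left k d)]
  split_ifs with hc
  · have hcard : (S.card : ℝ) ≤ tau d := by
      unfold tau
      have h2 : S.card ≤ d.divisors.card := by
        refine Finset.card_le_card_of_injOn (fun k => Nat.gcd k d) (fun k _ => ?_) ?_
        · exact Nat.mem_divisors.2 ⟨Nat.gcd_dvd_right k d, by omega⟩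
        · intro k hk k' hk' hkk
          have h3 := (hmem k hk).2.2.2.2.2
          have h4 := (hmem k' hk').2.2.2.2.2
          have h5 : Nat.gcd k d = Nat.gcd k' d := hkk
          rw [h3, h4, h5]
      exact_mod_cast h2
    have hsum : ∑ k ∈ S, 1 / (k : ℝ) ≤ tau d * (1 / ((t' : ℝ) * d₁)) := by
      calc ∑ k ∈ S, 1 / (k : ℝ) ≤ ∑ _k ∈ S, 1 / ((t' : ℝ) * d₁) := by
            refine Finset.sum_le_sum fun k hk => ?_
            obtain ⟨h2, -, h4, -, -, h7⟩ := hmem k hk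
            have h8 : d₁ ∣ Nat.gcd k d := Nat.dvd_gcd h4 h1
            have h9 : d₁ ≤ Nat.gcd k d := Nat.le_of_dvd (Nat.gcd_pos_of_pos_left _ (by omega)) h8
            have h10 : t' * d₁ ≤ k := by
              rw [h7, Nat.mul_comm]
              exact Nat.mul_le_mul_right _ h9
            refine one_div_le_one_div_of_le (by positivity) ?_
            exact_mod_cast h10
        _ = S.card * (1 / ((t' : ℝ) * d₁)) := by rw [Finset.sum_const, nsmul_eq_mul]
        _ ≤ tau d * (1 / ((t' : ℝ) * d₁)) := mul_le_mul_of_nonneg_right hcard (by positivity)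
    refine hb.trans ?_
    rw [← ht']
    calc 1 / GG z * ∑ k ∈ S, 1 / (k : ℝ) ≤ 1 / GG z * (tau d * (1 / ((t' : ℝ) * d₁))) :=
          mul_le_mul_of_nonneg_left hsum (by positivity)
      _ = tau d / (GG z * (t' : ℝ) * d₁) := by
          have h2 : (t' : ℝ) ≠ 0 := by exact_mod_cast ht'0.ne'
          have h3 : (d₁ : ℝ) ≠ 0 := by exact_mod_cast hd1.ne'
          field_simp
  · have hempty : S = ∅ := by
      rw [Finset.eq_empty_iff_forall_notMem]
      intro k hk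
      obtain ⟨⟨h2, h3⟩, h4, h5, h6, h7, h8⟩ := hmem k hk
      apply hc
      have hk' : k / Nat.gcd k d ∣ k := Nat.div_dvd_of_dvd (Nat.gcd_dvd_left k d)
      have ht'k : t' ∣ k := by rw [← h7]; exact hk'
      refine ⟨h6, ?_, ?_⟩
      · have hcop := sy_cop (d := d) h4 (by omega)
        rw [h7] at hcop
        have h9 : (Nat.gcd t d).Coprime t' := (Nat.Coprime.coprime_dvd_right (Nat.gcd_dvd_right t d) hcop).symm
        have h10 : Nat.gcd t d * t' ∣ k := Nat.Coprime.mul_dvd_of_dvd_of_dvd h9 (h6.trans h5) ht'k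
        have h11 : Nat.gcd t d * t' = t := by
          rw [ht']
          exact Nat.mul_div_cancel' (Nat.gcd_dvd_left t d)
        rw [h11] at h10
        exact Squarefree.squarefree_of_dvd h10 h4
      · rw [← ht']
        exact (Nat.le_of_dvd (by omega) ht'k).trans h3
    rw [hempty, Finset.sum_empty, mul_zero] at hb
    exact hb

end Pool.MPb9430d.NT
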