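import Pool.Agent.Lib.MP_b9430d_co.NT.Defs
import Pool.Agent.Lib.MP_b9430d_co.NT.SelY
import Pool.Agent.Lib.MP_b9430d_co.NT.SelG

/-!
# SelW: the twisted sieve sum

`1 / [e,f] = (e,f) / (e f)`, `(e,f) = Σ_{t ∣ e, t ∣ f} φ(t)` (`Nat.sum_totient`, `t ∣ gcd`), `t ≤ z`. `gcd (lcm e f) d = lcm (gcd e d) (gcd f d)`, so
`d ∣ [e,f] ↔ lcm d₁ d₂ = d` with `d₁ = gcd e d`, `d₂ = gcd f d` (divisors of `d`). Hence
`W(d) = Σ_{d₁ ∣ d, d₂ ∣ d, lcm d₁ d₂ = d} Σ_{t ≤ z} φ(t) Y(d₁, t) Y(d₂, t)`. By `sel_y` and `φ(t) ≤ t = td t'`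
(`td = gcd t d`, `t' = t / td`):
`|Σ_t| ≤ Σ_{t ≤ z sqfree, td ∣ gcd d₁ d₂} td t' τ(d)² / (G² t'² d₁ d₂) ≤ τ(d)² / (G² d₁ d₂) · (Σ_{s ∣ gcd d₁ d₂} s) · G`
(the map `t ↦ (td, t')` is injective, `t'` squarefree `≤ z`) and `Σ_{s ∣ gcd d₁ d₂} s ≤ τ(d) gcd d₁ d₂`. Since
`gcd d₁ d₂ · lcm d₁ d₂ = d₁ d₂` each pair `(d₁, d₂)` contributes at most `τ(d)³ / (d G)`, and there are at most `τ(d)²` pairs.
-/

set_option autoImplicit false

open MeasureTheory Complex Set Real Filter Topology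
open scoped ENNReal

namespace Pool.MPb9430d.NT

open Pool.MPb9430d Pool.MPb9430d.Rough Pool.MPb9430d.Frac Pool.MPb9430d.Mom
open Pool.Agent.Lib.DG (rp nq)

private theorem SelW_dvd {d e f : ℕ} (he : 1 ≤ e) (hf : 1 ≤ f) :
    d ∣ Nat.lcm e f ↔ Nat.lcm (Nat.gcd e d) (Nat.gcd f d) = d := by
  constructor
  · intro h
    apply Nat.dvd_antisymm
    · exact Nat.lcm_dvd (Nat.gcd_dvd_right _ _) (Nat.gcd_dvd_right _ _)
    · rw [Nat.dvd_iff_prime_pow_dvd_dvd]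
      intro p k hp hpk
      have h1 : p ^ k ∣ Nat.lcm e f := hpk.trans h
      have he0 : e ≠ 0 := by omega
      have hf0 : f ≠ 0 := by omega
      rw [hp.pow_dvd_iff_le_factorization (Nat.lcm_ne_zero he0 hf0),
        Nat.factorization_lcm he0 hf0] at h1
      have h2 : k ≤ max (e.factorization p) (f.factorization p) := by
        simpa using h1
      rcases le_max_iff.1 h2 with h3 | h3
      · have h4 : p ^ k ∣ e := (hp.pow_dvd_iff_le_factorization he0).2 h3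
        exact (Nat.dvd_gcd h4 hpk).trans (Nat.dvd_lcm_left _ _)
      · have h4 : p ^ k ∣ f := (hp.pow_dvd_iff_le_factorization hf0).2 h3
        exact (Nat.dvd_gcd h4 hpk).trans (Nat.dvd_lcm_right _ _)
  · intro h
    rw [← h]
    exact Nat.lcm_dvd ((Nat.gcd_dvd_left _ _).trans (Nat.dvd_lcm_left _ _))
      ((Nat.gcd_dvd_left _ _).trans (Nat.dvd_lcm_right _ _))

private theorem SelW_gcd {z e f : ℕ} (he : 1 ≤ e) (hez : e ≤ z) :
    ((Nat.gcd e f : ℕ) : ℝ) =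
      ∑ t ∈ Finset.Icc 1 z, if t ∣ e ∧ t ∣ f then (Nat.totient t : ℝ) else 0 := by
  rw [← Finset.sum_filter]
  have h1 : (Finset.Icc 1 z).filter (fun t => t ∣ e ∧ t ∣ f) = (Nat.gcd e f).divisors := by
    ext t
    rw [Finset.mem_filter, Finset.mem_Icc, Nat.mem_divisors]
    constructor
    · rintro ⟨_, h2, h3⟩
      exact ⟨Nat.dvd_gcd h2 h3, Nat.gcd_ne_zero_left (by omega)⟩
    · rintro ⟨h2, _⟩
      have h3 : t ∣ e := h2.trans (Nat.gcd_dvd_left _ _)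
      have h4 : t ∣ f := h2.trans (Nat.gcd_dvd_right _ _)
      exact ⟨⟨Nat.pos_of_dvd_of_pos h3 he, (Nat.le_of_dvd he h3).trans hez⟩, h3, h4⟩
  rw [h1, ← Nat.cast_sum]
  congr 1
  exact (Nat.sum_totient _).symm

private theorem SelW_term {z d e f : ℕ} (hd : 1 ≤ d) (he : 1 ≤ e) (hez : e ≤ z) (hf : 1 ≤ f) :
    (if d ∣ Nat.lcm e f then lam z e * lam z f / (Nat.lcm e f : ℝ) else 0) =
      ∑ d₁ ∈ d.divisors, ∑ d₂ ∈ d.divisors, if Nat.lcm d₁ d₂ = d then
        ∑ t ∈ Finset.Icc 1 z, (Nat.totient t : ℝ) *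
          ((if t ∣ e ∧ Nat.gcd e d = d₁ then lam z e / (e : ℝ) else 0) *
            (if t ∣ f ∧ Nat.gcd f d = d₂ then lam z f / (f : ℝ) else 0)) else 0 := by
  have hd0 : d ≠ 0 := by omega
  have her : (0 : ℝ) < e := by exact_mod_cast he
  have hfr : (0 : ℝ) < f := by exact_mod_cast hf
  rw [Finset.sum_eq_single (Nat.gcd e d)]
  · rw [Finset.sum_eq_single (Nat.gcd f d)]
    · by_cases h : d ∣ Nat.lcm e f
      · rw [if_pos h, if_pos ((SelW_dvd he hf).1 h)]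
        have h1 : ∀ t ∈ Finset.Icc 1 z, (Nat.totient t : ℝ) *
            ((if t ∣ e ∧ Nat.gcd e d = Nat.gcd e d then lam z e / (e : ℝ) else 0) *
            (if t ∣ f ∧ Nat.gcd f d = Nat.gcd f d then lam z f / (f : ℝ) else 0)) =
            (if t ∣ e ∧ t ∣ f then (Nat.totient t : ℝ) else 0) *
              (lam z e / (e : ℝ) * (lam z f / (f : ℝ))) := by
          intro t _
          by_cases h2 : t ∣ e
          · by_cases h3 : t ∣ f
            · rw [if_pos ⟨h2, rfl⟩, if_pos ⟨h3, rfl⟩, if_pos ⟨h2, h3⟩]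
            · rw [if_neg (fun h => h3 h.1 : ¬ (t ∣ f ∧ Nat.gcd f d = Nat.gcd f d)),
                if_neg (fun h => h3 h.2 : ¬ (t ∣ e ∧ t ∣ f))]
              ring
          · rw [if_neg (fun h => h2 h.1 : ¬ (t ∣ e ∧ Nat.gcd e d = Nat.gcd e d)),
              if_neg (fun h => h2 h.1 : ¬ (t ∣ e ∧ t ∣ f))]
            ring
        rw [Finset.sum_congr rfl h1, ← Finset.sum_mul, ← SelW_gcd he hez]
        have h2 : ((Nat.gcd e f : ℕ) : ℝ) * ((Nat.lcm e f : ℕ) : ℝ) = (e : ℝ) * f := by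
          exact_mod_cast Nat.gcd_mul_lcm e f
        have h3 : (0 : ℝ) < ((Nat.lcm e f : ℕ) : ℝ) := by
          exact_mod_cast Nat.lcm_pos (by omega) (by omega)
        rw [div_eq_iff h3.ne']
        calc lam z e * lam z f = ((e : ℝ) * f) * (lam z e / (e : ℝ) * (lam z f / (f : ℝ))) := by
              field_simp
          _ = _ := by rw [← h2]; ring
      · rw [if_neg h, if_neg (fun h1 => h ((SelW_dvd he hf).2 h1))]
    · intro b _ hb
      split_ifs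
      · refine Finset.sum_eq_zero fun t _ => ?_
        rw [if_neg (fun h => hb h.2.symm : ¬ (t ∣ f ∧ Nat.gcd f d = b))]
        ring
      · rfl
    · intro h
      exact absurd (Nat.mem_divisors.2 ⟨Nat.gcd_dvd_right f d, hd0⟩) h
  · intro b _ hb
    refine Finset.sum_eq_zero fun d₂ _ => ?_
    split_ifs
    · refine Finset.sum_eq_zero fun t _ => ?_
      rw [if_neg (fun h => hb h.2.symm : ¬ (t ∣ e ∧ Nat.gcd e d = b))]
      ring
    · rfl
  · intro h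
    exact absurd (Nat.mem_divisors.2 ⟨Nat.gcd_dvd_right e d, hd0⟩) h

private theorem SelW_eq {z d : ℕ} (hd : 1 ≤ d) : WW z d =
    ∑ d₁ ∈ d.divisors, ∑ d₂ ∈ d.divisors, if Nat.lcm d₁ d₂ = d then
        ∑ t ∈ Finset.Icc 1 z, (Nat.totient t : ℝ) * (YY z d d₁ t * YY z d d₂ t) else 0 := by
  unfold WW
  have h1 : ∀ e ∈ Finset.Icc 1 z, ∀ f ∈ Finset.Icc 1 z,
      (if d ∣ Nat.lcm e f then lam z e * lam z f / (Nat.lcm e f : ℝ) else 0) =
      ∑ d₁ ∈ d.divisors, ∑ d₂ ∈ d.divisors, if Nat.lcm d₁ d₂ = d then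
        ∑ t ∈ Finset.Icc 1 z, (Nat.totient t : ℝ) *
          ((if t ∣ e ∧ Nat.gcd e d = d₁ then lam z e / (e : ℝ) else 0) *
            (if t ∣ f ∧ Nat.gcd f d = d₂ then lam z f / (f : ℝ) else 0)) else 0 :=
    fun e he f hf => SelW_term hd (Finset.mem_Icc.1 he).1 (Finset.mem_Icc.1 he).2
      (Finset.mem_Icc.1 hf).1
  rw [Finset.sum_congr rfl (fun e he => Finset.sum_congr rfl (fun f hf => h1 e he f hf))]
  have h2 : ∀ e ∈ Finset.Icc 1 z, ∑ f ∈ Finset.Icc 1 z, ∑ d₁ ∈ d.divisors, ∑ d₂ ∈ d.divisors,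
      (if Nat.lcm d₁ d₂ = d then
        ∑ t ∈ Finset.Icc 1 z, (Nat.totient t : ℝ) *
          ((if t ∣ e ∧ Nat.gcd e d = d₁ then lam z e / (e : ℝ) else 0) *
            (if t ∣ f ∧ Nat.gcd f d = d₂ then lam z f / (f : ℝ) else 0)) else 0) =
      ∑ d₁ ∈ d.divisors, ∑ f ∈ Finset.Icc 1 z, ∑ d₂ ∈ d.divisors,
      (if Nat.lcm d₁ d₂ = d then
        ∑ t ∈ Finset.Icc 1 z, (Nat.totient t : ℝ) *
          ((if t ∣ e ∧ Nat.gcd e d = d₁ then lam z e / (e : ℝ) else 0) *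
            (if t ∣ f ∧ Nat.gcd f d = d₂ then lam z f / (f : ℝ) else 0)) else 0) :=
    fun e _ => Finset.sum_comm
  rw [Finset.sum_congr rfl h2, Finset.sum_comm]
  refine Finset.sum_congr rfl fun d₁ _ => ?_
  have h3 : ∀ e ∈ Finset.Icc 1 z, ∑ f ∈ Finset.Icc 1 z, ∑ d₂ ∈ d.divisors,
      (if Nat.lcm d₁ d₂ = d then
        ∑ t ∈ Finset.Icc 1 z, (Nat.totient t : ℝ) *
          ((if t ∣ e ∧ Nat.gcd e d = d₁ then lam z e / (e : ℝ) else 0) *
            (if t ∣ f ∧ Nat.gcd f d = d₂ then lam z f / (f : ℝ) else 0)) else 0) =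
      ∑ d₂ ∈ d.divisors, ∑ f ∈ Finset.Icc 1 z,
      (if Nat.lcm d₁ d₂ = d then
        ∑ t ∈ Finset.Icc 1 z, (Nat.totient t : ℝ) *
          ((if t ∣ e ∧ Nat.gcd e d = d₁ then lam z e / (e : ℝ) else 0) *
            (if t ∣ f ∧ Nat.gcd f d = d₂ then lam z f / (f : ℝ) else 0)) else 0) :=
    fun e _ => Finset.sum_comm
  rw [Finset.sum_congr rfl h3, Finset.sum_comm]
  refine Finset.sum_congr rfl fun d₂ _ => ?_
  by_cases h : Nat.lcm d₁ d₂ = d
  · simp only [if_pos h]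
    have h4 : ∀ t ∈ Finset.Icc 1 z, (Nat.totient t : ℝ) * (YY z d d₁ t * YY z d d₂ t) =
        ∑ e ∈ Finset.Icc 1 z, ∑ f ∈ Finset.Icc 1 z, (Nat.totient t : ℝ) *
          ((if t ∣ e ∧ Nat.gcd e d = d₁ then lam z e / (e : ℝ) else 0) *
            (if t ∣ f ∧ Nat.gcd f d = d₂ then lam z f / (f : ℝ) else 0)) := by
      intro t _
      unfold YY
      rw [Finset.sum_filter, Finset.sum_filter, Finset.sum_mul_sum, Finset.mul_sum]
      refine Finset.sum_congr rfl fun e _ => ?_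
      rw [Finset.mul_sum]
    symm
    rw [Finset.sum_congr rfl h4]
    refine Finset.sum_comm.trans ?_
    exact Finset.sum_congr rfl fun e _ => Finset.sum_comm
  · simp only [if_neg h, Finset.sum_const_zero]

private theorem SelW_sum {z d g : ℕ} (hd : 1 ≤ d) (hg : g ∣ d) :
    ∑ t ∈ (Finset.Icc 1 z).filter (fun t => Squarefree t ∧ Nat.gcd t d ∣ g),
      ((Nat.gcd t d : ℕ) : ℝ) / ((t / Nat.gcd t d : ℕ) : ℝ) ≤ tau d * g * GG z := by
  have hg1 : 1 ≤ g := Nat.pos_of_dvd_of_pos hg hd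
  have h1 : ∑ t ∈ (Finset.Icc 1 z).filter (fun t => Squarefree t ∧ Nat.gcd t d ∣ g),
      ((Nat.gcd t d : ℕ) : ℝ) / ((t / Nat.gcd t d : ℕ) : ℝ) =
      ∑ x ∈ ((Finset.Icc 1 z).filter (fun t => Squarefree t ∧ Nat.gcd t d ∣ g)).image
        (fun t => (Nat.gcd t d, t / Nat.gcd t d)), (x.1 : ℝ) * (1 / (x.2 : ℝ)) := by
    rw [Finset.sum_image]
    · refine Finset.sum_congr rfl fun t _ => ?_
      rw [div_eq_mul_one_div]
    · intro a _ b _ hab
      have h2 := (Prod.ext_iff.1 hab).1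
      have h3 := (Prod.ext_iff.1 hab).2
      simp only at h2 h3
      rw [← Nat.mul_div_cancel' (Nat.gcd_dvd_left a d), ← Nat.mul_div_cancel' (Nat.gcd_dvd_left b d),
        h3, h2]
  rw [h1]
  have h2 : ((Finset.Icc 1 z).filter (fun t => Squarefree t ∧ Nat.gcd t d ∣ g)).image
        (fun t => (Nat.gcd t d, t / Nat.gcd t d)) ⊆
        g.divisors ×ˢ (Finset.Icc 1 z).filter Squarefree := by
    intro x hx
    obtain ⟨t, ht, rfl⟩ := Finset.mem_image.1 hx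
    obtain ⟨ht1, hts, htg⟩ := Finset.mem_filter.1 ht
    rw [Finset.mem_Icc] at ht1
    rw [Finset.mem_product, Nat.mem_divisors, Finset.mem_filter, Finset.mem_Icc]
    have h3 : Nat.gcd t d ∣ t := Nat.gcd_dvd_left t d
    refine ⟨⟨htg, by omega⟩, ⟨?_, ?_⟩, ?_⟩
    · exact Nat.div_pos (Nat.le_of_dvd ht1.1 h3) (Nat.gcd_pos_of_pos_left _ ht1.1)
    · exact (Nat.div_le_self _ _).trans ht1.2
    · exact hts.squarefree_of_dvd (Nat.div_dvd_of_dvd h3)
  refine (Finset.sum_le_sum_of_subset_of_nonneg h2 (fun x _ _ => by positivity)).trans ?_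
  rw [Finset.sum_product]
  dsimp only
  rw [← Finset.sum_mul_sum]
  refine mul_le_mul_of_nonneg_right ?_ (Finset.sum_nonneg fun x _ => by positivity)
  have h3 : ∑ s ∈ g.divisors, (s : ℝ) ≤ ∑ s ∈ g.divisors, (g : ℝ) := by
    refine Finset.sum_le_sum fun s hs => ?_
    exact_mod_cast Nat.le_of_dvd hg1 (Nat.dvd_of_mem_divisors hs)
  refine h3.trans ?_
  rw [Finset.sum_const, nsmul_eq_mul]
  exact mul_le_mul_of_nonneg_right (tau_dvd hd hg) (by positivity)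

private theorem SelW_pair {z d d₁ d₂ : ℕ} (hz : 1 ≤ z) (hd : 1 ≤ d) (h1 : d₁ ∣ d) (h2 : d₂ ∣ d)
    (hl : Nat.lcm d₁ d₂ = d) :
    |∑ t ∈ Finset.Icc 1 z, (Nat.totient t : ℝ) * (YY z d d₁ t * YY z d d₂ t)| ≤
      tau d ^ 3 / (d * GG z) := by
  have hG := gg_pos hz
  have hd1 : 1 ≤ d₁ := Nat.pos_of_dvd_of_pos h1 hd
  have hd2 : 1 ≤ d₂ := Nat.pos_of_dvd_of_pos h2 hd
  have hdr : (0 : ℝ) < d := by exact_mod_cast hd
  have hd1r : (0 : ℝ) < d₁ := by exact_mod_cast hd1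
  have hd2r : (0 : ℝ) < d₂ := by exact_mod_cast hd2
  have htau := tau_nonneg d
  set g := Nat.gcd d₁ d₂ with hg
  have hgd : g ∣ d := (Nat.gcd_dvd_left _ _).trans h1
  have hgl : (g : ℝ) * d = (d₁ : ℝ) * d₂ := by
    have := Nat.gcd_mul_lcm d₁ d₂
    rw [hl] at this
    exact_mod_cast this
  have hterm : ∀ t ∈ Finset.Icc 1 z, |(Nat.totient t : ℝ) * (YY z d d₁ t * YY z d d₂ t)| ≤
      if Squarefree t ∧ Nat.gcd t d ∣ g then
        tau d ^ 2 / (GG z ^ 2 * (d₁ * d₂)) *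
          (((Nat.gcd t d : ℕ) : ℝ) / ((t / Nat.gcd t d : ℕ) : ℝ)) else 0 := by
    intro t ht
    have ht1 : 1 ≤ t := (Finset.mem_Icc.1 ht).1
    have hy1 := sel_y (z := z) (t := t) hz hd h1 ht1
    have hy2 := sel_y (z := z) (t := t) hz hd h2 ht1
    rw [abs_mul, abs_mul, abs_of_nonneg (by positivity : (0 : ℝ) ≤ (Nat.totient t : ℝ))]
    have htd : 0 < Nat.gcd t d := Nat.gcd_pos_of_pos_left _ ht1
    have htt : Nat.gcd t d * (t / Nat.gcd t d) = t := Nat.mul_div_cancel' (Nat.gcd_dvd_left t d)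
    have ht'0 : 0 < t / Nat.gcd t d :=
      Nat.div_pos (Nat.le_of_dvd ht1 (Nat.gcd_dvd_left t d)) htd
    by_cases hA : Nat.gcd t d ∣ d₁ ∧ Squarefree t ∧ t / Nat.gcd t d ≤ z
    · by_cases hB : Nat.gcd t d ∣ d₂ ∧ Squarefree t ∧ t / Nat.gcd t d ≤ z
      · rw [if_pos hA] at hy1
        rw [if_pos hB] at hy2
        rw [if_pos ⟨hA.2.1, Nat.dvd_gcd hA.1 hB.1⟩]
        have h3 : (Nat.totient t : ℝ) ≤ ((Nat.gcd t d : ℕ) : ℝ) * ((t / Nat.gcd t d : ℕ) : ℝ) := by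
          have h4 : Nat.totient t ≤ Nat.gcd t d * (t / Nat.gcd t d) := by
            rw [htt]
            exact Nat.totient_le t
          exact_mod_cast h4
        set u : ℝ := ((Nat.gcd t d : ℕ) : ℝ) with hu
        set v : ℝ := ((t / Nat.gcd t d : ℕ) : ℝ) with hv
        have hv0 : 0 < v := by
          rw [hv]
          exact_mod_cast ht'0
        have hu0 : 0 < u := by
          rw [hu]
          exact_mod_cast htd
        calc (Nat.totient t : ℝ) * (|YY z d d₁ t| * |YY z d d₂ t|) ≤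
            (u * v) * ((tau d / (GG z * v * d₁)) * (tau d / (GG z * v * d₂))) := by
              refine mul_le_mul h3 (mul_le_mul hy1 hy2 (abs_nonneg _) (by positivity))
                (by positivity) (by positivity)
          _ = tau d ^ 2 / (GG z ^ 2 * (d₁ * d₂)) * (u / v) := by
              field_simp
      · rw [if_neg hB] at hy2
        have h3 : |YY z d d₂ t| = 0 := le_antisymm hy2 (abs_nonneg _)
        rw [h3, mul_zero, mul_zero]
        split_ifs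
        · positivity
        · exact le_refl _
    · rw [if_neg hA] at hy1
      have h3 : |YY z d d₁ t| = 0 := le_antisymm hy1 (abs_nonneg _)
      rw [h3, zero_mul, mul_zero]
      split_ifs
      · positivity
      · exact le_refl _
  refine (Finset.abs_sum_le_sum_abs _ _).trans ((Finset.sum_le_sum hterm).trans ?_)
  rw [← Finset.sum_filter, ← Finset.mul_sum]
  refine (mul_le_mul_of_nonneg_left (SelW_sum hd hgd) (by positivity)).trans ?_
  refine le_of_eq ?_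
  rw [div_mul_eq_mul_div, div_eq_div_iff (by positivity) (by positivity)]
  rw [← hgl]
  ring

theorem sel_w {z d : ℕ} (hz : 1 ≤ z) (hd : 1 ≤ d) : |WW z d| ≤ tau d ^ 5 / (d * GG z) := by
  have hG := gg_pos hz
  have hdr : (0 : ℝ) < d := by exact_mod_cast hd
  have htau := tau_nonneg d
  rw [SelW_eq hd]
  have h1 : ∀ d₁ ∈ d.divisors, |∑ d₂ ∈ d.divisors, if Nat.lcm d₁ d₂ = d then
        ∑ t ∈ Finset.Icc 1 z, (Nat.totient t : ℝ) * (YY z d d₁ t * YY z d d₂ t) else 0| ≤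
      ∑ d₂ ∈ d.divisors, tau d ^ 3 / (d * GG z) := by
    intro d₁ hd₁
    refine (Finset.abs_sum_le_sum_abs _ _).trans (Finset.sum_le_sum fun d₂ hd₂ => ?_)
    split_ifs with h
    · exact SelW_pair hz hd (Nat.dvd_of_mem_divisors hd₁) (Nat.dvd_of_mem_divisors hd₂) h
    · rw [abs_zero]
      positivity
  refine (Finset.abs_sum_le_sum_abs _ _).trans ((Finset.sum_le_sum h1).trans ?_)
  rw [Finset.sum_const, Finset.sum_const, nsmul_eq_mul, nsmul_eq_mul]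
  refine le_of_eq ?_
  unfold tau
  ring

end Pool.MPb9430d.NT
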