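import Pool.Agent.Lib.MP_b9430d_co.NT.Defs
import Pool.Agent.Lib.MP_b9430d_co.NT.NuS
import Pool.Agent.Lib.MP_b9430d_co.NT.SelW
import Pool.Agent.Lib.MP_b9430d_co.NT.RpG

/-!
# CfS: the bound of the Fourier coefficients

`cf_gS`, `sel_w` with `d = q / gcd q a` (`tau d ≤ tau q`, `1/d = gcd q a / q`), then `rp_gcd`:
`|cf| ≤ C τ(q)⁵ / (q G) Σ_a (rp a / a) gcd q a ≤ C τ(q)⁵ / (q G) · 4 τ(q)⁵ · 8 (1 + log A)`.
-/

set_option autoImplicit false

open MeasureTheory Complex Set Real Filter Topology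
open scoped ENNReal

namespace Pool.MPb9430d.NT

open Pool.MPb9430d Pool.MPb9430d.Rough Pool.MPb9430d.Frac Pool.MPb9430d.Mom
open Pool.Agent.Lib.DG (rp nq)

theorem cf_s {C : ℝ} (hC : 0 ≤ C) {A z Q q : ℕ} (hA : 1 ≤ A) (hz : 1 ≤ z) (hQ : A * z ^ 2 ≤ Q)
    (hq : 1 ≤ q) : |cf (gS C A z) Q q| ≤ 32 * C * tau q ^ 10 * (1 + Real.log A) / (q * GG z) := by
  have hG : 0 ≤ GG z := by
    unfold GG
    exact Finset.sum_nonneg fun k _ => by positivity
  have hq0 : (0 : ℝ) < q := by exact_mod_cast hq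
  have ht : 0 ≤ tau q := tau_nonneg q
  rw [cf_gS C hQ hq, abs_mul, abs_of_nonneg hC]
  have h1 : |∑ a ∈ Finset.Icc 1 A, (rp a : ℝ) / a * WW z (q / Nat.gcd q a)| ≤
      ∑ a ∈ Finset.Icc 1 A, (rp a : ℝ) / a * (Nat.gcd q a : ℝ) * (tau q ^ 5 / (q * GG z)) := by
    refine (Finset.abs_sum_le_sum_abs _ _).trans (Finset.sum_le_sum fun a _ => ?_)
    have hg : Nat.gcd q a ∣ q := Nat.gcd_dvd_left q a
    have hg0 : 0 < Nat.gcd q a := Nat.gcd_pos_of_pos_left a (by omega)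
    have hd : 1 ≤ q / Nat.gcd q a := Nat.div_pos (Nat.le_of_dvd (by omega) hg) hg0
    have h2 := sel_w hz hd
    have h3 : tau (q / Nat.gcd q a) ≤ tau q := tau_dvd hq (Nat.div_dvd_of_dvd hg)
    have hg0' : (0 : ℝ) < Nat.gcd q a := by exact_mod_cast hg0
    have hc : ((q / Nat.gcd q a : ℕ) : ℝ) = (q : ℝ) / (Nat.gcd q a : ℝ) :=
      Nat.cast_div hg hg0'.ne'
    have h4 : tau (q / Nat.gcd q a) ^ 5 / (((q / Nat.gcd q a : ℕ) : ℝ) * GG z) ≤
        (Nat.gcd q a : ℝ) * (tau q ^ 5 / (q * GG z)) := by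
      have e1 : tau (q / Nat.gcd q a) ^ 5 / (((q / Nat.gcd q a : ℕ) : ℝ) * GG z) =
          (Nat.gcd q a : ℝ) * (tau (q / Nat.gcd q a) ^ 5 / (q * GG z)) := by
        rw [hc]
        rcases eq_or_lt_of_le hG with h0 | h0
        · rw [← h0]; simp
        · field_simp
      rw [e1]
      apply mul_le_mul_of_nonneg_left _ hg0'.le
      apply div_le_div_of_nonneg_right _ (by positivity)
      exact pow_le_pow_left₀ (tau_nonneg _) h3 5
    have hr : (0 : ℝ) ≤ (rp a : ℝ) / a := by positivity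
    rw [abs_mul, abs_of_nonneg hr, mul_assoc]
    exact mul_le_mul_of_nonneg_left (h2.trans h4) hr
  have h5 := rp_gcd hA hq
  rw [← Finset.sum_mul] at h1
  have hk : 0 ≤ tau q ^ 5 / (q * GG z) := by positivity
  calc C * |∑ a ∈ Finset.Icc 1 A, (rp a : ℝ) / a * WW z (q / Nat.gcd q a)|
      ≤ C * ((4 * tau q ^ 5 * (8 + 8 * Real.log A)) * (tau q ^ 5 / (q * GG z))) :=
        mul_le_mul_of_nonneg_left (h1.trans (mul_le_mul_of_nonneg_right h5 hk)) hC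
    _ = 32 * C * tau q ^ 10 * (1 + Real.log A) / (q * GG z) := by ring

end Pool.MPb9430d.NT
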