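import Pool.Agent.Lib.MP_b9430d_co.Mom.Defs
import Pool.Agent.Lib.MP_1a9bf8_co.REP

/-!
# Measurable Steinhaus sets, full solution: definitions of the number theory part

Paper proof: /team-store/STEIN_NT.md. `rp m` is the number of pairs of integers with `a² + b² = m`
(`Pool/Agent/Lib/MP_1a9bf8_co/REP.lean`), `nq p = p.1² + p.2²`.
-/

set_option autoImplicit false

open MeasureTheory Complex Set Real Filter Topology
open scoped ENNReal

namespace Pool.MPb9430d.NT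

open Pool.MPb9430d Pool.MPb9430d.Rough Pool.MPb9430d.Frac Pool.MPb9430d.Mom
open Pool.Agent.Lib.DG (rp nq)

/-- The number of divisors as a real number. -/
noncomputable def tau (n : ℕ) : ℝ := (n.divisors.card : ℝ)

/-- `ν(m) = Σ_{q ≤ Q, q | m} g(q)` for an integer `m`. -/
noncomputable def nu (g : ℕ → ℝ) (Q : ℕ) (m : ℤ) : ℝ :=
  ∑ q ∈ (Finset.Icc 1 Q).filter (fun q : ℕ => (q : ℤ) ∣ m), g q

/-- The Fourier coefficient of `nu g Q` at the fractions with denominator `q`: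
`Σ_{q' ≤ Q, q | q'} g(q') / q'`. -/
noncomputable def cf (g : ℕ → ℝ) (Q q : ℕ) : ℝ :=
  ∑ q' ∈ (Finset.Icc 1 Q).filter (fun q' : ℕ => q ∣ q'), g q' / q'

/-- `nu g Q` is nonnegative on the integers, majorises `rp` on `T ∩ [lo, hi]`, and its Fourier coefficients
at the fractions of denominator `q` are at most `Λ q^(-0.99)`. -/
structure Maj (T : Set ℕ) (lo hi Λ : ℝ) (Q : ℕ) (g : ℕ → ℝ) : Prop where
  nonneg : ∀ m : ℤ, 0 ≤ nu g Q m
  maj : ∀ m : ℕ, m ∈ T → lo ≤ m → (m : ℝ) ≤ hi → (rp m : ℝ) ≤ nu g Q m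
  coef : ∀ q : ℕ, 1 ≤ q → |cf g Q q| ≤ Λ * (q : ℝ) ^ (-(99 / 100) : ℝ)

/-- The `y`-smooth part of `m`. -/
noncomputable def smp (y : ℝ) (m : ℕ) : ℕ :=
  ∏ p ∈ m.primeFactors.filter (fun p : ℕ => (p : ℝ) ≤ y), p ^ m.factorization p

/-- The typical numbers: `m ≥ 1` whose `m^d`-smooth part is at most `m^(2/10^6)`. -/
def Typ (d : ℝ) : Set ℕ := {m | 1 ≤ m ∧ (smp ((m : ℝ) ^ d) m : ℝ) ≤ (m : ℝ) ^ (2 / 10 ^ 6 : ℝ)}

open Classical in
/-- The mean over all rotations of the sum of `g` over the points of norm (squared modulus) in `T` of the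
rotated lattice through `y`. -/
noncomputable def ST (T : Set ℕ) (g : ℂ → ℝ≥0∞) (y : ℂ) : ℝ≥0∞ :=
  ENNReal.ofReal (2 * π)⁻¹ * ∫⁻ θ in Ioc (-π) π, ∑' p : ℤ × ℤ,
    (if nq p ∈ T then g (y + rot θ * lat p) else 0)

/-- `G(z) = Σ_{k ≤ z squarefree} 1/k`. -/
noncomputable def GG (z : ℕ) : ℝ := ∑ k ∈ (Finset.Icc 1 z).filter Squarefree, 1 / (k : ℝ)

/-- The sieve weights `λ_e = (μ(e) e / G(z)) Σ_{k ≤ z squarefree, e | k} 1/k`. -/
noncomputable def lam (z e : ℕ) : ℝ :=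
  (ArithmeticFunction.moebius e : ℝ) * e / GG z *
    ∑ k ∈ (Finset.Icc 1 z).filter (fun k => Squarefree k ∧ e ∣ k), 1 / (k : ℝ)

/-- `W(d) = Σ_{e, f ≤ z, d | [e,f]} λ_e λ_f / [e,f]`. -/
noncomputable def WW (z d : ℕ) : ℝ :=
  ∑ e ∈ Finset.Icc 1 z, ∑ f ∈ Finset.Icc 1 z,
    if d ∣ Nat.lcm e f then lam z e * lam z f / (Nat.lcm e f : ℝ) else 0

/-- `Y(d₁, t) = Σ_{e ≤ z, t | e, (e,d) = d₁} λ_e / e`. -/
noncomputable def YY (z d d₁ t : ℕ) : ℝ :=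
  ∑ e ∈ (Finset.Icc 1 z).filter (fun e => t ∣ e ∧ Nat.gcd e d = d₁), lam z e / (e : ℝ)

/-- The coefficients of the sieve majorant: `g(q) = C Σ_{a ≤ A, e, f ≤ z, a [e,f] = q} r(a) λ_e λ_f`. -/
noncomputable def gS (C : ℝ) (A z q : ℕ) : ℝ :=
  C * ∑ a ∈ Finset.Icc 1 A, ∑ e ∈ Finset.Icc 1 z, ∑ f ∈ Finset.Icc 1 z,
    if a * Nat.lcm e f = q then (rp a : ℝ) * (lam z e * lam z f) else 0

theorem one_le_tau {n : ℕ} (hn : 1 ≤ n) : 1 ≤ tau n := by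
  unfold tau
  have h : 0 < n.divisors.card := Finset.card_pos.2 ⟨1, Nat.one_mem_divisors.2 (by omega)⟩
  exact_mod_cast h

theorem tau_nonneg (n : ℕ) : 0 ≤ tau n := by
  unfold tau
  positivity

theorem tau_dvd {m n : ℕ} (hn : 1 ≤ n) (h : m ∣ n) : tau m ≤ tau n := by
  unfold tau
  exact_mod_cast Finset.card_le_card (Nat.divisors_subset_of_dvd (by omega) h)

end Pool.MPb9430d.NT
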