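import Pool.Agent.Lib.MP_b9430d_co.NT.Defs
import Pool.Agent.Lib.MP_b9430d_co.NT.TauL

/-!
# DivW: a small divisor with many divisors (Wolke, Landreau)

Induction on `K`. `K = 0`: `n < 1` is impossible. Step `K → K + 1`, `n < E^(K+1)`: if `n < E` take `a = n` when `K + 1 ≥ 1`
(`n ≤ E ≤ E²`, `tau n ≤ (2 tau n)^(K+1)` because `1 ≤ 2 tau n`). Otherwise `n ≥ E`: let `d` be the smallest divisor
of `n` with `d ≥ E` (`n` is one), `n' = n / d`, `n' < E^K` (as `d ≥ E`), so there is `a' ∣ n'` with `a' ≤ E²` and
`tau n' ≤ (2 tau a')^K`.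
* `d` prime: `tau n ≤ tau d tau n' = 2 tau n' ≤ 2 (2 tau a')^K ≤ (2 tau a')^(K+1)`, `a = a'` (`d = 1` only if `E = 1`: then
  `tau n ≤ tau n'`, the same `a`).
* `d` not prime, `d > 1`: `d = p e` with `p` prime, `1 < p, e < d`; both are divisors of `n` smaller than `d`, so `p, e < E` and
  `d < E²`. Take `a` = the one of `d`, `a'` with the larger `tau`: `tau n ≤ tau d (2 tau a')^K ≤ (2 tau a)^(K+1)`.
-/

set_option autoImplicit false

open MeasureTheory Complex Set Real Filter Topology
open scoped ENNReal

namespace Pool.MPb9430d.NT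

open Pool.MPb9430d Pool.MPb9430d.Rough Pool.MPb9430d.Frac Pool.MPb9430d.Mom
open Pool.Agent.Lib.DG (rp nq)

theorem div_w {E : ℝ} (hE : 1 ≤ E) : ∀ (K n : ℕ), 1 ≤ n → (n : ℝ) < E ^ K →
    ∃ a : ℕ, a ∣ n ∧ (a : ℝ) ≤ E ^ 2 ∧ tau n ≤ (2 * tau a) ^ K := by
  intro K
  induction K with
  | zero =>
    intro n hn h
    rw [pow_zero] at h
    have : (1 : ℝ) ≤ n := by exact_mod_cast hn
    linarith
  | succ K ih =>
    intro n hn h
    have hE0 : 0 < E := by linarith
    rcases lt_or_ge (n : ℝ) E with h1 | h1
    · refine ⟨n, dvd_rfl, ?_, ?_⟩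
      · nlinarith
      · have h2 := one_le_tau hn
        calc tau n ≤ 2 * tau n := by linarith
          _ ≤ (2 * tau n) ^ (K + 1) := le_self_pow₀ (by linarith) (by omega)
    · -- the smallest divisor which is at least `E`
      have hne : (n.divisors.filter (fun d : ℕ => E ≤ (d : ℝ))).Nonempty :=
        ⟨n, Finset.mem_filter.2 ⟨Nat.mem_divisors_self n (by omega), h1⟩⟩
      obtain ⟨d, hd, hmin⟩ := Finset.exists_min_image (n.divisors.filter (fun d : ℕ => E ≤ (d : ℝ))) (fun d => d) hne
      rw [Finset.mem_filter, Nat.mem_divisors] at hd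
      obtain ⟨⟨hdn, _⟩, hdE⟩ := hd
      obtain ⟨n', hn'⟩ := hdn
      have hd1 : 1 ≤ d := by
        rcases Nat.eq_zero_or_pos d with h0 | h0
        · rw [h0, zero_mul] at hn'
          omega
        · exact h0
      have hn'1 : 1 ≤ n' := by
        rcases Nat.eq_zero_or_pos n' with h0 | h0
        · rw [h0, mul_zero] at hn'
          omega
        · exact h0
      have hlt : (n' : ℝ) < E ^ K := by
        have e1 : (n : ℝ) = d * n' := by rw [hn']; push_cast; ring
        rw [e1, pow_succ] at h
        have h0 : (0 : ℝ) < n' := by exact_mod_cast hn'1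
        by_contra hc
        have hc' : E ^ K ≤ (n' : ℝ) := not_lt.1 hc
        have h2 : E ^ K * E ≤ (d : ℝ) * n' := by
          rw [mul_comm (d : ℝ)]
          exact mul_le_mul hc' hdE hE0.le h0.le
        linarith
      obtain ⟨a', ha'd, ha'E, ha'⟩ := ih n' hn'1 hlt
      have ha'1 : 1 ≤ a' := Nat.pos_of_dvd_of_pos ha'd hn'1
      have ht : 1 ≤ tau a' := one_le_tau ha'1
      have hpow : (0 : ℝ) ≤ (2 * tau a') ^ K := by positivity
      have hmul : tau n ≤ tau d * (2 * tau a') ^ K := by
        rw [hn']
        exact (tau_mul_le d n').trans (mul_le_mul_of_nonneg_left ha' (tau_nonneg d))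
      have ha'n : a' ∣ n := by
        rw [hn']
        exact ha'd.trans (dvd_mul_left _ _)
      have hsmall : tau d ≤ 2 → ∃ a : ℕ, a ∣ n ∧ (a : ℝ) ≤ E ^ 2 ∧ tau n ≤ (2 * tau a) ^ (K + 1) := by
        intro h2
        refine ⟨a', ha'n, ha'E, hmul.trans ?_⟩
        rw [pow_succ, mul_comm]
        exact mul_le_mul_of_nonneg_left (by linarith) hpow
      rcases Nat.eq_or_lt_of_le hd1 with h2 | h2
      · apply hsmall
        rw [← h2]
        unfold tau
        norm_num
      · by_cases hp : d.Prime
        · apply hsmall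
          have := tau_prime_pow hp 1
          rw [pow_one] at this
          rw [this]
          norm_num
        · -- `d` is the product of two smaller divisors
          have hpf : d.minFac.Prime := Nat.minFac_prime (by omega)
          obtain ⟨e, he⟩ := Nat.minFac_dvd d
          have hlt1 : d.minFac < d := (Nat.not_prime_iff_minFac_lt h2).1 hp
          have he0 : 1 ≤ e := by
            rcases Nat.eq_zero_or_pos e with h0 | h0
            · rw [h0, mul_zero] at he
              omega
            · exact h0
          have hlt2 : e < d := by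
            have h3 := hpf.two_le
            calc e < 2 * e := by omega
              _ ≤ d.minFac * e := Nat.mul_le_mul_right e h3
              _ = d := he.symm
          have hb : ∀ c : ℕ, c ∣ d → c < d → (c : ℝ) < E := by
            intro c hc hcd
            by_contra hcE
            have hcE' : E ≤ (c : ℝ) := not_lt.1 hcE
            have h4 := hmin c (Finset.mem_filter.2 ⟨Nat.mem_divisors.2
              ⟨hc.trans ⟨n', hn'⟩, by omega⟩, hcE'⟩)
            omega
          have hp1 := hb d.minFac (Nat.minFac_dvd d) hlt1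
          have he1 := hb e ⟨d.minFac, by rw [mul_comm]; exact he⟩ hlt2
          have hd2 : (d : ℝ) ≤ E ^ 2 := by
            have e1 : (d : ℝ) = (d.minFac : ℝ) * e := by exact_mod_cast he
            rw [e1, sq]
            exact mul_le_mul hp1.le he1.le (Nat.cast_nonneg _) hE0.le
          rcases le_total (tau d) (tau a') with h5 | h5
          · refine ⟨a', ha'n, ha'E, hmul.trans ?_⟩
            rw [pow_succ, mul_comm]
            exact mul_le_mul_of_nonneg_left (by linarith) hpow
          · refine ⟨d, ⟨n', hn'⟩, hd2, hmul.trans ?_⟩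
            rw [pow_succ, mul_comm]
            have h6 : (2 * tau a') ^ K ≤ (2 * tau d) ^ K :=
              pow_le_pow_left₀ (by linarith) (by linarith) K
            have h7 : (0 : ℝ) ≤ (2 * tau d) ^ K := hpow.trans h6
            exact mul_le_mul h6 (by linarith) (by linarith) h7

end Pool.MPb9430d.NT
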