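import Pool.Agent.Lib.MP_b9430d_co.NT.Defs
import Pool.Agent.Lib.MP_b9430d_co.Mom.FFp

/-!
# FFg: the sum of the circle means for all `N > 0`

`N ≥ 1`: `ff_sub_one`. `N < 1`: `ff_poisson`, `|bes| ≤ 1` (see Frac/BesA or PoiC), `gh N ≤ gh 1` termwise, so `FF N u ≤ Σ' gh 1 (lat q) =: C` (`summable_gh`).
-/

set_option autoImplicit false

open MeasureTheory Complex Set Real Filter Topology
open scoped ENNReal

namespace Pool.MPb9430d.NT

open Pool.MPb9430d Pool.MPb9430d.Rough Pool.MPb9430d.Frac Pool.MPb9430d.Mom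
open Pool.Agent.Lib.DG (rp nq)

private theorem FFg_small {N : ℝ} (hN : 0 < N) (hN1 : N ≤ 1) (u : ℂ) :
    FF N u ≤ ∑' q : ℤ × ℤ, gh 1 (lat q) := by
  have hb : ∀ q : ℤ × ℤ, ‖gh N (lat q) * bes (‖lat q‖ * ‖u‖)‖ ≤ gh 1 (lat q) := by
    intro q
    have h1 : gh N (lat q) ≤ gh 1 (lat q) := by
      unfold gh
      apply Real.exp_le_exp.mpr
      have hp : 0 ≤ π * ‖lat q‖ ^ 2 := by positivity
      have h2 : π * ‖lat q‖ ^ 2 / 1 ^ 2 ≤ π * ‖lat q‖ ^ 2 / N ^ 2 := by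
        apply div_le_div_of_nonneg_left hp (by positivity)
        nlinarith
      linarith
    rw [norm_mul, Real.norm_eq_abs, Real.norm_eq_abs, abs_of_pos (gh_pos N _)]
    exact (mul_le_of_le_one_right (gh_pos N _).le (abs_bes_le_one _)).trans h1
  rw [ff_poisson hN u]
  have h3 := tsum_of_norm_bounded (summable_gh one_pos).hasSum hb
  rw [Real.norm_eq_abs] at h3
  exact (le_abs_self _).trans h3

theorem ff_gen : ∃ C : ℝ, 0 < C ∧ ∀ N : ℝ, 0 < N → ∀ u : ℂ, u ≠ 0 →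
    FF N u ≤ C * (1 + N ^ 2 / √‖u‖) := by
  have hC0 : 0 ≤ ∑' q : ℤ × ℤ, gh 1 (lat q) := tsum_nonneg fun q => (gh_pos 1 _).le
  refine ⟨32 + ∑' q : ℤ × ℤ, gh 1 (lat q), by linarith, fun N hN u hu => ?_⟩
  have hu0 : 0 < ‖u‖ := norm_pos_iff.2 hu
  have hs0 : 0 < √‖u‖ := Real.sqrt_pos.2 hu0
  have hX : 0 ≤ N ^ 2 / √‖u‖ := by positivity
  rcases le_total 1 N with h | h
  · have h1 := (abs_le.mp (ff_sub_one h hu)).2
    have h2 : 32 * N ^ 2 / √‖u‖ = 32 * (N ^ 2 / √‖u‖) := by ring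
    rw [h2] at h1
    nlinarith [mul_nonneg hC0 hX]
  · have h1 := FFg_small hN h u
    nlinarith [mul_nonneg hC0 hX]

end Pool.MPb9430d.NT
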