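import Pool.Agent.Lib.MP_b9430d_co.NT.Defs
import Pool.Agent.Lib.Sieve.Mertens

/-!
# FirM: the first moment of the logarithm of the smooth part

`a = 1`: `16 Σ_{l ≤ z} log l / l ≤ 16 (log z + log 4)` (Pool/Agent/Lib/Sieve/Mertens.lean line 13). `a ≥ 2`: `l^a ≥ l² 2^(a-2)`, so the inner sum is at most
`(log l / l²) Σ_{a ≥ 2} (a+1)⁴ / 2^(a-2) = C log l / l²` (any bound of the finite sums `Σ_{a ≤ M} (a+1)⁴/2^a` by a constant, e.g. summability of `n^4 (1/2)^n`), and `Σ log l / l² ≤ Σ 2 √l / l²` is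
bounded (`Real.log_le...`, summability of `l^(-3/2)`).
-/

set_option autoImplicit false

open MeasureTheory Complex Set Real Filter Topology
open scoped ENNReal

namespace Pool.MPb9430d.NT

open Pool.MPb9430d Pool.MPb9430d.Rough Pool.MPb9430d.Frac Pool.MPb9430d.Mom
open Pool.Agent.Lib.DG (rp nq)

private theorem FirM_inner : ∃ S : ℝ, 0 ≤ S ∧ ∀ l M : ℕ, 2 ≤ l →
    ∑ a ∈ Finset.Icc 1 M, (((a : ℝ) + 1) ^ 4 / (l : ℝ) ^ a) ≤ 16 / (l : ℝ) + S / (l : ℝ) ^ 2 := by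
  have h0 : Summable (fun n : ℕ => (n : ℝ) ^ 4 * (1 / 2 : ℝ) ^ n) :=
    summable_pow_mul_geometric_of_norm_lt_one 4 (by norm_num)
  have h1 : Summable (fun n : ℕ => ((n + 1 : ℕ) : ℝ) ^ 4 * (1 / 2 : ℝ) ^ (n + 1)) :=
    (summable_nat_add_iff 1).2 h0
  have hs : Summable (fun a : ℕ => 4 * (((a : ℝ) + 1) ^ 4 / 2 ^ a)) := by
    refine (h1.mul_left 8).congr fun n => ?_
    push_cast
    rw [pow_succ (1 / 2 : ℝ) n, one_div, inv_pow]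
    field_simp
    ring
  have hnn : ∀ a : ℕ, 0 ≤ 4 * (((a : ℝ) + 1) ^ 4 / 2 ^ a) := fun a => by positivity
  refine ⟨∑' a : ℕ, 4 * (((a : ℝ) + 1) ^ 4 / 2 ^ a), tsum_nonneg hnn, fun l M hl => ?_⟩
  have hlr : (2 : ℝ) ≤ l := by exact_mod_cast hl
  have hl0 : (0 : ℝ) < l := by linarith
  have hterm : ∀ a ∈ Finset.Icc 1 M, (((a : ℝ) + 1) ^ 4 / (l : ℝ) ^ a) ≤
      (if a = 1 then 16 / (l : ℝ) else 0) + (4 * (((a : ℝ) + 1) ^ 4 / 2 ^ a)) / (l : ℝ) ^ 2 := by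
    intro a ha
    have ha1 := (Finset.mem_Icc.1 ha).1
    by_cases h : a = 1
    · subst h
      rw [if_pos rfl]
      have : (0 : ℝ) ≤ (4 * ((((1 : ℕ) : ℝ) + 1) ^ 4 / 2 ^ 1)) / (l : ℝ) ^ 2 := by positivity
      have h2 : ((((1 : ℕ) : ℝ) + 1) ^ 4 / (l : ℝ) ^ 1) = 16 / (l : ℝ) := by
        norm_num
      rw [h2]
      linarith
    · rw [if_neg h, zero_add]
      obtain ⟨b, rfl⟩ : ∃ b, a = b + 2 := ⟨a - 2, by omega⟩
      have h2 : (2 : ℝ) ^ b ≤ (l : ℝ) ^ b := pow_le_pow_left₀ (by norm_num) hlr b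
      have h3 : (4 * ((((b + 2 : ℕ) : ℝ) + 1) ^ 4 / 2 ^ (b + 2))) / (l : ℝ) ^ 2 =
          (((b + 2 : ℕ) : ℝ) + 1) ^ 4 / ((2 : ℝ) ^ b * (l : ℝ) ^ 2) := by
        rw [pow_add (2 : ℝ) b 2]
        field_simp
        ring
      rw [h3, pow_add (l : ℝ) b 2]
      exact div_le_div_of_nonneg_left (by positivity) (by positivity)
        (mul_le_mul_of_nonneg_right h2 (by positivity))
  refine (Finset.sum_le_sum hterm).trans ?_
  rw [Finset.sum_add_distrib, ← Finset.sum_div]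
  refine add_le_add ?_ ?_
  · rw [Finset.sum_ite_eq']
    split_ifs
    · exact le_refl _
    · positivity
  · refine div_le_div_of_nonneg_right ?_ (by positivity)
    exact hs.sum_le_tsum _ (fun a _ => hnn a)

theorem fir_m : ∃ C : ℝ, 0 < C ∧ ∀ z M : ℕ, 1 ≤ z →
    ∑ l ∈ (Finset.Icc 1 z).filter Nat.Prime, ∑ a ∈ Finset.Icc 1 M,
      Real.log l * (((a : ℝ) + 1) ^ 4 / (l : ℝ) ^ a) ≤ 16 * Real.log z + C := by
  obtain ⟨S, hS0, hS⟩ := FirM_inner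
  have hsum : Summable (fun n : ℕ => 2 * S * (n : ℝ) ^ (-(3 / 2) : ℝ)) :=
    (Real.summable_nat_rpow.2 (by norm_num)).mul_left _
  have hnn : ∀ n : ℕ, 0 ≤ 2 * S * (n : ℝ) ^ (-(3 / 2) : ℝ) := fun n => by positivity
  refine ⟨16 * Real.log 4 + ∑' n : ℕ, 2 * S * (n : ℝ) ^ (-(3 / 2) : ℝ), ?_, fun z M hz => ?_⟩
  · have h4 : 0 < Real.log 4 := Real.log_pos (by norm_num)
    have h5 : 0 ≤ ∑' n : ℕ, 2 * S * (n : ℝ) ^ (-(3 / 2) : ℝ) := tsum_nonneg hnn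
    linarith
  have hl : ∀ l ∈ (Finset.Icc 1 z).filter Nat.Prime, ∑ a ∈ Finset.Icc 1 M,
      Real.log l * (((a : ℝ) + 1) ^ 4 / (l : ℝ) ^ a) ≤
      16 * (Real.log l / l) + 2 * S * (l : ℝ) ^ (-(3 / 2) : ℝ) := by
    intro l hl
    have hp := (Finset.mem_filter.1 hl).2
    have hl2 := hp.two_le
    have hlr : (2 : ℝ) ≤ l := by exact_mod_cast hl2
    have hl0 : (0 : ℝ) < l := by linarith
    have hlog0 : 0 ≤ Real.log l := Real.log_nonneg (by linarith)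
    rw [← Finset.mul_sum]
    refine (mul_le_mul_of_nonneg_left (hS l M hl2) hlog0).trans ?_
    rw [mul_add]
    refine add_le_add (le_of_eq (by ring)) ?_
    have h1 : Real.log l ≤ (l : ℝ) ^ (1 / 2 : ℝ) / (1 / 2) := Real.log_le_rpow_div hl0.le (by norm_num)
    have h2 : (l : ℝ) ^ (-(3 / 2) : ℝ) = (l : ℝ) ^ (1 / 2 : ℝ) / (l : ℝ) ^ 2 := by
      rw [← Real.rpow_natCast (l : ℝ) 2, ← Real.rpow_sub hl0]
      norm_num
    rw [h2]
    calc Real.log l * (S / (l : ℝ) ^ 2) ≤ ((l : ℝ) ^ (1 / 2 : ℝ) / (1 / 2)) * (S / (l : ℝ) ^ 2) :=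
          mul_le_mul_of_nonneg_right h1 (by positivity)
      _ = 2 * S * ((l : ℝ) ^ (1 / 2 : ℝ) / (l : ℝ) ^ 2) := by ring
  refine (Finset.sum_le_sum hl).trans ?_
  rw [Finset.sum_add_distrib, ← Finset.mul_sum]
  have hm := Pool.Agent.Lib.Sieve.sum_log_div_le z hz
  have ht : ∑ l ∈ (Finset.Icc 1 z).filter Nat.Prime, 2 * S * (l : ℝ) ^ (-(3 / 2) : ℝ) ≤
      ∑' n : ℕ, 2 * S * (n : ℝ) ^ (-(3 / 2) : ℝ) := hsum.sum_le_tsum _ (fun a _ => hnn a)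
  linarith

end Pool.MPb9430d.NT
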