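import Pool.Agent.Lib.MP_b9430d_co.NT.Defs
import Pool.Agent.Lib.MP_b9430d_co.NT.FFg
import Pool.Agent.Lib.MP_b9430d_co.Mom.FFp

/-!
# LatC: the lattice `δ ℤ[i]`

`gau N (‖δ‖ x) = ‖δ‖⁻² gau (N ‖δ‖) x`, and the circle mean depends only on `‖z‖` (rotate: `lat δ = ‖δ‖ rot α`; a substitution in the periodic integral over `φ`, see the
lemmas on `cir` in Frac/CirA, CirB): `cir N (δ w) y = ‖δ‖⁻² cir (N ‖δ‖) w (y / ‖δ‖)`. Sum over `w`: `‖δ‖⁻² FF (N ‖δ‖) (y / ‖δ‖)`, then `ff_gen`: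
`≤ C (‖δ‖⁻² + N² (‖δ‖ / ‖y‖)^(1/2))`.
-/

set_option autoImplicit false

open MeasureTheory Complex Set Real Filter Topology
open scoped ENNReal

namespace Pool.MPb9430d.NT

open Pool.MPb9430d Pool.MPb9430d.Rough Pool.MPb9430d.Frac Pool.MPb9430d.Mom
open Pool.Agent.Lib.DG (rp nq)

private theorem LatC_gau (N : ℝ) {r : ℝ} (hr : 0 < r) (x : ℂ) :
    gau N ((r : ℂ) * x) = (r ^ 2)⁻¹ * gau (N * r) x := by
  unfold gau
  rw [norm_mul, Complex.norm_real, Real.norm_eq_abs, abs_of_pos hr]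
  have h1 : π * N ^ 2 * (r * ‖x‖) ^ 2 = π * (N * r) ^ 2 * ‖x‖ ^ 2 := by ring
  rw [h1]
  field_simp

theorem cir_scale {N : ℝ} (hN : 0 < N) {δ : ℂ} (hδ : δ ≠ 0) (w y : ℂ) :
    cir N (δ * w) y = (‖δ‖ ^ 2)⁻¹ * cir (N * ‖δ‖) w (y / (‖δ‖ : ℂ)) := by
  have hr : 0 < ‖δ‖ := norm_pos_iff.2 hδ
  have hrC : ((‖δ‖ : ℝ) : ℂ) ≠ 0 := by
    rw [Ne, Complex.ofReal_eq_zero]
    exact hr.ne'
  set h : ℝ → ℝ := fun φ => gau (N * ‖δ‖) (y / (‖δ‖ : ℂ) + rot φ * w) with hh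
  have hper : Function.Periodic h (2 * π) := by
    intro φ
    rw [hh]
    show gau (N * ‖δ‖) (y / (‖δ‖ : ℂ) + rot (φ + 2 * π) * w) =
      gau (N * ‖δ‖) (y / (‖δ‖ : ℂ) + rot φ * w)
    rw [rot_periodic]
  have hdec : δ = (‖δ‖ : ℂ) * rot (Complex.arg δ) := by
    unfold rot
    exact (Complex.norm_mul_exp_arg_mul_I δ).symm
  have h1 : ∀ φ : ℝ, gau N (y + rot φ * (δ * w)) = (‖δ‖ ^ 2)⁻¹ * h (φ + Complex.arg δ) := by
    intro φ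
    have e1 : rot (φ + Complex.arg δ) = rot φ * rot (Complex.arg δ) := by
      unfold rot
      rw [← Complex.exp_add]
      congr 1
      push_cast
      ring
    have e2 : y + rot φ * (δ * w) =
        (‖δ‖ : ℂ) * (y / (‖δ‖ : ℂ) + rot (φ + Complex.arg δ) * w) := by
      rw [e1, mul_add, mul_div_cancel₀ _ hrC]
      calc y + rot φ * (δ * w) = y + rot φ * (((‖δ‖ : ℂ) * rot (Complex.arg δ)) * w) := by
            rw [← hdec]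
        _ = _ := by ring
    rw [e2, LatC_gau N hr]
  unfold cir
  have h2 : ∫ φ in (-π)..π, gau N (y + rot φ * (δ * w)) =
      (‖δ‖ ^ 2)⁻¹ * ∫ φ in (-π)..π, h (φ + Complex.arg δ) := by
    rw [← intervalIntegral.integral_const_mul]
    exact intervalIntegral.integral_congr fun φ _ => h1 φ
  have h3 : ∫ φ in (-π)..π, h (φ + Complex.arg δ) = ∫ φ in (-π)..π, h φ := by
    rw [intervalIntegral.integral_comp_add_right]
    have h4 := hper.intervalIntegral_add_eq (-π + Complex.arg δ) (-π)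
    have e3 : -π + Complex.arg δ + 2 * π = π + Complex.arg δ := by ring
    have e4 : -π + 2 * π = π := by ring
    rw [e3, e4] at h4
    exact h4
  rw [h2, h3, hh]
  ring

theorem lat_mass : ∃ C : ℝ, 0 < C ∧ ∀ N : ℝ, 0 < N → ∀ y : ℂ, y ≠ 0 → ∀ δ : ℂ, δ ≠ 0 →
    ∀ S : Finset (ℤ × ℤ), ∑ w ∈ S, cir N (δ * lat w) y ≤
      C * (1 / ‖δ‖ ^ 2 + N ^ 2 * √‖δ‖ / √‖y‖) := by
  obtain ⟨C, hC, hff⟩ := ff_gen
  refine ⟨C, hC, fun N hN y hy δ hδ S => ?_⟩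
  have hr : 0 < ‖δ‖ := norm_pos_iff.2 hδ
  have hrC : ((‖δ‖ : ℝ) : ℂ) ≠ 0 := by
    rw [Ne, Complex.ofReal_eq_zero]
    exact hr.ne'
  have hyn : 0 < ‖y‖ := norm_pos_iff.2 hy
  have hNr : 0 < N * ‖δ‖ := mul_pos hN hr
  have hu : y / (‖δ‖ : ℂ) ≠ 0 := div_ne_zero hy hrC
  have h1 : ∑ w ∈ S, cir N (δ * lat w) y =
      (‖δ‖ ^ 2)⁻¹ * ∑ w ∈ S, cir (N * ‖δ‖) (lat w) (y / (‖δ‖ : ℂ)) := by
    rw [Finset.mul_sum]
    exact Finset.sum_congr rfl fun w _ => cir_scale hN hδ _ _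
  have h2 : ∑ w ∈ S, cir (N * ‖δ‖) (lat w) (y / (‖δ‖ : ℂ)) ≤ FF (N * ‖δ‖) (y / (‖δ‖ : ℂ)) := by
    unfold FF
    exact (summable_cir hNr _).sum_le_tsum S fun w _ => cir_nonneg _ _ _
  have h3 := hff (N * ‖δ‖) hNr _ hu
  have h4 : ‖y / (‖δ‖ : ℂ)‖ = ‖y‖ / ‖δ‖ := by
    rw [norm_div, Complex.norm_real, Real.norm_eq_abs, abs_of_pos hr]
  rw [h4] at h3
  have hsd : 0 < √‖δ‖ := Real.sqrt_pos.2 hr
  have hsy : 0 < √‖y‖ := Real.sqrt_pos.2 hyn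
  have h5 : √(‖y‖ / ‖δ‖) = √‖y‖ / √‖δ‖ := Real.sqrt_div hyn.le _
  rw [h5] at h3
  have hinv : 0 ≤ (‖δ‖ ^ 2)⁻¹ := by positivity
  rw [h1]
  refine (mul_le_mul_of_nonneg_left (h2.trans h3) hinv).trans (le_of_eq ?_)
  field_simp

end Pool.MPb9430d.NT
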