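import Pool.Agent.Lib.MP_b9430d_co.NT.Defs
import Pool.Agent.Lib.MP_b9430d_co.NT.LatC
import Pool.Agent.Lib.MP_b9430d_co.NT.GauD

/-!
# LatG: the lattice points with `g ∣ |p|²`

`gau_div`: every `p ∈ S` is `lat p = lat δ lat w` with `δ ∈ D`, so `Σ_{p ∈ S} ≤ Σ_{δ ∈ D} Σ_{w ∈ S_δ} cir N (lat δ lat w) y` (`cir ≥ 0`; choose `w(p)`, `S_δ` = the set of the
chosen `w`; `lat` is injective). `‖lat δ‖² = nq δ ∈ [g, g²]`, so `1/‖δ‖² ≤ 1/g`, `√‖δ‖ ≤ √g`; `lat_mass` and `card D ≤ 4 τ(g)⁴`.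
-/

set_option autoImplicit false

open MeasureTheory Complex Set Real Filter Topology
open scoped ENNReal

namespace Pool.MPb9430d.NT

open Pool.MPb9430d Pool.MPb9430d.Rough Pool.MPb9430d.Frac Pool.MPb9430d.Mom
open Pool.Agent.Lib.DG (rp nq)

theorem lat_g : ∃ C : ℝ, 0 < C ∧ ∀ N : ℝ, 0 < N → ∀ y : ℂ, y ≠ 0 → ∀ g : ℕ, 1 ≤ g →
    ∀ S : Finset (ℤ × ℤ), (∀ p ∈ S, g ∣ nq p) →
      ∑ p ∈ S, cir N (lat p) y ≤ C * tau g ^ 4 * (1 / g + N ^ 2 * √(g : ℝ) / √‖y‖) := by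
  classical
  obtain ⟨C, hC, hm⟩ := lat_mass
  refine ⟨4 * C, by positivity, fun N hN y hy g hg S hS => ?_⟩
  obtain ⟨D, hD1, hD2, hD3⟩ := gau_div hg
  have hch : ∀ p : ℤ × ℤ, ∃ q : (ℤ × ℤ) × (ℤ × ℤ), p ∈ S →
      q.1 ∈ D ∧ lat p = lat q.1 * lat q.2 := by
    intro p
    by_cases hp : p ∈ S
    · obtain ⟨δ, hδ, w, hw⟩ := hD3 p (hS p hp)
      exact ⟨(δ, w), fun _ => ⟨hδ, hw⟩⟩
    · exact ⟨(0, 0), fun h => absurd h hp⟩
  choose q hq using hch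
  have hg0 : (0 : ℝ) < g := by exact_mod_cast hg
  have hE0 : 0 ≤ 1 / (g : ℝ) + N ^ 2 * √(g : ℝ) / √‖y‖ := by positivity
  have hone : ∀ δ ∈ D, ∑ p ∈ S with (q p).1 = δ, cir N (lat p) y ≤
      C * (1 / (g : ℝ) + N ^ 2 * √(g : ℝ) / √‖y‖) := by
    intro δ hδ
    obtain ⟨h1, h2⟩ := hD2 δ hδ
    have hsq : ‖lat δ‖ ^ 2 = (nq δ : ℝ) := by
      rw [norm_lat_sq]
      unfold nq
      rw [Nat.cast_add, Nat.cast_pow, Nat.cast_pow, Nat.cast_natAbs, Nat.cast_natAbs,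
        Int.cast_abs, Int.cast_abs, sq_abs, sq_abs]
    have h1' : (g : ℝ) ≤ ‖lat δ‖ ^ 2 := by
      rw [hsq]
      exact_mod_cast h1
    have h2' : ‖lat δ‖ ^ 2 ≤ (g : ℝ) ^ 2 := by
      rw [hsq]
      exact_mod_cast h2
    have h3 : ‖lat δ‖ ≤ g := by
      exact (pow_le_pow_iff_left₀ (norm_nonneg _) hg0.le two_ne_zero).1 h2'
    have hne : lat δ ≠ 0 := by
      intro h0
      rw [h0, norm_zero] at h1'
      linarith
    have hinj : Set.InjOn (fun p => (q p).2) (S.filter (fun p => (q p).1 = δ) : Finset (ℤ × ℤ)) := by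
      intro p hp p' hp' hpp
      have g1 := Finset.mem_filter.1 (Finset.mem_coe.1 hp)
      have g2 := Finset.mem_filter.1 (Finset.mem_coe.1 hp')
      apply lat_injective
      have hpp' : (q p).2 = (q p').2 := hpp
      rw [(hq p g1.1).2, (hq p' g2.1).2, g1.2, g2.2, hpp']
    have e1 : ∑ p ∈ S with (q p).1 = δ, cir N (lat p) y =
        ∑ w ∈ (S.filter (fun p => (q p).1 = δ)).image (fun p => (q p).2),
          cir N (lat δ * lat w) y := by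
      rw [Finset.sum_image hinj]
      refine Finset.sum_congr rfl fun p hp => ?_
      have g1 := Finset.mem_filter.1 hp
      rw [(hq p g1.1).2, g1.2]
    rw [e1]
    refine (hm N hN y hy (lat δ) hne _).trans ?_
    refine mul_le_mul_of_nonneg_left ?_ hC.le
    refine add_le_add ?_ ?_
    · exact one_div_le_one_div_of_le hg0 h1'
    · refine div_le_div_of_nonneg_right ?_ (Real.sqrt_nonneg _)
      exact mul_le_mul_of_nonneg_left (Real.sqrt_le_sqrt h3) (sq_nonneg _)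
  rw [← Finset.sum_fiberwise_of_maps_to (s := S) (t := D) (g := fun p => (q p).1)
    (fun p hp => (hq p hp).1)]
  calc ∑ δ ∈ D, ∑ p ∈ S with (q p).1 = δ, cir N (lat p) y
      ≤ ∑ _δ ∈ D, C * (1 / (g : ℝ) + N ^ 2 * √(g : ℝ) / √‖y‖) := Finset.sum_le_sum hone
    _ = (D.card : ℝ) * (C * (1 / (g : ℝ) + N ^ 2 * √(g : ℝ) / √‖y‖)) := by
        rw [Finset.sum_const, nsmul_eq_mul]
    _ ≤ (4 * tau g ^ 4) * (C * (1 / (g : ℝ) + N ^ 2 * √(g : ℝ) / √‖y‖)) :=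
        mul_le_mul_of_nonneg_right hD1 (mul_nonneg hC.le hE0)
    _ = 4 * C * tau g ^ 4 * (1 / g + N ^ 2 * √(g : ℝ) / √‖y‖) := by ring

end Pool.MPb9430d.NT
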