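import Pool.Agent.Lib.MP_b9430d_co.NT.Defs
import Pool.Agent.Lib.MP_b9430d_co.NT.TauL

/-!
# TauM: moments of the divisor function

Induction on `K`. `K = 0`: `Σ_{j ≤ N} 1/j ≤ 1 + log N` (`harmonic_le_one_add_log`). Step: `τ(j)^(K+1) = Σ_{uv = j} τ(uv)^K`,
`τ(uv)^K ≤ τ(u)^K τ(v)^K` (`tau_mul_le`), so the sum for `K + 1` is at most
`Σ_{u, v ≤ N} τ(u)^K τ(v)^K / (u v)`, the square of the sum for `K`; `((1 + log N)^(2^K))² = (1 + log N)^(2^(K+1))`.
-/

set_option autoImplicit false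

open MeasureTheory Complex Set Real Filter Topology
open scoped ENNReal

namespace Pool.MPb9430d.NT

open Pool.MPb9430d Pool.MPb9430d.Rough Pool.MPb9430d.Frac Pool.MPb9430d.Mom
open Pool.Agent.Lib.DG (rp nq)

theorem tau_mom (K : ℕ) {N : ℕ} (hN : 1 ≤ N) :
    ∑ j ∈ Finset.Icc 1 N, tau j ^ K / (j : ℝ) ≤ (1 + Real.log N) ^ (2 ^ K) := by
  induction K with
  | zero =>
    have h := harmonic_le_one_add_log N
    rw [harmonic_eq_sum_Icc] at h
    push_cast at h
    simpa [one_div] using h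
  | succ K ih =>
    set P : Finset (ℕ × ℕ) := Finset.Icc 1 N ×ˢ Finset.Icc 1 N with hP
    obtain ⟨F, hF'⟩ : ∃ F : ℕ → ℝ, ∀ j, F j = tau j ^ K / (j : ℝ) := ⟨_, fun _ => rfl⟩
    have ih' : ∑ j ∈ Finset.Icc 1 N, F j ≤ (1 + Real.log N) ^ (2 ^ K) := by
      simpa only [hF'] using ih
    have hF0 : ∀ j, 0 ≤ F j := fun j => by
      rw [hF' j]; exact div_nonneg (pow_nonneg (tau_nonneg j) K) (Nat.cast_nonneg j)
    have h1 : ∀ j ∈ Finset.Icc 1 N, tau j ^ (K + 1) / (j : ℝ) ≤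
        ∑ x ∈ (P.filter (fun x => x.1 * x.2 ≤ N)).filter (fun x => x.1 * x.2 = j), F x.1 * F x.2 := by
      intro j hj
      rw [Finset.mem_Icc] at hj
      have hsub : j.divisorsAntidiagonal ⊆
          (P.filter (fun x => x.1 * x.2 ≤ N)).filter (fun x => x.1 * x.2 = j) := by
        intro x hx
        rw [Nat.mem_divisorsAntidiagonal] at hx
        obtain ⟨hx1, hx2⟩ := hx
        have hx3 : x.1 ≠ 0 := fun h => hx2 (by rw [← hx1, h, zero_mul])
        have hx4 : x.2 ≠ 0 := fun h => hx2 (by rw [← hx1, h, mul_zero])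
        have hx5 : x.1 ≤ j := by
          rw [← hx1]; exact Nat.le_mul_of_pos_right _ (Nat.pos_of_ne_zero hx4)
        have hx6 : x.2 ≤ j := by
          rw [← hx1]; exact Nat.le_mul_of_pos_left _ (Nat.pos_of_ne_zero hx3)
        simp only [hP, Finset.mem_filter, Finset.mem_product, Finset.mem_Icc]
        omega
      have h2 : tau j ^ (K + 1) / (j : ℝ) = ∑ x ∈ j.divisorsAntidiagonal, F j := by
        rw [Nat.sum_divisorsAntidiagonal (f := fun _ _ => F j), Finset.sum_const, nsmul_eq_mul]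
        have h3 : ((j.divisors.card : ℕ) : ℝ) = tau j := rfl
        rw [h3, hF' j, pow_succ]
        ring
      rw [h2]
      refine le_trans (Finset.sum_le_sum (g := fun x => F x.1 * F x.2) fun x hx => ?_)
        (Finset.sum_le_sum_of_subset_of_nonneg hsub fun x _ _ => mul_nonneg (hF0 _) (hF0 _))
      rw [Nat.mem_divisorsAntidiagonal] at hx
      rw [← hx.1, hF', hF', hF', div_mul_div_comm, ← mul_pow, Nat.cast_mul]
      exact div_le_div_of_nonneg_right (pow_le_pow_left₀ (tau_nonneg _) (tau_mul_le _ _) K)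
        (by positivity)
    have h4 : ∑ j ∈ Finset.Icc 1 N, tau j ^ (K + 1) / (j : ℝ) ≤
        ∑ x ∈ P.filter (fun x => x.1 * x.2 ≤ N), F x.1 * F x.2 := by
      refine (Finset.sum_le_sum h1).trans (le_of_eq ?_)
      apply Finset.sum_fiberwise_of_maps_to
      intro x hx
      simp only [hP, Finset.mem_filter, Finset.mem_product, Finset.mem_Icc] at hx
      rw [Finset.mem_Icc]
      exact ⟨Nat.mul_pos hx.1.1.1 hx.1.2.1, hx.2⟩
    have h5 : ∑ x ∈ P.filter (fun x => x.1 * x.2 ≤ N), F x.1 * F x.2 ≤ ∑ x ∈ P, F x.1 * F x.2 :=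
      Finset.sum_le_sum_of_subset_of_nonneg (Finset.filter_subset _ _)
        fun x _ _ => mul_nonneg (hF0 _) (hF0 _)
    have h6 : ∑ x ∈ P, F x.1 * F x.2 = (∑ j ∈ Finset.Icc 1 N, F j) ^ 2 := by
      rw [hP, Finset.sum_product, sq, Finset.sum_mul_sum]
    have h7 : (∑ j ∈ Finset.Icc 1 N, F j) ^ 2 ≤ ((1 + Real.log N) ^ (2 ^ K)) ^ 2 :=
      pow_le_pow_left₀ (Finset.sum_nonneg fun j _ => hF0 j) ih' 2
    calc ∑ j ∈ Finset.Icc 1 N, tau j ^ (K + 1) / (j : ℝ) ≤ ((1 + Real.log N) ^ (2 ^ K)) ^ 2 := by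
          linarith
      _ = (1 + Real.log N) ^ (2 ^ (K + 1)) := by rw [← pow_mul, ← pow_succ]

end Pool.MPb9430d.NT
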