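import Pool.Agent.Lib.MP_b9430d_co.NT.Defs
import Pool.Agent.Lib.MP_b9430d_co.NT.TauL
import Pool.Agent.Lib.MP_b9430d_co.NT.DivW
import Pool.Agent.Lib.MP_b9430d_co.NT.TauM

/-!
# MajF: the majorant of `rp` with logarithmic constant

Keep `K` abstract (a lemma for all `K`, instantiated once by `K = 2000000` at the end; never let Lean evaluate `2^K`).
`E = R^(5/10^6)`, `E² = R^(1/10^5)`, `E^K = R^10 > 16 R²` (`R ≥ 2`). `Q = ⌊R^(1/10^5)⌋₊ ≥ 1`,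
`g(q) = 4 · 2^K τ(q)^K ≥ 0`. Majorant: `1 ≤ m ≤ 16 R² < E^K`, `div_w` gives `a ∣ m`, `a ≤ Q`,
`rp m ≤ 4 τ(m)` (`rep_le` and `Nat.card_divisors`, see `RepB_card`/`rep_bound` in Frac/RepB.lean) `≤ 4 (2 τ(a))^K = g(a) ≤ nu g Q m`
(all terms `≥ 0`). Coefficients: `q' = q j`, `j ≤ Q`, `τ(q j)^K ≤ τ(q)^K τ(j)^K`:
`cf g Q q ≤ 2^(K+2) τ(q)^K / q · Σ_{j ≤ Q} τ(j)^K / j ≤ 2^(K+2) C_K q^(1/100) / q (1 + log Q)^(2^K)` (`tau_rpow K`, `ε = 1/100`),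
`log Q ≤ log R`; choose `C = max (2^(K+2) C_K) (2^K)` (`Real.rpow_natCast`, `Real.rpow_le_rpow_of_exponent_le`).
-/

set_option autoImplicit false

open MeasureTheory Complex Set Real Filter Topology
open scoped ENNReal

namespace Pool.MPb9430d.NT

open Pool.MPb9430d Pool.MPb9430d.Rough Pool.MPb9430d.Frac Pool.MPb9430d.Mom
open Pool.Agent.Lib.DG (rp nq)

private theorem mf_rp {m : ℕ} (hm : 1 ≤ m) : (rp m : ℝ) ≤ 4 * tau m := by
  have hm0 : m ≠ 0 := by omega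
  have h2 := Pool.Agent.Lib.DG.rep_le m hm
  have h3 : ∏ p ∈ m.primeFactors.filter (fun p => p % 4 = 1), (m.factorization p + 1) ≤ m.divisors.card := by
    rw [Nat.card_divisors hm0]
    exact Finset.prod_le_prod_of_subset_of_one_le' (Finset.filter_subset _ _) (fun _ _ _ => Nat.le_add_left _ _)
  have h5 : rp m ≤ 4 * m.divisors.card := h2.trans (Nat.mul_le_mul_left _ h3)
  unfold tau
  exact_mod_cast h5

private theorem mf_sum {q Q : ℕ} (hq : 1 ≤ q) (h : ℕ → ℝ) (h0 : ∀ n, 0 ≤ h n) :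
    ∑ q' ∈ (Finset.Icc 1 Q).filter (fun q' : ℕ => q ∣ q'), h q' ≤ ∑ j ∈ Finset.Icc 1 Q, h (q * j) := by
  have e1 : ∑ q' ∈ (Finset.Icc 1 Q).filter (fun q' : ℕ => q ∣ q'), h q' =
      ∑ q' ∈ (Finset.Icc 1 Q).filter (fun q' : ℕ => q ∣ q'), h (q * (q' / q)) := by
    apply Finset.sum_congr rfl
    intro q' hq'
    rw [Nat.mul_div_cancel' (Finset.mem_filter.1 hq').2]
  have e2 : ∑ q' ∈ (Finset.Icc 1 Q).filter (fun q' : ℕ => q ∣ q'), h (q * (q' / q)) =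
      ∑ j ∈ ((Finset.Icc 1 Q).filter (fun q' : ℕ => q ∣ q')).image (fun q' => q' / q), h (q * j) := by
    rw [Finset.sum_image]
    intro a ha b hb hab
    have h1 := (Finset.mem_filter.1 (Finset.mem_coe.1 ha)).2
    have h2 := (Finset.mem_filter.1 (Finset.mem_coe.1 hb)).2
    have h3 : a / q = b / q := hab
    rw [← Nat.mul_div_cancel' h1, ← Nat.mul_div_cancel' h2, h3]
  rw [e1, e2]
  apply Finset.sum_le_sum_of_subset_of_nonneg
  · intro j hj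
    obtain ⟨q', hq', rfl⟩ := Finset.mem_image.1 hj
    obtain ⟨h1, h2⟩ := Finset.mem_filter.1 hq'
    obtain ⟨h3, h4⟩ := Finset.mem_Icc.1 h1
    rw [Finset.mem_Icc]
    exact ⟨Nat.div_pos (Nat.le_of_dvd h3 h2) hq, (Nat.div_le_self _ _).trans h4⟩
  · intro j _ _
    exact h0 _

private theorem mf_K (K : ℕ) (hK : ∀ R : ℝ, 2 ≤ R → 16 * R ^ 2 < (R ^ (5 / 10 ^ 6 : ℝ)) ^ K) :
    ∃ C : ℝ, 0 < C ∧ ∀ R : ℝ, 2 ≤ R → ∃ g : ℕ → ℝ,
    Maj Set.univ 1 (16 * R ^ 2) (C * (1 + Real.log R) ^ C) ⌊R ^ (1 / 10 ^ 5 : ℝ)⌋₊ g := by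
  obtain ⟨CK, hCK1, hCK⟩ := tau_rpow K (show (0 : ℝ) < 1 / 100 by norm_num)
  refine ⟨max (2 ^ (K + 2) * CK) (2 ^ K), lt_of_lt_of_le (by positivity) (le_max_right _ _), fun R hR => ?_⟩
  have hR0 : 0 < R := by linarith
  have hR1 : 1 ≤ R := by linarith
  have hE1 : 1 ≤ R ^ (5 / 10 ^ 6 : ℝ) := Real.one_le_rpow hR1 (by norm_num)
  have hE2 : (R ^ (5 / 10 ^ 6 : ℝ)) ^ 2 = R ^ (1 / 10 ^ 5 : ℝ) := by
    rw [← Real.rpow_natCast, ← Real.rpow_mul hR0.le]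
    norm_num
  have hQr1 : 1 ≤ R ^ (1 / 10 ^ 5 : ℝ) := Real.one_le_rpow hR1 (by norm_num)
  have hQ1 : 1 ≤ ⌊R ^ (1 / 10 ^ 5 : ℝ)⌋₊ := Nat.le_floor (by exact_mod_cast hQr1)
  have hQR : ((⌊R ^ (1 / 10 ^ 5 : ℝ)⌋₊ : ℕ) : ℝ) ≤ R := by
    refine (Nat.floor_le (by linarith)).trans ?_
    calc R ^ (1 / 10 ^ 5 : ℝ) ≤ R ^ (1 : ℝ) := Real.rpow_le_rpow_of_exponent_le hR1 (by norm_num)
      _ = R := Real.rpow_one R
  refine ⟨fun q => 4 * (2 * tau q) ^ K, ?_, ?_, ?_⟩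
  · intro m
    unfold nu
    apply Finset.sum_nonneg
    intro q _
    have := tau_nonneg q
    positivity
  · intro m _ hm1 hm2
    have hm1' : 1 ≤ m := by exact_mod_cast hm1
    obtain ⟨a, ha, haE, hat⟩ := div_w hE1 K m hm1' (lt_of_le_of_lt hm2 (hK R hR))
    rw [hE2] at haE
    have ha1 : 1 ≤ a := Nat.pos_of_dvd_of_pos ha hm1'
    calc (rp m : ℝ) ≤ 4 * tau m := mf_rp hm1'
      _ ≤ 4 * (2 * tau a) ^ K := by linarith
      _ ≤ nu (fun q => 4 * (2 * tau q) ^ K) ⌊R ^ (1 / 10 ^ 5 : ℝ)⌋₊ m := by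
          unfold nu
          apply Finset.single_le_sum (f := fun q => 4 * (2 * tau q) ^ K) (fun q _ => by
            have := tau_nonneg q
            positivity)
          rw [Finset.mem_filter, Finset.mem_Icc]
          exact ⟨⟨ha1, Nat.le_floor haE⟩, by exact_mod_cast ha⟩
  · intro q hq
    have hq0 : (0 : ℝ) < q := by exact_mod_cast hq
    have hlR : 0 ≤ Real.log R := Real.log_nonneg hR1
    have c0 : 0 ≤ cf (fun q => 4 * (2 * tau q) ^ K) ⌊R ^ (1 / 10 ^ 5 : ℝ)⌋₊ q := by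
      unfold cf
      apply Finset.sum_nonneg
      intro q' _
      have := tau_nonneg q'
      positivity
    rw [abs_of_nonneg c0]
    have c1 : cf (fun q => 4 * (2 * tau q) ^ K) ⌊R ^ (1 / 10 ^ 5 : ℝ)⌋₊ q ≤
        ∑ j ∈ Finset.Icc 1 ⌊R ^ (1 / 10 ^ 5 : ℝ)⌋₊, 4 * (2 * tau (q * j)) ^ K / ((q * j : ℕ) : ℝ) := by
      unfold cf
      exact mf_sum hq (fun n => 4 * (2 * tau n) ^ K / (n : ℝ)) (fun n => by
        have := tau_nonneg n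
        positivity)
    have c2 : ∑ j ∈ Finset.Icc 1 ⌊R ^ (1 / 10 ^ 5 : ℝ)⌋₊, 4 * (2 * tau (q * j)) ^ K / ((q * j : ℕ) : ℝ) ≤
        ∑ j ∈ Finset.Icc 1 ⌊R ^ (1 / 10 ^ 5 : ℝ)⌋₊, (2 ^ (K + 2) * (tau q ^ K / q)) * (tau j ^ K / (j : ℝ)) := by
      apply Finset.sum_le_sum
      intro j hj
      have hj1 : 1 ≤ j := (Finset.mem_Icc.1 hj).1
      have hj0 : (0 : ℝ) < j := by exact_mod_cast hj1
      have t0 := tau_nonneg (q * j)
      have t1 := tau_mul_le q j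
      have t2 : (tau (q * j)) ^ K ≤ tau q ^ K * tau j ^ K := by
        rw [← mul_pow]
        exact pow_le_pow_left₀ t0 t1 K
      have e1 : (2 ^ (K + 2) * (tau q ^ K / q)) * (tau j ^ K / (j : ℝ)) = 4 * (2 ^ K * (tau q ^ K * tau j ^ K)) / ((q * j : ℕ) : ℝ) := by
        push_cast
        field_simp
        ring
      rw [e1, mul_pow]
      apply div_le_div_of_nonneg_right _ (by positivity)
      have : (0 : ℝ) ≤ 2 ^ K := by positivity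
      nlinarith [mul_le_mul_of_nonneg_left t2 this]
    rw [← Finset.mul_sum] at c2
    have c3 := tau_mom K hQ1
    have c4 : (1 + Real.log (⌊R ^ (1 / 10 ^ 5 : ℝ)⌋₊ : ℕ)) ^ (2 ^ K) ≤ (1 + Real.log R) ^ (2 ^ K) := by
      apply pow_le_pow_left₀
      · have : 0 ≤ Real.log (⌊R ^ (1 / 10 ^ 5 : ℝ)⌋₊ : ℕ) := Real.log_natCast_nonneg _
        linarith
      · have : Real.log (⌊R ^ (1 / 10 ^ 5 : ℝ)⌋₊ : ℕ) ≤ Real.log R :=
          Real.log_le_log (by exact_mod_cast hQ1) hQR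
        linarith
    have c5 : (1 + Real.log R) ^ (2 ^ K) ≤ (1 + Real.log R) ^ (max (2 ^ (K + 2) * CK) (2 ^ K : ℝ)) := by
      rw [← Real.rpow_natCast]
      apply Real.rpow_le_rpow_of_exponent_le (by linarith)
      push_cast
      exact le_max_right _ _
    have c6 : tau q ^ K / q ≤ CK * (q : ℝ) ^ (-(99 / 100) : ℝ) := by
      rw [div_le_iff₀ hq0, mul_assoc, ← Real.rpow_add_one hq0.ne']
      have := hCK q hq
      norm_num at this ⊢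
      exact this
    have hp : 0 ≤ (q : ℝ) ^ (-(99 / 100) : ℝ) := Real.rpow_nonneg hq0.le _
    have hpl : 0 ≤ (1 + Real.log R) ^ (max (2 ^ (K + 2) * CK) (2 ^ K : ℝ)) := Real.rpow_nonneg (by linarith) _
    have htq : 0 ≤ tau q ^ K / q := by
      have := tau_nonneg q
      positivity
    calc cf (fun q => 4 * (2 * tau q) ^ K) ⌊R ^ (1 / 10 ^ 5 : ℝ)⌋₊ q
        ≤ (2 ^ (K + 2) * (tau q ^ K / q)) * ∑ j ∈ Finset.Icc 1 ⌊R ^ (1 / 10 ^ 5 : ℝ)⌋₊, (tau j ^ K / (j : ℝ)) := c1.trans c2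
      _ ≤ (2 ^ (K + 2) * (CK * (q : ℝ) ^ (-(99 / 100) : ℝ))) * (1 + Real.log R) ^ (max (2 ^ (K + 2) * CK) (2 ^ K : ℝ)) := by
          apply mul_le_mul _ (c3.trans (c4.trans c5)) _ _
          · exact mul_le_mul_of_nonneg_left c6 (by positivity)
          · apply Finset.sum_nonneg
            intro j _
            have := tau_nonneg j
            positivity
          · positivity
      _ = (2 ^ (K + 2) * CK) * ((1 + Real.log R) ^ (max (2 ^ (K + 2) * CK) (2 ^ K : ℝ)) * (q : ℝ) ^ (-(99 / 100) : ℝ)) := by ring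
      _ ≤ max (2 ^ (K + 2) * CK) (2 ^ K : ℝ) * ((1 + Real.log R) ^ (max (2 ^ (K + 2) * CK) (2 ^ K : ℝ)) * (q : ℝ) ^ (-(99 / 100) : ℝ)) :=
          mul_le_mul_of_nonneg_right (le_max_left _ _) (mul_nonneg hpl hp)
      _ = _ := by ring

theorem maj_f : ∃ C : ℝ, 0 < C ∧ ∀ R : ℝ, 2 ≤ R → ∃ g : ℕ → ℝ,
    Maj Set.univ 1 (16 * R ^ 2) (C * (1 + Real.log R) ^ C) ⌊R ^ (1 / 10 ^ 5 : ℝ)⌋₊ g := by
  obtain ⟨K, hKd⟩ : ∃ K : ℕ, (5 / 10 ^ 6 : ℝ) * (K : ℝ) = ((10 : ℕ) : ℝ) := ⟨2000000, by norm_num⟩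
  apply mf_K K
  intro R hR
  rw [← Real.rpow_natCast (R ^ (5 / 10 ^ 6 : ℝ)) K, ← Real.rpow_mul (by linarith), hKd, Real.rpow_natCast]
  have h8 : (2 : ℝ) ^ 8 ≤ R ^ 8 := pow_le_pow_left₀ (by norm_num) hR 8
  have h2 : 0 < R ^ 2 := by positivity
  calc 16 * R ^ 2 < 2 ^ 8 * R ^ 2 := by nlinarith
    _ ≤ R ^ 8 * R ^ 2 := by nlinarith
    _ = R ^ 10 := by ring

end Pool.MPb9430d.NT
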