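import Pool.Agent.Lib.MP_b9430d_co.NT.Defs
import Pool.Agent.Lib.MP_b9430d_co.NT.TauL

/-!
# RpC: `rp` of a product of coprime numbers

Induction on `b` (`Nat.recOnPosPrimePosCoprime` or strong induction removing a full prime power `p^n`, `b = p^n b'`, `p ∤ b'`, `p ∤ a`): `rp (p^n (a b')) ≤
(n + 1) rp (a b')` by `rep_two` (`p = 2`), `rep_one_mod` (`p = 1 mod 4`, `Nat.Prime.sq_add_sq`) or `rep_three` (`p = 3 mod 4`) of
Pool/Agent/Lib/MP_1a9bf8_co/REP.lean (see the proof of `rep_le` there), and `tau (p^n b') = (n + 1) tau b'` (coprime, `Nat.Coprime.card_divisors_mul`).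
-/

set_option autoImplicit false

open MeasureTheory Complex Set Real Filter Topology
open scoped ENNReal

namespace Pool.MPb9430d.NT

open Pool.MPb9430d Pool.MPb9430d.Rough Pool.MPb9430d.Frac Pool.MPb9430d.Mom
open Pool.Agent.Lib.DG (rp nq)

theorem rp_coprime_nat (b : ℕ) : 1 ≤ b → ∀ a : ℕ, 1 ≤ a → Nat.Coprime a b →
    rp (a * b) ≤ rp a * b.divisors.card := by
  induction b using Nat.recOnPrimePow with
  | zero => intro h; omega
  | one =>
    intro _ a _ _
    simp
  | prime_pow_mul b p n hp hb hn ih =>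
    intro _ a ha hab
    have hb0 : b ≠ 0 := by
      rintro rfl
      exact hb (dvd_zero p)
    have hcop : Nat.Coprime (p ^ n) b :=
      Nat.Coprime.pow_left n ((Nat.Prime.coprime_iff_not_dvd hp).2 hb)
    have hab' : Nat.Coprime a b := Nat.Coprime.coprime_mul_left_right hab
    have hap : Nat.Coprime a (p ^ n) := Nat.Coprime.coprime_mul_right_right hab
    have hpa : ¬ p ∣ a := by
      intro h
      have h1 : p ∣ p ^ n := dvd_pow_self p hn.ne'
      have h2 := Nat.dvd_gcd h h1
      rw [Nat.Coprime] at hap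
      rw [hap] at h2
      exact hp.one_lt.ne' (Nat.dvd_one.1 h2)
    have hpab : ¬ p ∣ a * b := by
      intro h
      rcases (Nat.Prime.dvd_mul hp).1 h with h | h
      · exact hpa h
      · exact hb h
    have ih' := ih (by omega) a ha hab'
    have hdiv : (p ^ n * b).divisors.card = (n + 1) * b.divisors.card := by
      rw [hcop.card_divisors_mul, Nat.divisors_prime_pow hp n, Finset.card_map, Finset.card_range]
    have hre : a * (p ^ n * b) = p ^ n * (a * b) := by ring
    rw [hre, hdiv]
    have hle : rp (p ^ n * (a * b)) ≤ (n + 1) * rp (a * b) := by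
      have : Fact p.Prime := ⟨hp⟩
      by_cases h1 : p % 4 = 1
      · obtain ⟨x, y, hxy⟩ := Nat.Prime.sq_add_sq (p := p) (by omega)
        have hπ : (⟨x, y⟩ : GaussianInt).norm = (p : ℤ) := by
          rw [Zsqrtd.norm_def, ← hxy]
          push_cast
          ring
        exact Pool.Agent.Lib.DG.rep_one_mod hp hπ
      · have h3 : rp (p ^ n * (a * b)) ≤ rp (a * b) := by
          rcases hp.eq_two_or_odd with h2 | h2
          · subst h2
            exact Pool.Agent.Lib.DG.rep_two
          · exact Pool.Agent.Lib.DG.rep_three hp (by omega) hpab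
        refine h3.trans ?_
        exact Nat.le_mul_of_pos_left _ (Nat.succ_pos n)
    calc rp (p ^ n * (a * b)) ≤ (n + 1) * rp (a * b) := hle
      _ ≤ (n + 1) * (rp a * b.divisors.card) := Nat.mul_le_mul_left _ ih'
      _ = rp a * ((n + 1) * b.divisors.card) := by ring

theorem rp_coprime {a b : ℕ} (ha : 1 ≤ a) (hb : 1 ≤ b) (h : Nat.Coprime a b) :
    (rp (a * b) : ℝ) ≤ rp a * tau b := by
  unfold tau
  exact_mod_cast rp_coprime_nat b hb a ha h

end Pool.MPb9430d.NT
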