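import Pool.Agent.Lib.MP_b9430d_co.NT.Defs
import Pool.Agent.Lib.MP_b9430d_co.NT.CfS
import Pool.Agent.Lib.MP_b9430d_co.NT.SmP
import Pool.Agent.Lib.MP_b9430d_co.NT.RpC

/-!
# MajS: the majorant of `rp` on the typical numbers with bounded constant

`A = ⌊R^(5/10^6)⌋₊`, `z = ⌊R^(3d/100)⌋₊`, `Q = ⌊R^(1/10^5)⌋₊`: `A z² ≤ R^(5/10^6 + 6d/100) ≤ R^(1/10^5)` since `6 d / 100 ≤ 4.8/10^6`. `C = 2^(1/d)`,
`g = gS C A z`. Nonnegativity: `nu_gS` (squares). Majorant: `m` typical, `R^(1/32)/4 ≤ m ≤ 16 R²`, `s = smp (m^d) m ≤ m^(2/10^6) ≤ (16 R²)^(2/10^6) ≤ R^(5/10^6)` (large `R`),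
so `s ≤ A`; `b = m / s` has only prime factors `> m^d ≥ (R^(1/32)/4)^d ≥ R^(3d/100) ≥ z` (large `R`: `R^(1/32 - 3/100) ≥ 4`), so the only `e ≤ z` with `e ∣ b` is `1` and the
term `a = s` of `nu_gS` is `C rp s (lam z 1)² = C rp s ≥ rp s · tau b ≥ rp (s b) = rp m` (`tau_rough`, `rp_coprime`, `lam_one`); the other terms are `≥ 0`.
Coefficients: `cf_s`, `tau q ^ 10 ≤ C₁ q^(1/100)` (`tau_rpow`), `G ≥ log z / 2 ≥ d log R / 100` and `1 + log A ≤ log R` for large `R`: `Λ = max 1 (3200 C C₁ / d)`.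
-/

set_option autoImplicit false

open MeasureTheory Complex Set Real Filter Topology
open scoped ENNReal

namespace Pool.MPb9430d.NT

open Pool.MPb9430d Pool.MPb9430d.Rough Pool.MPb9430d.Frac Pool.MPb9430d.Mom
open Pool.Agent.Lib.DG (rp nq)

/-- large numbers -/
private theorem big {d R : ℝ} (hd : 0 < d) (hd1 : d ≤ 8 / 10 ^ 5) (hR : (2 : ℝ) ^ (100 / d) ≤ R) :
    0 < R ∧ 1600 * Real.log 2 ≤ Real.log R ∧ Real.log 2 ≤ d / 100 * Real.log R := by
  have h0 : (0 : ℝ) < (2 : ℝ) ^ (100 / d) := by positivity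
  have hR0 : 0 < R := lt_of_lt_of_le h0 hR
  have hl2 : 0 < Real.log 2 := Real.log_pos (by norm_num)
  have h1 : 100 / d * Real.log 2 ≤ Real.log R := by
    rw [← Real.log_rpow (by norm_num : (0 : ℝ) < 2)]
    exact Real.log_le_log h0 hR
  refine ⟨hR0, ?_, ?_⟩
  · refine le_trans ?_ h1
    apply mul_le_mul_of_nonneg_right _ hl2.le
    rw [le_div_iff₀ hd]
    nlinarith
  · have h2 : d / 100 * (100 / d * Real.log 2) = Real.log 2 := by field_simp
    rw [← h2]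
    exact mul_le_mul_of_nonneg_left h1 (by positivity)

/-- `A z² ≤ Q` -/
private theorem azq {d R : ℝ} (hd : 0 < d) (hd1 : d ≤ 8 / 10 ^ 5) (hR : 1 ≤ R) :
    ⌊R ^ (5 / 10 ^ 6 : ℝ)⌋₊ * ⌊R ^ (3 * d / 100)⌋₊ ^ 2 ≤ ⌊R ^ (1 / 10 ^ 5 : ℝ)⌋₊ := by
  apply Nat.le_floor
  have hR0 : 0 < R := by linarith
  have ha : ((⌊R ^ (5 / 10 ^ 6 : ℝ)⌋₊ : ℕ) : ℝ) ≤ R ^ (5 / 10 ^ 6 : ℝ) :=
    Nat.floor_le (by positivity)
  have hz : ((⌊R ^ (3 * d / 100)⌋₊ : ℕ) : ℝ) ≤ R ^ (3 * d / 100) := Nat.floor_le (by positivity)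
  push_cast
  calc ((⌊R ^ (5 / 10 ^ 6 : ℝ)⌋₊ : ℕ) : ℝ) * ((⌊R ^ (3 * d / 100)⌋₊ : ℕ) : ℝ) ^ 2
      ≤ R ^ (5 / 10 ^ 6 : ℝ) * (R ^ (3 * d / 100)) ^ 2 :=
        mul_le_mul ha (pow_le_pow_left₀ (Nat.cast_nonneg _) hz 2) (by positivity) (by positivity)
    _ = R ^ (5 / 10 ^ 6 + 3 * d / 100 * 2 : ℝ) := by
        rw [← Real.rpow_natCast (R ^ (3 * d / 100)) 2, ← Real.rpow_mul hR0.le,
          ← Real.rpow_add hR0]
        norm_num
    _ ≤ R ^ (1 / 10 ^ 5 : ℝ) := by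
        apply Real.rpow_le_rpow_of_exponent_le hR
        norm_num at hd1 ⊢
        linarith

/-- the majorant at a typical number -/
private theorem maj_pt {d R C : ℝ} (hd : 0 < d) (hd1 : d ≤ 8 / 10 ^ 5)
    (hR : (2 : ℝ) ^ (100 / d) ≤ R) (hR1 : 1 ≤ R) (hC : C = (2 : ℝ) ^ (1 / d)) {m : ℕ}
    (hm : m ∈ Typ d) (hlo : R ^ (1 / 32 : ℝ) / 4 ≤ m) (hhi : (m : ℝ) ≤ 16 * R ^ 2)
    (hz1 : 1 ≤ ⌊R ^ (3 * d / 100)⌋₊) :
    (rp m : ℝ) ≤ nu (gS C ⌊R ^ (5 / 10 ^ 6 : ℝ)⌋₊ ⌊R ^ (3 * d / 100)⌋₊)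
      ⌊R ^ (1 / 10 ^ 5 : ℝ)⌋₊ m := by
  obtain ⟨hR0, hb1, -⟩ := big hd hd1 hR
  have hl2 : 0 < Real.log 2 := Real.log_pos (by norm_num)
  obtain ⟨hm1, hms⟩ := hm
  have hm0 : (0 : ℝ) < m := by exact_mod_cast hm1
  set s : ℕ := smp ((m : ℝ) ^ d) m with hs
  have hs1 : 1 ≤ s := smp_pos _ _
  have hsd : s ∣ m := smp_dvd _ hm1
  set b : ℕ := m / s with hb
  have hsb : s * b = m := Nat.mul_div_cancel' hsd
  have hb0 : 1 ≤ b := by
    rcases Nat.eq_zero_or_pos b with h | h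
    · rw [h, mul_zero] at hsb
      omega
    · exact h
  set A : ℕ := ⌊R ^ (5 / 10 ^ 6 : ℝ)⌋₊ with hA
  set z : ℕ := ⌊R ^ (3 * d / 100)⌋₊ with hz
  -- `s ≤ A`
  have hsA : s ≤ A := by
    apply Nat.le_floor
    refine hms.trans ?_
    calc (m : ℝ) ^ (2 / 10 ^ 6 : ℝ) ≤ (16 * R ^ 2) ^ (2 / 10 ^ 6 : ℝ) :=
          Real.rpow_le_rpow hm0.le hhi (by positivity)
      _ ≤ R ^ (5 / 10 ^ 6 : ℝ) := by
          rw [Real.rpow_def_of_pos (by positivity), Real.rpow_def_of_pos hR0]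
          apply Real.exp_le_exp.2
          have h16 : Real.log (16 * R ^ 2) = 4 * Real.log 2 + 2 * Real.log R := by
            rw [Real.log_mul (by norm_num) (by positivity), Real.log_pow,
              show (16 : ℝ) = 2 ^ 4 by norm_num, Real.log_pow]
            norm_num
          rw [h16]
          norm_num
          linarith
  -- `z ≤ m ^ d`
  have hzm : (z : ℝ) ≤ (m : ℝ) ^ d := by
    refine (Nat.floor_le (by positivity)).trans ?_
    have h3 : R ^ (3 / 100 : ℝ) ≤ m := by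
      refine le_trans ?_ hlo
      rw [le_div_iff₀ (by norm_num)]
      rw [Real.rpow_def_of_pos hR0, Real.rpow_def_of_pos hR0]
      have h4 : (4 : ℝ) = Real.exp (2 * Real.log 2) := by
        rw [two_mul, Real.exp_add, Real.exp_log (by norm_num)]
        norm_num
      nth_rewrite 1 [h4]
      rw [← Real.exp_add]
      apply Real.exp_le_exp.2
      linarith
    calc R ^ (3 * d / 100) = (R ^ (3 / 100 : ℝ)) ^ d := by
          rw [← Real.rpow_mul hR0.le]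
          ring_nf
      _ ≤ (m : ℝ) ^ d := Real.rpow_le_rpow (by positivity) h3 hd.le
  have hAz := azq hd hd1 hR1
  rw [nu_gS C hAz (m : ℤ)]
  have hC1 : 0 ≤ C := by rw [hC]; positivity
  -- the term of `s`
  have hin : ∑ e ∈ (Finset.Icc 1 z).filter (fun e : ℕ => (e : ℤ) ∣ (m : ℤ) / (s : ℤ)), lam z e = 1 := by
    have hset : (Finset.Icc 1 z).filter (fun e : ℕ => (e : ℤ) ∣ (m : ℤ) / (s : ℤ)) = {1} := by
      ext e
      simp only [Finset.mem_filter, Finset.mem_Icc, Finset.mem_singleton]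
      constructor
      · rintro ⟨⟨he1, hez⟩, hed⟩
        have hed' : e ∣ b := by
          rw [← Int.natCast_div] at hed
          exact Int.natCast_dvd_natCast.1 hed
        by_contra hne
        obtain ⟨p, hp, hpe⟩ := Nat.exists_prime_and_dvd hne
        have hpb : p ∣ m / smp ((m : ℝ) ^ d) m := hpe.trans hed'
        have h5 := rough_of_dvd ((m : ℝ) ^ d) hm1 hp hpb
        have h6 : p ≤ z := (Nat.le_of_dvd (by omega) hpe).trans hez
        have h7 : (p : ℝ) ≤ z := by exact_mod_cast h6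
        linarith
      · rintro rfl
        exact ⟨⟨le_refl _, hz1⟩, by simp⟩
    rw [hset, Finset.sum_singleton, lam_one hz1]
  have hterm : (rp s : ℝ) * (∑ e ∈ (Finset.Icc 1 z).filter
        (fun e : ℕ => (e : ℤ) ∣ (m : ℤ) / (s : ℤ)), lam z e) ^ 2 ≤
      ∑ a ∈ (Finset.Icc 1 A).filter (fun a : ℕ => (a : ℤ) ∣ (m : ℤ)),
      (rp a : ℝ) * (∑ e ∈ (Finset.Icc 1 z).filter (fun e : ℕ => (e : ℤ) ∣ (m : ℤ) / a), lam z e) ^ 2 := by
    refine Finset.single_le_sum (f := fun a : ℕ => (rp a : ℝ) *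
      (∑ e ∈ (Finset.Icc 1 z).filter (fun e : ℕ => (e : ℤ) ∣ (m : ℤ) / a), lam z e) ^ 2)
      (fun a _ => by positivity) ?_
    rw [Finset.mem_filter, Finset.mem_Icc]
    exact ⟨⟨hs1, hsA⟩, Int.natCast_dvd_natCast.2 hsd⟩
  rw [hin] at hterm
  have htau : tau b ≤ C := by rw [hC]; exact tau_rough hd hm1
  have hcop := rp_coprime hs1 hb0 (smp_coprime _ hm1)
  rw [hsb] at hcop
  have hrs : (0 : ℝ) ≤ rp s := by positivity
  calc (rp m : ℝ) ≤ rp s * tau b := hcop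
    _ ≤ rp s * C := mul_le_mul_of_nonneg_left htau hrs
    _ = C * ((rp s : ℝ) * 1 ^ 2) := by ring
    _ ≤ _ := mul_le_mul_of_nonneg_left hterm hC1

theorem maj_s {d : ℝ} (hd : 0 < d) (hd1 : d ≤ 8 / 10 ^ 5) : ∃ Λ R₀ : ℝ, 1 ≤ Λ ∧ 1 ≤ R₀ ∧
    ∀ R : ℝ, R₀ ≤ R → ∃ g : ℕ → ℝ,
      Maj (Typ d) (R ^ (1 / 32 : ℝ) / 4) (16 * R ^ 2) Λ ⌊R ^ (1 / 10 ^ 5 : ℝ)⌋₊ g := by
  obtain ⟨C₁, hC₁, hτ⟩ := tau_rpow 10 (by norm_num : (0 : ℝ) < 1 / 100)
  set C : ℝ := (2 : ℝ) ^ (1 / d) with hC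
  have hC0 : 0 < C := by positivity
  refine ⟨max 1 (3200 * C * C₁ / d), (2 : ℝ) ^ (100 / d), le_max_left _ _,
    Real.one_le_rpow (by norm_num) (by positivity), fun R hR => ?_⟩
  have hR1 : 1 ≤ R := (Real.one_le_rpow (by norm_num) (by positivity)).trans hR
  obtain ⟨hR0, hb1, hb2⟩ := big hd hd1 hR
  have hl2 : (0.6931471803 : ℝ) < Real.log 2 := Real.log_two_gt_d9
  set A : ℕ := ⌊R ^ (5 / 10 ^ 6 : ℝ)⌋₊ with hA
  set z : ℕ := ⌊R ^ (3 * d / 100)⌋₊ with hz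
  have hA1 : 1 ≤ A := by
    apply Nat.le_floor
    rw [Nat.cast_one]
    exact Real.one_le_rpow hR1 (by positivity)
  have hz0 : (1 : ℝ) ≤ R ^ (3 * d / 100) := Real.one_le_rpow hR1 (by positivity)
  have hz1 : 1 ≤ z := by
    apply Nat.le_floor
    rw [Nat.cast_one]
    exact hz0
  have hAz : A * z ^ 2 ≤ ⌊R ^ (1 / 10 ^ 5 : ℝ)⌋₊ := azq hd hd1 hR1
  refine ⟨gS C A z, ⟨fun m => ?_, fun m hm hlo hhi => ?_, fun q hq => ?_⟩⟩
  · rw [nu_gS C hAz m]
    exact mul_nonneg hC0.le (Finset.sum_nonneg fun a _ => by positivity)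
  · exact maj_pt hd hd1 hR hR1 hC hm hlo hhi hz1
  · have hcf := cf_s hC0.le hA1 hz1 hAz hq
    refine hcf.trans ?_
    have hq0 : (0 : ℝ) < q := by exact_mod_cast hq
    have hG0 : 0 < GG z := gg_pos hz1
    -- `GG z ≥ d log R / 100`
    have hlz : d / 50 * Real.log R ≤ Real.log z := by
      have h8 : R ^ (3 * d / 100) / 2 ≤ z := by
        have h9 := Nat.lt_floor_add_one (R ^ (3 * d / 100))
        rw [← hz] at h9
        have h10 : (1 : ℝ) ≤ z := by exact_mod_cast hz1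
        linarith
      have h11 := Real.log_le_log (by positivity) h8
      rw [Real.log_div (by positivity) (by norm_num), Real.log_rpow hR0] at h11
      linarith
    have hG : d / 100 * Real.log R ≤ GG z := by
      have := gg_ge hz1
      linarith
    have hlR : 0 < Real.log R := by linarith
    have hlA : 1 + Real.log A ≤ Real.log R := by
      have h12 : Real.log A ≤ 5 / 10 ^ 6 * Real.log R := by
        rw [← Real.log_rpow hR0]
        exact Real.log_le_log (by exact_mod_cast hA1) (Nat.floor_le (by positivity))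
      norm_num at h12 ⊢
      linarith
    have hlA0 : 0 ≤ Real.log A := Real.log_nonneg (by exact_mod_cast hA1)
    have htq := hτ q hq
    have hrat : (1 + Real.log A) / GG z ≤ 100 / d := by
      rw [div_le_div_iff₀ hG0 hd]
      nlinarith
    have hpw : (q : ℝ) ^ (1 / 100 : ℝ) / q = (q : ℝ) ^ (-(99 / 100) : ℝ) := by
      rw [div_eq_mul_inv, ← Real.rpow_neg_one (q : ℝ), ← Real.rpow_add hq0]
      norm_num
    calc 32 * C * tau q ^ 10 * (1 + Real.log A) / (q * GG z)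
        = 32 * C * (tau q ^ 10) * ((1 + Real.log A) / GG z) / q := by
          field_simp
      _ ≤ 32 * C * (C₁ * (q : ℝ) ^ (1 / 100 : ℝ)) * (100 / d) / q := by
          apply div_le_div_of_nonneg_right _ hq0.le
          apply mul_le_mul _ hrat (by positivity) (by positivity)
          exact mul_le_mul_of_nonneg_left htq (by positivity)
      _ = 3200 * C * C₁ / d * ((q : ℝ) ^ (1 / 100 : ℝ) / q) := by
          ring
      _ = 3200 * C * C₁ / d * (q : ℝ) ^ (-(99 / 100) : ℝ) := by rw [hpw]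
      _ ≤ _ := mul_le_mul_of_nonneg_right (le_max_right _ _) (by positivity)

end Pool.MPb9430d.NT
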