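import Pool.Agent.Lib.MP_b9430d_co.NT.Defs
import Pool.Agent.Lib.MP_b9430d_co.NT.Atp
import Pool.Agent.Lib.MP_b9430d_co.NT.LatG
import Pool.Agent.Lib.MP_b9430d_co.NT.FirM
import Pool.Agent.Lib.MP_b9430d_co.NT.TauL
import Pool.Agent.Lib.MP_b9430d_co.Frac.IntS
import Pool.Agent.Lib.MP_b9430d_co.Frac.CirA

/-!
# TypC: the mass of the atypical lattice points

`C` = constant of `lat_g`, `C₂` = constant of `fir_m`. `X = ‖y‖ ≥ X₀ ≥ 2ρ`, `Q₁ = X^(1/10)`, `M` = least with `Q₁ < 2^(M+1)` (`M ≤ 2 log X`). For `p ∈ S`: `X/2 ≤ ‖lat p‖ ≤ 2X`, `m = nq p = ‖lat p‖² ≥ X²/4 ≥ 1`.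
Second alternative of `atyp`: `(2/10^6) log m ≥ (4/10^6) log (X/2) =: H > 0`, so (Markov) the mass is at most
`(1/H) Σ_{l ≤ z prime} Σ_{a ≤ M, l^a ≤ Q₁} log l · Σ_{p ∈ S, l^a ∣ nq p} cir N (lat p) y`, by `lat_g` (`tau (l^a) = a + 1`)
`≤ (C/H) (Σ log l (a+1)⁴ / l^a + Σ log l (a+1)⁴ N² √Q₁ / √X) ≤ (C/H) (16 log z + C₂ + N² z M · log z · (M+1)⁴ · X^(1/20 - 1/2))`, `log z ≤ 2 d log (2X)`, `z ≤ (2X)^(2d) ≤ (2X)^(1/1000)`:
the first part is `≤ C · 32 · d log(2X) / H + C C₂ / H → C · 8 · 10^6 d`, the rest tends to `0` as `X → ∞`. First alternative: for each prime `l ≤ z` the exponent `a` can be taken as the least `a_l` with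
`l^(a_l) > Q₁` (then `l^(a_l) ∣ l^a ∣ m` and `l^(a_l) ≤ z Q₁`), `a_l ≤ M + 1`; mass `≤ Σ_{l ≤ z} C (M+2)⁴ (1/Q₁ + N² √(z Q₁) / √X) ≤ C z (M+2)⁴ (X^(-1/10) + N² (2X)^(1/2000) X^(1/20 - 1/2)) → 0`.
Choose `d = min (8/10^5) (ε / (10^8 C))` and `X₀` large.
-/

set_option autoImplicit false

open MeasureTheory Complex Set Real Filter Topology
open scoped ENNReal

namespace Pool.MPb9430d.NT

open Pool.MPb9430d Pool.MPb9430d.Rough Pool.MPb9430d.Frac Pool.MPb9430d.Mom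
open Pool.Agent.Lib.DG (rp nq)

theorem TypC_lat_nq (p : ℤ × ℤ) : ‖lat p‖ ^ 2 = (nq p : ℝ) := by
  have h : ∀ a : ℤ, ((a.natAbs : ℕ) : ℝ) ^ 2 = (a : ℝ) ^ 2 := fun a => by
    rw [Nat.cast_natAbs, Int.cast_abs, sq_abs]
  rw [norm_lat_sq]
  unfold nq
  rw [Nat.cast_add, Nat.cast_pow, Nat.cast_pow, h, h]

theorem TypC_mass {C N X : ℝ} (hC : 0 < C) (hX : 1 ≤ X) {y : ℂ} (hy : ‖y‖ = X)
    (hlat : ∀ g : ℕ, 1 ≤ g → ∀ S : Finset (ℤ × ℤ), (∀ p ∈ S, g ∣ nq p) →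
      ∑ p ∈ S, cir N (lat p) y ≤ C * tau g ^ 4 * (1 / g + N ^ 2 * √(g : ℝ) / √‖y‖))
    {l a : ℕ} (hl : l.Prime) (hla : (l : ℝ) ^ a ≤ X ^ (4 / 5 : ℝ)) {S : Finset (ℤ × ℤ)}
    (hS : ∀ p ∈ S, l ^ a ∣ nq p) :
    ∑ p ∈ S, cir N (lat p) y ≤
      C * (((a : ℝ) + 1) ^ 4 / (l : ℝ) ^ a) +
        C * ((a : ℝ) + 1) ^ 4 * (N ^ 2 * X ^ (-(1 / 10) : ℝ)) := by
  have h0 : 0 < X := by linarith
  have h1 := hlat (l ^ a) (Nat.one_le_pow _ _ hl.pos) S hS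
  rw [tau_prime_pow hl, hy, Nat.cast_pow] at h1
  have h2 : √((l : ℝ) ^ a) / √X ≤ X ^ (-(1 / 10) : ℝ) := by
    rw [div_le_iff₀ (Real.sqrt_pos.2 h0)]
    refine (Real.sqrt_le_sqrt hla).trans (le_of_eq ?_)
    rw [Real.sqrt_eq_rpow, Real.sqrt_eq_rpow, ← Real.rpow_mul h0.le, ← Real.rpow_add h0]
    norm_num
  have h3 : N ^ 2 * √((l : ℝ) ^ a) / √X ≤ N ^ 2 * X ^ (-(1 / 10) : ℝ) := by
    rw [mul_div_assoc]
    exact mul_le_mul_of_nonneg_left h2 (sq_nonneg N)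
  refine h1.trans ?_
  have h4 : 0 ≤ C * ((a : ℝ) + 1) ^ 4 := by positivity
  calc _ ≤ C * ((a : ℝ) + 1) ^ 4 * (1 / (l : ℝ) ^ a + N ^ 2 * X ^ (-(1 / 10) : ℝ)) :=
        mul_le_mul_of_nonneg_left (by linarith) h4
    _ = _ := by ring

theorem TypC_union {ι κ : Type*} (S : Finset ι) (K : Finset κ) {f : ι → ℝ} (hf : ∀ p, 0 ≤ f p)
    (R : κ → ι → Prop) [∀ k p, Decidable (R k p)] {w : κ → ℝ} (hw : ∀ k ∈ K, 0 ≤ w k) {H : ℝ}
    (h : ∀ p ∈ S, H ≤ ∑ k ∈ K.filter (fun k => R k p), w k) {B : κ → ℝ}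
    (hB : ∀ k ∈ K, ∑ p ∈ S.filter (fun p => R k p), f p ≤ B k) :
    H * ∑ p ∈ S, f p ≤ ∑ k ∈ K, w k * B k := by
  calc H * ∑ p ∈ S, f p = ∑ p ∈ S, H * f p := Finset.mul_sum _ _ _
    _ ≤ ∑ p ∈ S, (∑ k ∈ K.filter (fun k => R k p), w k) * f p :=
        Finset.sum_le_sum fun p hp => mul_le_mul_of_nonneg_right (h p hp) (hf p)
    _ = ∑ p ∈ S, ∑ k ∈ K, (if R k p then w k * f p else 0) := by
        refine Finset.sum_congr rfl fun p _ => ?_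
        rw [Finset.sum_filter, Finset.sum_mul]
        refine Finset.sum_congr rfl fun k _ => ?_
        split_ifs
        · rfl
        · rw [zero_mul]
    _ = ∑ k ∈ K, ∑ p ∈ S, (if R k p then w k * f p else 0) := Finset.sum_comm
    _ = ∑ k ∈ K, w k * ∑ p ∈ S.filter (fun p => R k p), f p := by
        refine Finset.sum_congr rfl fun k _ => ?_
        rw [Finset.sum_filter, Finset.mul_sum]
        refine Finset.sum_congr rfl fun p _ => ?_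
        split_ifs
        · rfl
        · rw [mul_zero]
    _ ≤ _ := Finset.sum_le_sum fun k hk => mul_le_mul_of_nonneg_left (hB k hk) (hw k hk)

theorem TypC_Z {X d : ℝ} (hd : 0 < d) (hd1 : d ≤ 8 / 10 ^ 5) (hX : 8 ≤ X) :
    (2 * X) ^ (2 * d) ≤ X ^ (1 / 100 : ℝ) := by
  have h1 : (2 * X) ^ (2 * d) ≤ (X ^ (2 : ℝ)) ^ (2 * d) := by
    apply Real.rpow_le_rpow (by linarith) _ (by linarith)
    have : X ^ (2 : ℝ) = X ^ 2 := by
      rw [← Real.rpow_natCast]; norm_num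
    rw [this]
    nlinarith
  refine h1.trans ?_
  rw [← Real.rpow_mul (by linarith)]
  apply Real.rpow_le_rpow_of_exponent_le (by linarith)
  norm_num at hd1 ⊢
  linarith

theorem TypC_pow {X : ℝ} (hX : 0 < X) (k : ℕ) :
    (X ^ (1 / 100 : ℝ)) ^ k * X ^ (-(1 / 10) : ℝ) = X ^ ((k : ℝ) / 100 - 1 / 10) := by
  rw [← Real.rpow_natCast, ← Real.rpow_mul hX.le, ← Real.rpow_add hX]
  congr 1
  ring

theorem TypC_main {C C₂ N X d : ℝ} (hC : 0 < C) (hN : 0 < N) (hd : 0 < d)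
    (hd1 : d ≤ 8 / 10 ^ 5) (hX8 : 8 ≤ X) (hL : Real.log X + 2 ≤ X ^ (1 / 100 : ℝ)) {y : ℂ}
    (hy : ‖y‖ = X)
    (hlat : ∀ g : ℕ, 1 ≤ g → ∀ S : Finset (ℤ × ℤ), (∀ p ∈ S, g ∣ nq p) →
      ∑ p ∈ S, cir N (lat p) y ≤ C * tau g ^ 4 * (1 / g + N ^ 2 * √(g : ℝ) / √‖y‖))
    (hfir : ∀ z M : ℕ, 1 ≤ z →
      ∑ l ∈ (Finset.Icc 1 z).filter Nat.Prime, ∑ a ∈ Finset.Icc 1 M,
        Real.log l * (((a : ℝ) + 1) ^ 4 / (l : ℝ) ^ a) ≤ 16 * Real.log z + C₂)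
    (S : Finset (ℤ × ℤ))
    (hS : ∀ p ∈ S, nq p ∉ Typ d ∧ X / 2 ≤ ‖lat p‖ ∧ ‖lat p‖ ≤ 2 * X) :
    ∑ p ∈ S, cir N (lat p) y ≤ C * (1 + N ^ 2) * X ^ (-(1 / 25) : ℝ) +
      (C * (32 * d * Real.log (2 * X) + C₂) + C * N ^ 2) / (2 / 10 ^ 6 * Real.log (X ^ 2 / 4)) := by
  classical
  have hX0 : 0 < X := by linarith
  have hX1 : 1 ≤ X := by linarith
  have hlX : 0 < Real.log X := Real.log_pos (by linarith)
  obtain ⟨L, hLd⟩ : ∃ L : ℝ, L = X ^ (1 / 100 : ℝ) := ⟨_, rfl⟩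
  obtain ⟨Z, hZd⟩ : ∃ Z : ℝ, Z = (2 * X) ^ (2 * d) := ⟨_, rfl⟩
  obtain ⟨Q, hQd⟩ : ∃ Q : ℝ, Q = X ^ (1 / 10 : ℝ) := ⟨_, rfl⟩
  obtain ⟨E, hEd⟩ : ∃ E : ℝ, E = X ^ (-(1 / 10) : ℝ) := ⟨_, rfl⟩
  rw [← hLd] at hL
  have hL2 : 2 ≤ L := by linarith
  have hL0 : 0 < L := by linarith
  have hE0 : 0 < E := by rw [hEd]; exact Real.rpow_pos_of_pos hX0 _
  have hQ1 : 1 ≤ Q := by rw [hQd]; exact Real.one_le_rpow hX1 (by norm_num)
  have hQ0 : 0 < Q := by linarith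
  have hZL : Z ≤ L := by rw [hZd, hLd]; exact TypC_Z hd hd1 hX8
  have hZ1 : 1 ≤ Z := by rw [hZd]; exact Real.one_le_rpow (by linarith) (by linarith)
  have hQE : 1 / Q = E := by
    rw [hQd, hEd, Real.rpow_neg hX0.le, one_div]
  have hQ45 : Q ≤ X ^ (4 / 5 : ℝ) := by
    rw [hQd]; exact Real.rpow_le_rpow_of_exponent_le hX1 (by norm_num)
  have hZQ : Z * Q ≤ X ^ (11 / 100 : ℝ) := by
    calc Z * Q ≤ L * Q := mul_le_mul_of_nonneg_right hZL hQ0.le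
      _ = X ^ (11 / 100 : ℝ) := by
        rw [hLd, hQd, ← Real.rpow_add hX0]; norm_num
  have hZQ45 : Z * Q ≤ X ^ (4 / 5 : ℝ) :=
    hZQ.trans (Real.rpow_le_rpow_of_exponent_le hX1 (by norm_num))
  -- the exponent bound
  obtain ⟨M, hMd⟩ : ∃ M : ℕ, M = ⌊Real.log X⌋₊ := ⟨_, rfl⟩
  have hMlog : (M : ℝ) ≤ Real.log X := by rw [hMd]; exact Nat.floor_le hlX.le
  have hM1 : Real.log X < M + 1 := by rw [hMd]; exact Nat.lt_floor_add_one _
  have hML : (M : ℝ) + 1 ≤ L := by linarith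
  have hl2 : (0.69 : ℝ) < Real.log 2 := by
    have := Real.log_two_gt_d9
    norm_num at this ⊢
    linarith
  have hMQ : Q < 2 ^ (M + 1) := by
    have e1 : (2 : ℝ) ^ (M + 1) = Real.exp (((M + 1 : ℕ) : ℝ) * Real.log 2) := by
      rw [Real.exp_nat_mul, Real.exp_log two_pos]
    rw [e1, hQd, Real.rpow_def_of_pos hX0]
    apply Real.exp_lt_exp.2
    push_cast
    have h5 : Real.log X * Real.log 2 < ((M : ℝ) + 1) * Real.log 2 :=
      mul_lt_mul_of_pos_right hM1 (by linarith)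
    have h6 : Real.log X * (1 / 10) ≤ Real.log X * Real.log 2 :=
      mul_le_mul_of_nonneg_left (by linarith) hlX.le
    linarith
  obtain ⟨z, hzd⟩ : ∃ z : ℕ, z = ⌊Z⌋₊ := ⟨_, rfl⟩
  have hzZ : (z : ℝ) ≤ Z := by rw [hzd]; exact Nat.floor_le (by linarith)
  have hz1 : 1 ≤ z := by rw [hzd]; exact (Nat.one_le_floor_iff _).2 hZ1
  obtain ⟨P, hPd⟩ : ∃ P : Finset ℕ, P = (Finset.Icc 1 z).filter Nat.Prime := ⟨_, rfl⟩
  have hP : ∀ l ∈ P, l.Prime ∧ (l : ℝ) ≤ Z := by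
    intro l hl
    rw [hPd, Finset.mem_filter, Finset.mem_Icc] at hl
    refine ⟨hl.2, le_trans ?_ hzZ⟩
    exact_mod_cast hl.1.2
  have hPc : (P.card : ℝ) ≤ L := by
    have : P.card ≤ z := by
      rw [hPd]
      refine (Finset.card_filter_le _ _).trans (le_of_eq ?_)
      rw [Nat.card_Icc]; omega
    have h2 : (P.card : ℝ) ≤ z := by exact_mod_cast this
    linarith
  obtain ⟨K, hKd⟩ : ∃ K : Finset (ℕ × ℕ), K = P ×ˢ Finset.Icc 1 M := ⟨_, rfl⟩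
  have hKc : (K.card : ℝ) ≤ L * L := by
    rw [hKd, Finset.card_product, Nat.card_Icc, Nat.add_sub_cancel]
    push_cast
    exact mul_le_mul hPc (by linarith) (Nat.cast_nonneg _) hL0.le
  have hK : ∀ k ∈ K, k.1.Prime ∧ (k.1 : ℝ) ≤ Z ∧ 1 ≤ k.2 ∧ k.2 ≤ M := by
    intro k hk
    rw [hKd, Finset.mem_product, Finset.mem_Icc] at hk
    exact ⟨(hP _ hk.1).1, (hP _ hk.1).2, hk.2.1, hk.2.2⟩
  have hKL : ∀ k ∈ K, ((k.2 : ℝ) + 1) ^ 4 ≤ L ^ 4 := by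
    intro k hk
    have h1 := (hK k hk).2.2.2
    have h2 : (k.2 : ℝ) ≤ M := by exact_mod_cast h1
    exact pow_le_pow_left₀ (by positivity) (by linarith) 4
  have hf : ∀ p : ℤ × ℤ, 0 ≤ cir N (lat p) y := fun p => cir_nonneg N _ _
  -- the two kinds
  have hat : ∀ p ∈ S, (∃ l ∈ P, ∃ a : ℕ, Q < (l : ℝ) ^ a ∧ (l : ℝ) ^ a ≤ Z * Q ∧ l ^ a ∣ nq p) ∨
      2 / 10 ^ 6 * Real.log (nq p) < ∑ l ∈ P,
        ∑ a ∈ (Finset.Icc 1 M).filter (fun a => l ^ a ∣ nq p ∧ (l : ℝ) ^ a ≤ Q), Real.log l := by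
    intro p hp
    obtain ⟨h1, h2, h3⟩ := hS p hp
    have h4 := TypC_lat_nq p
    have h5 : (1 : ℝ) ≤ nq p := by
      rw [← h4]
      nlinarith
    have h6 : (nq p : ℝ) ≤ (2 * X) ^ 2 := by
      rw [← h4]
      exact pow_le_pow_left₀ (norm_nonneg _) h3 2
    have h7 := atyp hd hX1 hQ1 hMQ (m := nq p) (by exact_mod_cast h5) h6 h1
    rw [← hZd, ← hzd, ← hPd] at h7
    exact h7
  obtain ⟨S₁, hS₁d⟩ : ∃ T : Finset (ℤ × ℤ), T = S.filter (fun p => ∃ l ∈ P, ∃ a : ℕ,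
      Q < (l : ℝ) ^ a ∧ (l : ℝ) ^ a ≤ Z * Q ∧ l ^ a ∣ nq p) := ⟨_, rfl⟩
  obtain ⟨S₂, hS₂d⟩ : ∃ T : Finset (ℤ × ℤ), T = S.filter (fun p => ¬ ∃ l ∈ P, ∃ a : ℕ,
      Q < (l : ℝ) ^ a ∧ (l : ℝ) ^ a ≤ Z * Q ∧ l ^ a ∣ nq p) := ⟨_, rfl⟩
  have hsum : ∑ p ∈ S, cir N (lat p) y =
      ∑ p ∈ S₁, cir N (lat p) y + ∑ p ∈ S₂, cir N (lat p) y := by
    rw [hS₁d, hS₂d, Finset.sum_filter_add_sum_filter_not]
  -- first kind
  have hA : ∑ p ∈ S₁, cir N (lat p) y ≤ C * (1 + N ^ 2) * X ^ (-(1 / 25) : ℝ) := by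
    have h1 := TypC_union S₁ K hf (fun (k : ℕ × ℕ) (p : ℤ × ℤ) =>
      (Q < (k.1 : ℝ) ^ k.2 ∧ (k.1 : ℝ) ^ k.2 ≤ Z * Q) ∧ k.1 ^ k.2 ∣ nq p) (w := fun _ => (1 : ℝ))
      (fun _ _ => zero_le_one) (H := 1) ?_ (B := fun _ => C * L ^ 4 * ((1 + N ^ 2) * E)) ?_
    · rw [one_mul] at h1
      refine h1.trans ?_
      rw [Finset.sum_const, nsmul_eq_mul, one_mul]
      calc (K.card : ℝ) * (C * L ^ 4 * ((1 + N ^ 2) * E))
          ≤ (L * L) * (C * L ^ 4 * ((1 + N ^ 2) * E)) :=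
            mul_le_mul_of_nonneg_right hKc (by positivity)
        _ = C * (1 + N ^ 2) * (L ^ 6 * E) := by ring
        _ = C * (1 + N ^ 2) * X ^ (-(1 / 25) : ℝ) := by
            rw [hLd, hEd, TypC_pow hX0 6]
            norm_num
    · intro p hp
      rw [hS₁d, Finset.mem_filter] at hp
      obtain ⟨-, l, hl, a, ha1, ha2, ha3⟩ := hp
      obtain ⟨hlp, hlZ⟩ := hP l hl
      have ha0 : 1 ≤ a := by
        by_contra hcon
        have : a = 0 := by omega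
        rw [this, pow_zero] at ha1
        linarith
      have haM : a ≤ M := by
        rw [hMd]
        apply Nat.le_floor
        have h2 : (2 : ℝ) ^ a ≤ X ^ (11 / 100 : ℝ) := by
          refine le_trans ?_ (ha2.trans hZQ)
          exact pow_le_pow_left₀ (by norm_num) (by exact_mod_cast hlp.two_le) a
        have h3 := Real.log_le_log (by positivity) h2
        rw [Real.log_pow, Real.log_rpow hX0] at h3
        have h4 : (a : ℝ) * 0.69 ≤ (a : ℝ) * Real.log 2 :=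
          mul_le_mul_of_nonneg_left hl2.le (Nat.cast_nonneg _)
        norm_num at h4
        nlinarith
      have hmem : (l, a) ∈ K.filter (fun k : ℕ × ℕ =>
          (Q < (k.1 : ℝ) ^ k.2 ∧ (k.1 : ℝ) ^ k.2 ≤ Z * Q) ∧ k.1 ^ k.2 ∣ nq p) := by
        rw [Finset.mem_filter, hKd, Finset.mem_product, Finset.mem_Icc]
        exact ⟨⟨hl, ha0, haM⟩, ⟨ha1, ha2⟩, ha3⟩
      exact Finset.single_le_sum (f := fun _ : ℕ × ℕ => (1 : ℝ)) (fun _ _ => zero_le_one) hmem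
    · intro k hk
      obtain ⟨hkp, hkZ, hk1, hkM⟩ := hK k hk
      by_cases hc : Q < (k.1 : ℝ) ^ k.2 ∧ (k.1 : ℝ) ^ k.2 ≤ Z * Q
      · have h2 := TypC_mass hC hX1 hy hlat hkp (hc.2.trans hZQ45)
          (S := S₁.filter (fun p => (Q < (k.1 : ℝ) ^ k.2 ∧ (k.1 : ℝ) ^ k.2 ≤ Z * Q) ∧
            k.1 ^ k.2 ∣ nq p))
          (fun p hp => (Finset.mem_filter.1 hp).2.2)
        refine h2.trans ?_
        rw [← hEd]
        have h3 := hKL k hk
        have h4 : ((k.2 : ℝ) + 1) ^ 4 / (k.1 : ℝ) ^ k.2 ≤ L ^ 4 * E := by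
          rw [← hQE, mul_one_div]
          exact div_le_div₀ (by positivity) h3 hQ0 hc.1.le
        have h5 : C * ((k.2 : ℝ) + 1) ^ 4 * (N ^ 2 * E) ≤ C * L ^ 4 * (N ^ 2 * E) := by
          apply mul_le_mul_of_nonneg_right _ (by positivity)
          exact mul_le_mul_of_nonneg_left h3 hC.le
        have h6 : C * (((k.2 : ℝ) + 1) ^ 4 / (k.1 : ℝ) ^ k.2) ≤ C * (L ^ 4 * E) :=
          mul_le_mul_of_nonneg_left h4 hC.le
        calc _ ≤ C * (L ^ 4 * E) + C * L ^ 4 * (N ^ 2 * E) := add_le_add h6 h5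
          _ = _ := by ring
      · have h2 : S₁.filter (fun p => (Q < (k.1 : ℝ) ^ k.2 ∧ (k.1 : ℝ) ^ k.2 ≤ Z * Q) ∧
            k.1 ^ k.2 ∣ nq p) = ∅ := by
          apply Finset.filter_eq_empty_iff.2
          intro p _ h3
          exact hc h3.1
        rw [h2, Finset.sum_empty]
        positivity
  -- second kind
  obtain ⟨H, hHd⟩ : ∃ H : ℝ, H = 2 / 10 ^ 6 * Real.log (X ^ 2 / 4) := ⟨_, rfl⟩
  have hX24 : 1 < X ^ 2 / 4 := by nlinarith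
  have hH0 : 0 < H := by
    rw [hHd]
    have := Real.log_pos hX24
    positivity
  have hB : ∑ p ∈ S₂, cir N (lat p) y ≤
      (C * (32 * d * Real.log (2 * X) + C₂) + C * N ^ 2) / H := by
    rw [le_div_iff₀ hH0, mul_comm]
    have h1 := TypC_union S₂ K hf (fun (k : ℕ × ℕ) (p : ℤ × ℤ) =>
      k.1 ^ k.2 ∣ nq p ∧ (k.1 : ℝ) ^ k.2 ≤ Q) (w := fun k => Real.log (k.1 : ℝ))
      (fun k hk => Real.log_nonneg (by exact_mod_cast (hK k hk).1.one_lt.le)) (H := H) ?_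
      (B := fun k => C * (((k.2 : ℝ) + 1) ^ 4 / (k.1 : ℝ) ^ k.2) +
        C * ((k.2 : ℝ) + 1) ^ 4 * (N ^ 2 * E)) ?_
    · refine h1.trans ?_
      have h2 : ∑ k ∈ K, Real.log (k.1 : ℝ) * (C * (((k.2 : ℝ) + 1) ^ 4 / (k.1 : ℝ) ^ k.2) +
          C * ((k.2 : ℝ) + 1) ^ 4 * (N ^ 2 * E)) =
          C * ∑ k ∈ K, Real.log (k.1 : ℝ) * (((k.2 : ℝ) + 1) ^ 4 / (k.1 : ℝ) ^ k.2) +
          ∑ k ∈ K, Real.log (k.1 : ℝ) * (C * ((k.2 : ℝ) + 1) ^ 4 * (N ^ 2 * E)) := by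
        rw [Finset.mul_sum, ← Finset.sum_add_distrib]
        exact Finset.sum_congr rfl fun k _ => by ring
      rw [h2]
      have h3 : ∑ k ∈ K, Real.log (k.1 : ℝ) * (((k.2 : ℝ) + 1) ^ 4 / (k.1 : ℝ) ^ k.2) ≤
          32 * d * Real.log (2 * X) + C₂ := by
        rw [hKd, Finset.sum_product]
        have h4 := hfir z M hz1
        rw [← hPd] at h4
        refine h4.trans ?_
        have h5 : Real.log z ≤ 2 * d * Real.log (2 * X) := by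
          have h6 := Real.log_le_log (by exact_mod_cast hz1) hzZ
          rwa [hZd, Real.log_rpow (by linarith)] at h6
        linarith
      have h4 : ∑ k ∈ K, Real.log (k.1 : ℝ) * (C * ((k.2 : ℝ) + 1) ^ 4 * (N ^ 2 * E)) ≤
          C * N ^ 2 := by
        calc _ ≤ ∑ k ∈ K, L * (C * L ^ 4 * (N ^ 2 * E)) := by
              refine Finset.sum_le_sum fun k hk => ?_
              obtain ⟨hkp, hkZ, hk1, hkM⟩ := hK k hk
              have h5 : Real.log (k.1 : ℝ) ≤ L :=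
                (Real.log_le_self (Nat.cast_nonneg _)).trans (hkZ.trans hZL)
              have h6 : C * ((k.2 : ℝ) + 1) ^ 4 * (N ^ 2 * E) ≤ C * L ^ 4 * (N ^ 2 * E) := by
                apply mul_le_mul_of_nonneg_right _ (by positivity)
                exact mul_le_mul_of_nonneg_left (hKL k hk) hC.le
              exact mul_le_mul h5 h6 (by positivity) hL0.le
          _ = (K.card : ℝ) * (L * (C * L ^ 4 * (N ^ 2 * E))) := by
              rw [Finset.sum_const, nsmul_eq_mul]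
          _ ≤ (L * L) * (L * (C * L ^ 4 * (N ^ 2 * E))) :=
              mul_le_mul_of_nonneg_right hKc (by positivity)
          _ = C * N ^ 2 * (L ^ 7 * E) := by ring
          _ ≤ C * N ^ 2 * 1 := by
              apply mul_le_mul_of_nonneg_left _ (by positivity)
              rw [hLd, hEd, TypC_pow hX0 7]
              apply Real.rpow_le_one_of_one_le_of_nonpos hX1
              norm_num
          _ = _ := mul_one _
      have h5 : C * ∑ k ∈ K, Real.log (k.1 : ℝ) * (((k.2 : ℝ) + 1) ^ 4 / (k.1 : ℝ) ^ k.2) ≤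
          C * (32 * d * Real.log (2 * X) + C₂) := mul_le_mul_of_nonneg_left h3 hC.le
      exact add_le_add h5 h4
    · intro p hp
      rw [hS₂d, Finset.mem_filter] at hp
      rcases hat p hp.1 with h2 | h2
      · exact absurd h2 hp.2
      · have h3 : H ≤ 2 / 10 ^ 6 * Real.log (nq p) := by
          rw [hHd]
          apply mul_le_mul_of_nonneg_left _ (by norm_num)
          apply Real.log_le_log (by linarith)
          rw [← TypC_lat_nq p]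
          have := (hS p hp.1).2.1
          nlinarith
        refine h3.trans (h2.le.trans (le_of_eq ?_))
        rw [Finset.sum_filter, hKd, Finset.sum_product]
        refine Finset.sum_congr rfl fun l _ => ?_
        rw [Finset.sum_filter]
    · intro k hk
      obtain ⟨hkp, hkZ, hk1, hkM⟩ := hK k hk
      by_cases hc : (k.1 : ℝ) ^ k.2 ≤ Q
      · have h2 := TypC_mass hC hX1 hy hlat hkp (hc.trans hQ45)
          (S := S₂.filter (fun p => k.1 ^ k.2 ∣ nq p ∧ (k.1 : ℝ) ^ k.2 ≤ Q))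
          (fun p hp => (Finset.mem_filter.1 hp).2.1)
        rw [← hEd] at h2
        exact h2
      · have h2 : S₂.filter (fun p => k.1 ^ k.2 ∣ nq p ∧ (k.1 : ℝ) ^ k.2 ≤ Q) = ∅ := by
          apply Finset.filter_eq_empty_iff.2
          intro p _ h3
          exact hc h3.2
        rw [h2, Finset.sum_empty]
        positivity
  rw [hsum, ← hHd]
  exact add_le_add hA hB

theorem TypC_log_ev : ∀ᶠ X : ℝ in atTop, Real.log X + 2 ≤ X ^ (1 / 100 : ℝ) := by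
  have h1 := isLittleO_log_rpow_atTop (r := 1 / 100) (by norm_num)
  have h2 := h1.bound (c := 1 / 2) (by norm_num)
  have h3 : Tendsto (fun X : ℝ => X ^ (1 / 100 : ℝ)) atTop atTop :=
    tendsto_rpow_atTop (by norm_num)
  filter_upwards [h2, h3.eventually_ge_atTop 4, eventually_ge_atTop (1 : ℝ)] with X a1 a2 a3
  rw [Real.norm_of_nonneg (Real.log_nonneg a3), Real.norm_of_nonneg (by linarith)] at a1
  linarith

theorem typ_core {N ρ ε : ℝ} (hN : 0 < N) (hρ : 1 ≤ ρ) (hε : 0 < ε) : ∃ d : ℝ, 0 < d ∧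
    d ≤ 8 / 10 ^ 5 ∧ ∃ X₀ : ℝ, 1 ≤ X₀ ∧ ∀ y : ℂ, X₀ ≤ ‖y‖ → ∀ S : Finset (ℤ × ℤ),
      (∀ p ∈ S, nq p ∉ Typ d ∧ |‖lat p‖ - ‖y‖| ≤ ρ) → ∑ p ∈ S, cir N (lat p) y ≤ ε := by
  obtain ⟨C, hC, hlat⟩ := lat_g
  obtain ⟨C₂, hC₂, hfir⟩ := fir_m
  obtain ⟨d, hdd⟩ : ∃ d : ℝ, d = min (8 / 10 ^ 5) (ε / (10 ^ 8 * C)) := ⟨_, rfl⟩
  have hd0 : 0 < d := by rw [hdd]; exact lt_min (by norm_num) (by positivity)
  have hd1 : d ≤ 8 / 10 ^ 5 := by rw [hdd]; exact min_le_left _ _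
  have hd2 : d ≤ ε / (10 ^ 8 * C) := by rw [hdd]; exact min_le_right _ _
  have hd3 : d * C ≤ ε / 10 ^ 8 := by
    calc d * C ≤ ε / (10 ^ 8 * C) * C := mul_le_mul_of_nonneg_right hd2 hC.le
      _ = ε / 10 ^ 8 := by field_simp
  refine ⟨d, hd0, hd1, ?_⟩
  have e1 : Tendsto (fun X : ℝ => C * (1 + N ^ 2) * X ^ (-(1 / 25) : ℝ)) atTop (𝓝 0) := by
    have := (tendsto_rpow_neg_atTop (y := 1 / 25) (by norm_num)).const_mul (C * (1 + N ^ 2))
    rwa [mul_zero] at this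
  have e2 : ∀ᶠ X : ℝ in atTop, C * (1 + N ^ 2) * X ^ (-(1 / 25) : ℝ) < ε / 4 :=
    e1.eventually_lt_const (by positivity)
  have e3 : ∀ᶠ X : ℝ in atTop,
      (C * C₂ + C * N ^ 2) * (4 / ε) * 10 ^ 6 + 1 ≤ Real.log X :=
    Real.tendsto_log_atTop.eventually_ge_atTop _
  obtain ⟨X₁, hX₁⟩ := Filter.eventually_atTop.1 ((TypC_log_ev.and e2).and e3)
  refine ⟨max X₁ (max 16 (2 * ρ)), le_trans (by norm_num : (1 : ℝ) ≤ 16)
    ((le_max_left _ _).trans (le_max_right _ _)), fun y hy S hS => ?_⟩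
  obtain ⟨X, hXd⟩ : ∃ X : ℝ, X = ‖y‖ := ⟨_, rfl⟩
  rw [← hXd] at hy
  have a1 : X₁ ≤ X := (le_max_left _ _).trans hy
  have a2 : 16 ≤ X := ((le_max_left _ _).trans (le_max_right _ _)).trans hy
  have a3 : 2 * ρ ≤ X := ((le_max_right _ _).trans (le_max_right _ _)).trans hy
  obtain ⟨⟨b1, b2⟩, b3⟩ := hX₁ X a1
  have hy0 : y ≠ 0 := by
    intro h
    rw [h, norm_zero] at hXd
    linarith
  have hmain := TypC_main hC hN hd0 hd1 (by linarith : 8 ≤ X) b1 hXd.symm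
    (fun g hg T hT => hlat N hN y hy0 g hg T hT) hfir S (fun p hp => by
      obtain ⟨c1, c2⟩ := hS p hp
      rw [← hXd, abs_le] at c2
      exact ⟨c1, by linarith [c2.1], by linarith [c2.2]⟩)
  refine hmain.trans ?_
  have hlX : 0 < Real.log X := Real.log_pos (by linarith)
  -- the logarithms
  have c1 : Real.log X ≤ Real.log (X ^ 2 / 4) := by
    apply Real.log_le_log (by linarith)
    nlinarith
  have c2 : Real.log (2 * X) ≤ 2 * Real.log X := by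
    rw [show 2 * Real.log X = Real.log (X ^ 2) by rw [Real.log_pow]; norm_num]
    apply Real.log_le_log (by linarith)
    nlinarith
  have hH : 0 < 2 / 10 ^ 6 * Real.log X := by positivity
  have c3 : (C * (32 * d * Real.log (2 * X) + C₂) + C * N ^ 2) /
      (2 / 10 ^ 6 * Real.log (X ^ 2 / 4)) ≤
      (64 * (d * C) * Real.log X + (C * C₂ + C * N ^ 2)) / (2 / 10 ^ 6 * Real.log X) := by
    apply div_le_div₀ _ _ hH _
    · positivity
    · have h5 : 32 * (d * C) * Real.log (2 * X) ≤ 32 * (d * C) * (2 * Real.log X) :=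
        mul_le_mul_of_nonneg_left c2 (by positivity)
      linarith
    · exact mul_le_mul_of_nonneg_left c1 (by norm_num)
  have c4 : (64 * (d * C) * Real.log X + (C * C₂ + C * N ^ 2)) / (2 / 10 ^ 6 * Real.log X) ≤
      3 * ε / 4 := by
    rw [div_le_iff₀ hH]
    have h5 : 64 * (d * C) * Real.log X ≤ 64 * (ε / 10 ^ 8) * Real.log X := by
      apply mul_le_mul_of_nonneg_right _ hlX.le
      linarith
    have h6 : (C * C₂ + C * N ^ 2) * (4 / ε) * 10 ^ 6 ≤ Real.log X := by linarith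
    have h7 : (C * C₂ + C * N ^ 2) ≤ ε / 4 / 10 ^ 6 * Real.log X := by
      have h8 := mul_le_mul_of_nonneg_left h6 (show 0 ≤ ε / 4 / 10 ^ 6 by positivity)
      have h9 : ε / 4 / 10 ^ 6 * ((C * C₂ + C * N ^ 2) * (4 / ε) * 10 ^ 6) =
          C * C₂ + C * N ^ 2 := by
        field_simp
      rw [h9] at h8
      exact h8
    have h10 : 0 < ε * Real.log X := by positivity
    norm_num at h5 h7 ⊢
    nlinarith
  linarith

end Pool.MPb9430d.NT
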