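import Pool.Agent.Lib.MP_b9430d_co.NT.Defs
import Pool.Agent.Lib.MP_b9430d_co.NT.TypC

/-!
# TypM: the typical mass

`cut ρ x ≤ C gau (1/ρ) x` with `C = ρ² exp π` (`cut ρ x ≤ 1` and `= 0` for `‖x‖ ≥ ρ`). `cut ρ (y + rot θ lat p) ≠ 0` only if `|‖lat p‖ - ‖y‖| ≤ ρ` (finitely many `p`), so
`ST (Typ d)ᶜ (cut ρ) y ≤ (2π)⁻¹ ∫ Σ_{p ∈ S} C gau (1/ρ) (y + rot θ lat p) = C Σ_{p ∈ S} cir (1/ρ) (lat p) y` with `S` = the atypical `p` with `|‖lat p‖ - ‖y‖| ≤ ρ`;
`typ_core` with `N = 1/ρ` and `ε / C`.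
-/

set_option autoImplicit false

open MeasureTheory Complex Set Real Filter Topology
open scoped ENNReal

namespace Pool.MPb9430d.NT

open Pool.MPb9430d Pool.MPb9430d.Rough Pool.MPb9430d.Frac Pool.MPb9430d.Mom
open Pool.Agent.Lib.DG (rp nq)

theorem typ_mass {ρ ε : ℝ} (hρ : 1 ≤ ρ) (hε : 0 < ε) : ∃ d : ℝ, 0 < d ∧ d ≤ 8 / 10 ^ 5 ∧
    ∃ X₀ : ℝ, 1 ≤ X₀ ∧ ∀ y : ℂ, X₀ ≤ ‖y‖ →
      ST (Typ d)ᶜ (fun x => ENNReal.ofReal (cut ρ x)) y ≤ ENNReal.ofReal ε := by
  have hρ0 : 0 < ρ := by linarith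
  set C : ℝ := ρ ^ 2 * Real.exp π with hC
  have hCp : 0 < C := by positivity
  have hg0 : ∀ x : ℂ, 0 ≤ C * gau (1 / ρ) x := by
    intro x
    unfold gau
    positivity
  have hgc : ∀ (y : ℂ) (p : ℤ × ℤ), Continuous fun θ : ℝ => C * gau (1 / ρ) (y + rot θ * lat p) := by
    intro y p
    unfold gau
    have h1 := continuous_rot
    fun_prop
  obtain ⟨d, hd0, hd1, X₀, hX₀, h⟩ := typ_core (N := 1 / ρ) (ρ := ρ) (ε := ε / C)
    (by positivity) hρ (by positivity)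
  refine ⟨d, hd0, hd1, X₀, hX₀, fun y hy => ?_⟩
  have hcut : ∀ x : ℂ, cut ρ x ≤ C * gau (1 / ρ) x := by
    intro x
    rcases le_or_gt ρ ‖x‖ with h1 | h1
    · rw [cut_of_ge h1]
      exact hg0 x
    · refine (cut_le_one ρ x).trans ?_
      have h2 : C * gau (1 / ρ) x = Real.exp (π + -(π * (1 / ρ) ^ 2 * ‖x‖ ^ 2)) := by
        rw [Real.exp_add]
        unfold gau
        rw [hC]
        field_simp
      rw [h2]
      refine Real.one_le_exp ?_
      have h3 : (1 / ρ) ^ 2 * ‖x‖ ^ 2 ≤ 1 := by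
        rw [← mul_pow]
        have h4 : 1 / ρ * ‖x‖ ≤ 1 := by
          rw [one_div, inv_mul_le_iff₀ hρ0]
          linarith
        exact pow_le_one₀ (by positivity) h4
      nlinarith [Real.pi_pos]
  classical
  set S : Finset (ℤ × ℤ) := ((finite_lat (‖y‖ + ρ)).toFinset).filter
    (fun p => nq p ∉ Typ d ∧ |‖lat p‖ - ‖y‖| ≤ ρ) with hS
  have hmem : ∀ p, p ∈ S ↔ nq p ∉ Typ d ∧ |‖lat p‖ - ‖y‖| ≤ ρ := by
    intro p
    rw [hS, Finset.mem_filter, Set.Finite.mem_toFinset]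
    constructor
    · exact fun h => h.2
    · intro h
      refine ⟨?_, h⟩
      have h1 := (abs_le.mp h.2).2
      change ‖lat p‖ ≤ ‖y‖ + ρ
      linarith
  have hS' := h y hy S (fun p hp => (hmem p).1 hp)
  unfold ST
  refine le_trans (mul_le_mul' le_rfl (lintegral_mono
    (g := fun θ => ∑ p ∈ S, ENNReal.ofReal (C * gau (1 / ρ) (y + rot θ * lat p)))
    fun θ => ?_)) ?_
  · beta_reduce
    rw [tsum_eq_sum (s := S)]
    · refine Finset.sum_le_sum fun p hp => ?_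
      have h0 : nq p ∈ (Typ d)ᶜ := ((hmem p).1 hp).1
      rw [if_pos h0]
      exact ENNReal.ofReal_le_ofReal (hcut _)
    · intro p hp
      by_cases h1 : nq p ∈ (Typ d)ᶜ
      · rw [if_pos h1]
        have h2 : ρ < |‖lat p‖ - ‖y‖| := by
          by_contra h3
          exact hp ((hmem p).2 ⟨h1, not_lt.mp h3⟩)
        have h3 : ‖rot θ * lat p‖ = ‖lat p‖ := by rw [norm_mul, norm_rot, one_mul]
        have h4 : |‖lat p‖ - ‖y‖| ≤ ‖y + rot θ * lat p‖ := by
          have h5 := abs_norm_sub_norm_le (rot θ * lat p) (-y)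
          rw [h3, norm_neg, sub_neg_eq_add, add_comm (rot θ * lat p)] at h5
          exact h5
        rw [cut_of_ge (by linarith), ENNReal.ofReal_zero]
      · rw [if_neg h1]
  · rw [lintegral_finsetSum _ fun p _ => (hgc y p).measurable.ennreal_ofReal]
    have h5 : ∀ p : ℤ × ℤ, ∫⁻ θ in Ioc (-π) π,
        ENNReal.ofReal (C * gau (1 / ρ) (y + rot θ * lat p)) =
        ENNReal.ofReal (∫ θ in (-π)..π, C * gau (1 / ρ) (y + rot θ * lat p)) := by
      intro p
      rw [intervalIntegral.integral_of_le (by linarith [Real.pi_pos]),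
        ofReal_integral_eq_lintegral_ofReal]
      · exact (hgc y p).integrableOn_Icc.mono_set Ioc_subset_Icc_self
      · exact Filter.Eventually.of_forall fun θ => hg0 _
    rw [Finset.sum_congr rfl fun p _ => h5 p, ← ENNReal.ofReal_sum_of_nonneg,
      ← ENNReal.ofReal_mul (by positivity)]
    · refine ENNReal.ofReal_le_ofReal ?_
      have h6 : (2 * π)⁻¹ * ∑ p ∈ S, ∫ θ in (-π)..π, C * gau (1 / ρ) (y + rot θ * lat p) =
          C * ∑ p ∈ S, cir (1 / ρ) (lat p) y := by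
        rw [Finset.mul_sum, Finset.mul_sum]
        refine Finset.sum_congr rfl fun p _ => ?_
        rw [intervalIntegral.integral_const_mul]
        unfold cir
        ring
      rw [h6]
      calc C * ∑ p ∈ S, cir (1 / ρ) (lat p) y ≤ C * (ε / C) :=
            mul_le_mul_of_nonneg_left hS' hCp.le
        _ = ε := by field_simp
    · intro p _
      exact intervalIntegral.integral_nonneg (by linarith [Real.pi_pos]) fun θ _ => hg0 _

end Pool.MPb9430d.NT
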